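import Pool.Agent.QH.Defs
import Pool.Agent.Helper6.WB.Defs

set_option autoImplicit false

/-!
QH-WForm. Formulas, their leaves, and the substitution of numbers for the frequent variables.

Plan: inductions on the formula. `reads_le_occ`: in the case `add`/`mul` with `F.vars ∪ G.vars = {i}` the variable `i` occurs, so `1 ≤ occ i F + occ i G` (lemma `i ∈ F.vars ↔ 0 < occ i F`). `reads_subF`: `occ i (subF h F) = 0` if
`h i ≠ none` and `= occ i F` otherwise. `card_hms`: prove `(hms H ix F).card = ∑ i ∈ F.vars.filter H, occ i F` (sums over unions: extend the sum to a larger finite set, `occ i F = 0` outside `F.vars`). `tree_hms`: `Tree.const`,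
`Tree.var` with `c = 1`, `Tree.add`, `Tree.mul` with `B = 1` (`Fin 1` sums; `congrArg` to adjust the vector of polynomials). `length_hl`: `(l.filter (isH ..)).length` for `l = F.code` with the test of the whole formula fixed: generalize
the Boolean test `c i` on variables: `((F.code.filter fun t => decide (3 ≤ t.1) && c (t.1 - 3)).length = ∑ i ∈ F.vars.filter (c ·), occ i F`. `sub_code`: `Fm.code` of `subF` is the map of the tokens (induction with a general `h`).
-/

namespace Pool.Agent.QH

open MvPolynomial
open Pool.Agent.Helper6.WB (Fm)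

/-- the number of the leaves labelled by the variable `x_i` -/
def occ (i : ℕ) : Fm → ℕ
  | .const _ => 0
  | .var j => if j = i then 1 else 0
  | .add F G => occ i F + occ i G
  | .mul F G => occ i F + occ i G

/-- the number of the leaves labelled by variables which label more than `r` leaves -/
def heavy (r : ℕ) (F : Fm) : ℕ := ∑ i ∈ F.vars.filter fun i => r < occ i F, occ i F

/-- the substitution of constants for the variables `x_i` with `h i ≠ none` -/
def subF (h : ℕ → Option ℚ) : Fm → Fm
  | .const q => .const q
  | .var i => (h i).elim (.var i) .const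
  | .add F G => .add (subF h F) (subF h G)
  | .mul F G => .mul (subF h F) (subF h G)

/-- the leaves labelled by variables in `H`, renamed by `ix` -/
def hms (H : ℕ → Prop) [DecidablePred H] (ix : ℕ → ℕ) : Fm → Multiset ℕ
  | .const _ => 0
  | .var i => if H i then {ix i} else 0
  | .add F G => hms H ix F + hms H ix G
  | .mul F G => hms H ix F + hms H ix G

/-- the number of the tokens for the variable `x_i` -/
def cnt (i : ℕ) (l : List (ℕ × ℚ)) : ℕ := (l.filter fun t => t.1 == i + 3).length

/-- the token stands for a variable with more than `r` tokens -/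
def isH (r : ℕ) (l : List (ℕ × ℚ)) (t : ℕ × ℚ) : Bool :=
  decide (3 ≤ t.1) && decide (r < cnt (t.1 - 3) l)

/-- the frequent variables, in the order of the tokens, with repetitions -/
def hl (r : ℕ) (l : List (ℕ × ℚ)) : List ℕ := (l.filter (isH r l)).map fun t => t.1 - 3

/-- the substitution on codes -/
def sub (r : ℕ) (l : List (ℕ × ℚ)) (x : List ℕ) : List (ℕ × ℚ) :=
  l.map fun t => if isH r l t then (0, ((x.getD ((hl r l).idxOf (t.1 - 3)) 0 : ℕ) : ℚ)) else t

theorem mem_vars_iff (i : ℕ) (F : Fm) : i ∈ F.vars ↔ 0 < occ i F := by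
  induction F with
  | const q => simp [Fm.vars, occ]
  | var j =>
    simp only [Fm.vars, occ, Finset.mem_singleton]
    by_cases h : j = i
    · simp [h]
    · simp [h, Ne.symm h]
  | add F G ihF ihG =>
    simp only [Fm.vars, occ, Finset.mem_union, ihF, ihG]
    omega
  | mul F G ihF ihG =>
    simp only [Fm.vars, occ, Finset.mem_union, ihF, ihG]
    omega

theorem reads_le_occ (i : ℕ) (F : Fm) : F.reads i ≤ occ i F := by
  induction F with
  | const q => exact le_refl _
  | var j => exact le_refl _
  | add F G ihF ihG =>
    simp only [Fm.reads, occ]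
    split_ifs with h
    · have h1 : i ∈ F.vars ∪ G.vars := by
        rw [h]
        exact Finset.mem_singleton_self i
      rw [Finset.mem_union, mem_vars_iff, mem_vars_iff] at h1
      omega
    · omega
  | mul F G ihF ihG =>
    simp only [Fm.reads, occ]
    split_ifs with h
    · have h1 : i ∈ F.vars ∪ G.vars := by
        rw [h]
        exact Finset.mem_singleton_self i
      rw [Finset.mem_union, mem_vars_iff, mem_vars_iff] at h1
      omega
    · omega

private theorem occ_subF (h : ℕ → Option ℚ) (F : Fm) (i : ℕ) :
    occ i (subF h F) = if h i = none then occ i F else 0 := by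
  induction F with
  | const q => simp [subF, occ]
  | var j =>
    simp only [subF, occ]
    rcases hj : h j with _ | q
    · simp only [Option.elim_none, occ]
      by_cases hji : j = i
      · subst hji
        simp [hj]
      · simp [hji]
    · simp only [Option.elim_some, occ]
      by_cases hji : j = i
      · subst hji
        simp [hj]
      · simp [hji]
  | add F G ihF ihG =>
    simp only [subF, occ, ihF, ihG]
    split_ifs <;> rfl
  | mul F G ihF ihG =>
    simp only [subF, occ, ihF, ihG]
    split_ifs <;> rfl

theorem reads_subF {r : ℕ} {h : ℕ → Option ℚ} {F : Fm} (hh : ∀ i, h i = none → occ i F ≤ r)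
    (i : ℕ) : (subF h F).reads i ≤ r := by
  refine (reads_le_occ i _).trans ?_
  rw [occ_subF]
  split_ifs with h1
  · exact hh i h1
  · exact Nat.zero_le r

theorem poly_subF (h : ℕ → Option ℚ) (F : Fm) :
    (subF h F).poly = aeval (fun i => (h i).elim (X i : MvPolynomial ℕ ℚ) C) F.poly := by
  induction F with
  | const q =>
    simp only [subF, Fm.poly, aeval_C]
    rfl
  | var j =>
    simp only [subF, Fm.poly, aeval_X]
    rcases h j with _ | q
    · rfl
    · rfl
  | add F G ihF ihG => simp only [subF, Fm.poly, map_add, ihF, ihG]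
  | mul F G ihF ihG => simp only [subF, Fm.poly, map_mul, ihF, ihG]

theorem mem_hms {H : ℕ → Prop} [DecidablePred H] {ix : ℕ → ℕ} {F : Fm} {x : ℕ} :
    x ∈ hms H ix F ↔ ∃ i ∈ F.vars, H i ∧ ix i = x := by
  induction F with
  | const q => simp [hms, Fm.vars]
  | var j =>
    simp only [hms, Fm.vars, Finset.mem_singleton, exists_eq_left]
    split_ifs with h
    · simp [h, eq_comm]
    · simp [h]
  | add F G ihF ihG =>
    simp only [hms, Fm.vars, Multiset.mem_add, Finset.mem_union, ihF, ihG]
    constructor
    · rintro (⟨i, hi, h⟩ | ⟨i, hi, h⟩)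
      · exact ⟨i, Or.inl hi, h⟩
      · exact ⟨i, Or.inr hi, h⟩
    · rintro ⟨i, hi | hi, h⟩
      · exact Or.inl ⟨i, hi, h⟩
      · exact Or.inr ⟨i, hi, h⟩
  | mul F G ihF ihG =>
    simp only [hms, Fm.vars, Multiset.mem_add, Finset.mem_union, ihF, ihG]
    constructor
    · rintro (⟨i, hi, h⟩ | ⟨i, hi, h⟩)
      · exact ⟨i, Or.inl hi, h⟩
      · exact ⟨i, Or.inr hi, h⟩
    · rintro ⟨i, hi | hi, h⟩
      · exact Or.inl ⟨i, hi, h⟩
      · exact Or.inr ⟨i, hi, h⟩

private theorem card_aux (H : ℕ → Prop) [DecidablePred H] (ix : ℕ → ℕ) (G : Fm) (S : Finset ℕ)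
    (hS : G.vars ⊆ S) : (hms H ix G).card = ∑ i ∈ S.filter H, occ i G := by
  induction G with
  | const q => simp [hms, occ]
  | var j =>
    have hj : j ∈ S := hS (by simp [Fm.vars])
    simp only [hms, occ]
    rw [Finset.sum_ite_eq]
    by_cases h : H j
    · rw [if_pos h, if_pos (Finset.mem_filter.2 ⟨hj, h⟩), Multiset.card_singleton]
    · rw [if_neg h, if_neg (fun h1 => h (Finset.mem_filter.1 h1).2), Multiset.card_zero]
  | add F G ihF ihG =>
    simp only [hms, occ, Multiset.card_add, Finset.sum_add_distrib]
    rw [ihF (Finset.subset_union_left.trans hS), ihG (Finset.subset_union_right.trans hS)]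
  | mul F G ihF ihG =>
    simp only [hms, occ, Multiset.card_add, Finset.sum_add_distrib]
    rw [ihF (Finset.subset_union_left.trans hS), ihG (Finset.subset_union_right.trans hS)]

theorem card_hms (r : ℕ) (ix : ℕ → ℕ) (F : Fm) :
    (hms (fun i => r < occ i F) ix F).card = heavy r F := by
  rw [card_aux (fun i => r < occ i F) ix F F.vars (Finset.Subset.refl _)]
  rfl

private theorem tree_congr {w : ℕ} {o : Multiset ℕ} {f g : Fin w → MvPolynomial ℕ ℚ}
    (h : Tree w o f) (e : f = g) : Tree w o g := e ▸ h

theorem tree_hms (H : ℕ → Prop) [DecidablePred H] (ix : ℕ → ℕ) (a : ℕ → ℚ) (F : Fm) :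
    Tree 1 (hms H ix F)
      fun _ => aeval (fun i => if H i then (X (ix i) : MvPolynomial ℕ ℚ) else C (a i)) F.poly := by
  induction F with
  | const q =>
    simp only [hms]
    refine tree_congr (Tree.const fun _ => q) ?_
    funext j
    simp only [Fm.poly, aeval_C]
    rfl
  | var j =>
    simp only [hms]
    by_cases h : H j
    · rw [if_pos h]
      refine tree_congr (Tree.var (ix j) fun _ => 1) ?_
      funext k
      simp only [Fm.poly, aeval_X, if_pos h, map_one, one_mul]
    · rw [if_neg h]
      refine tree_congr (Tree.const fun _ => a j) ?_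
      funext k
      simp only [Fm.poly, aeval_X, if_neg h]
  | add F G ihF ihG =>
    simp only [hms]
    refine tree_congr (Tree.add ihF ihG) ?_
    funext k
    simp only [Fm.poly, map_add]
  | mul F G ihF ihG =>
    simp only [hms]
    refine tree_congr (Tree.mul (fun _ _ _ => 1) ihF ihG) ?_
    funext k
    simp only [Fm.poly, map_mul, Finset.univ_unique, Finset.sum_const, Finset.card_singleton,
      one_smul, map_one, one_mul]

theorem cnt_code (i : ℕ) (F : Fm) : cnt i F.code = occ i F := by
  unfold cnt
  induction F with
  | const q => simp [Fm.code, occ]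
  | var j =>
    simp only [Fm.code, occ]
    by_cases h : j = i
    · simp [h]
    · simp [h]
  | add F G ihF ihG =>
    simp only [Fm.code, occ, List.filter_append, List.length_append, ihF, ihG]
    simp
  | mul F G ihF ihG =>
    simp only [Fm.code, occ, List.filter_append, List.length_append, ihF, ihG]
    simp

private theorem len_aux (c : ℕ → Bool) (G : Fm) (S : Finset ℕ) (hS : G.vars ⊆ S) :
    (G.code.filter fun t => decide (3 ≤ t.1) && c (t.1 - 3)).length =
      ∑ i ∈ S.filter (fun i => c i = true), occ i G := by
  induction G with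
  | const q => simp [Fm.code, occ]
  | var j =>
    have hj : j ∈ S := hS (by simp [Fm.vars])
    simp only [Fm.code, occ]
    rw [Finset.sum_ite_eq]
    have hm : j ∈ S.filter (fun i => c i = true) ↔ c j = true := by
      rw [Finset.mem_filter]
      exact ⟨fun h => h.2, fun h => ⟨hj, h⟩⟩
    by_cases h : c j = true
    · rw [if_pos (hm.2 h)]
      simp [h]
    · rw [if_neg (fun h1 => h (hm.1 h1))]
      simp [h]
  | add F G ihF ihG =>
    simp only [Fm.code, occ, List.filter_append, List.length_append, Finset.sum_add_distrib]
    rw [ihF (Finset.subset_union_left.trans hS), ihG (Finset.subset_union_right.trans hS)]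
    simp
  | mul F G ihF ihG =>
    simp only [Fm.code, occ, List.filter_append, List.length_append, Finset.sum_add_distrib]
    rw [ihF (Finset.subset_union_left.trans hS), ihG (Finset.subset_union_right.trans hS)]
    simp

theorem length_hl (r : ℕ) (F : Fm) : (hl r F.code).length = heavy r F := by
  unfold hl
  rw [List.length_map]
  have h1 := len_aux (fun i => decide (r < cnt i F.code)) F F.vars (Finset.Subset.refl _)
  unfold heavy
  have h2 : (F.vars.filter fun i => decide (r < cnt i F.code) = true) =
      F.vars.filter fun i => r < occ i F := by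
    refine Finset.filter_congr fun i _ => ?_
    rw [cnt_code, decide_eq_true_iff]
  rw [← h2, ← h1]
  rfl

private theorem mem_code {F : Fm} {i : ℕ} (hi : i ∈ F.vars) : (i + 3, (0 : ℚ)) ∈ F.code := by
  induction F with
  | const q => simp [Fm.vars] at hi
  | var j =>
    simp only [Fm.vars, Finset.mem_singleton] at hi
    simp [Fm.code, hi]
  | add F G ihF ihG =>
    simp only [Fm.vars, Finset.mem_union] at hi
    simp only [Fm.code, List.mem_append]
    rcases hi with hi | hi
    · exact Or.inl (Or.inl (ihF hi))
    · exact Or.inl (Or.inr (ihG hi))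
  | mul F G ihF ihG =>
    simp only [Fm.vars, Finset.mem_union] at hi
    simp only [Fm.code, List.mem_append]
    rcases hi with hi | hi
    · exact Or.inl (Or.inl (ihF hi))
    · exact Or.inl (Or.inr (ihG hi))

theorem mem_hl {r : ℕ} {F : Fm} {i : ℕ} (hi : i ∈ F.vars) (h : r < occ i F) :
    i ∈ hl r F.code := by
  unfold hl
  refine List.mem_map.2 ⟨(i + 3, 0), List.mem_filter.2 ⟨mem_code hi, ?_⟩, by simp⟩
  unfold isH
  simp only [Nat.add_sub_cancel, cnt_code, Bool.and_eq_true, decide_eq_true_eq]
  exact ⟨by omega, h⟩

private theorem map_aux (c : ℕ → Bool) (v : ℕ → ℚ) (G : Fm) :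
    (G.code.map fun t => if decide (3 ≤ t.1) && c (t.1 - 3) then ((0 : ℕ), v (t.1 - 3)) else t) =
      (subF (fun i => if c i = true then some (v i) else none) G).code := by
  induction G with
  | const q => simp [Fm.code, subF]
  | var j =>
    by_cases h : c j = true
    · simp [Fm.code, subF, h]
    · simp [Fm.code, subF, h]
  | add F G ihF ihG =>
    simp only [Fm.code, subF, List.map_append, ihF, ihG]
    simp
  | mul F G ihF ihG =>
    simp only [Fm.code, subF, List.map_append, ihF, ihG]
    simp

theorem sub_code (r : ℕ) (F : Fm) (x : List ℕ) :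
    sub r F.code x = (subF (fun i => if r < occ i F then
      some ((x.getD ((hl r F.code).idxOf i) 0 : ℕ) : ℚ) else none) F).code := by
  have h1 := map_aux (fun i => decide (r < cnt i F.code))
    (fun i => ((x.getD ((hl r F.code).idxOf i) 0 : ℕ) : ℚ)) F
  have h2 : (fun i => if decide (r < cnt i F.code) = true then
      some ((x.getD ((hl r F.code).idxOf i) 0 : ℕ) : ℚ) else none) = fun i => if r < occ i F then
      some ((x.getD ((hl r F.code).idxOf i) 0 : ℕ) : ℚ) else none := by
    funext i
    rw [cnt_code]
    simp only [decide_eq_true_eq]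
  rw [h2] at h1
  rw [← h1]
  rfl

end Pool.Agent.QH
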