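import Pool.Agent.QH.Defs

set_option autoImplicit false

/-!
QH-Spec. The parameters `rt`, `rtc`, `lv`.

Plan. `rt_spec`: the filter is an initial segment of `range (s + 1)` (monotonicity of `x ↦ x ^ (τ + 1)`), so `rt τ s` is the number of all `x` with `x ^ (τ + 1) ≤ s` (`x ≤ x ^ (τ + 1) ≤ s` shows that such `x` are
`< s + 1`). General lemma: if `p` is downward closed on `range n` then the number of `x < n` with `p x` is the least `x ≤ n` with `¬ p x` or `n` (induction on `n`). `rtc_spec` likewise (`s ^ d ≥ s`). `lv_spec`: `Nat.lt_size_self`,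
`Nat.lt_size` (`m < size n ↔ 2 ^ m ≤ n`): `2 ^ (2 * par).size ≤ 2 * (2 * par)` for `par ≠ 0`; `par` unfolds to `c * (m + 1) ^ τ + m * 2 ^ (d - 1)`.
-/

namespace Pool.Agent.QH

private theorem seg (p : ℕ → Bool) (hp : ∀ x y, x ≤ y → p y = true → p x = true) (n : ℕ) :
    ((List.range n).filter p).length ≤ n ∧
      ∀ x, x < n → (p x = true ↔ x < ((List.range n).filter p).length) := by
  induction n with
  | zero => exact ⟨by simp, fun x hx => absurd hx (Nat.not_lt_zero x)⟩
  | succ n ih =>
    obtain ⟨ih1, ih2⟩ := ih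
    have hlen : ((List.range (n + 1)).filter p).length =
        ((List.range n).filter p).length + (if p n = true then 1 else 0) := by
      rw [List.range_succ, List.filter_append, List.length_append]
      congr 1
      by_cases h : p n = true
      · simp [h]
      · simp [h]
    generalize ((List.range n).filter p).length = L at *
    generalize ((List.range (n + 1)).filter p).length = L' at *
    by_cases h : p n = true
    · rw [if_pos h] at hlen
      have hL : L = n := by
        by_contra hne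
        have hlt : L < n := by omega
        have := (ih2 L hlt).1 (hp L n hlt.le h)
        exact lt_irrefl _ this
      subst hlen
      subst hL
      refine ⟨le_refl _, fun x hx => ⟨fun _ => hx, fun _ => hp x L (by omega) h⟩⟩
    · rw [if_neg h, add_zero] at hlen
      subst hlen
      refine ⟨by omega, fun x hx => ?_⟩
      rcases Nat.lt_succ_iff_lt_or_eq.1 hx with h1 | h1
      · exact ih2 x h1
      · subst h1
        exact ⟨fun h2 => absurd h2 h, fun h2 => by omega⟩

theorem rt_spec (τ s : ℕ) : s < rt τ s ^ (τ + 1) ∧ (rt τ s - 1) ^ (τ + 1) ≤ s ∧ 0 < rt τ s := by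
  have h := seg (fun x => decide (x ^ (τ + 1) ≤ s)) (by
    intro x y hxy hy
    have hy' : y ^ (τ + 1) ≤ s := of_decide_eq_true hy
    exact decide_eq_true ((Nat.pow_le_pow_left hxy _).trans hy')) (s + 1)
  have e : ((List.range (s + 1)).filter (fun x => decide (x ^ (τ + 1) ≤ s))).length = rt τ s := rfl
  rw [e] at h
  obtain ⟨h1, h2⟩ := h
  have h0 : 0 < rt τ s := by
    refine (h2 0 (Nat.succ_pos s)).1 (decide_eq_true ?_)
    rw [zero_pow (Nat.succ_ne_zero τ)]
    exact Nat.zero_le s
  refine ⟨?_, ?_, h0⟩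
  · rcases Nat.lt_or_ge (rt τ s) (s + 1) with h3 | h3
    · by_contra h4
      have h5 := (h2 (rt τ s) h3).1 (decide_eq_true (not_lt.1 h4))
      exact lt_irrefl _ h5
    · calc s < rt τ s := h3
        _ ≤ rt τ s ^ (τ + 1) := Nat.le_self_pow (Nat.succ_ne_zero τ) _
  · exact of_decide_eq_true ((h2 (rt τ s - 1) (by omega)).2 (by omega))

theorem rtc_spec {d : ℕ} (hd : 1 ≤ d) (s : ℕ) :
    s ≤ rtc d s ^ d ∧ (rtc d s = 0 ∨ (rtc d s - 1) ^ d < s) := by
  have h := seg (fun x => decide (x ^ d < s)) (by
    intro x y hxy hy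
    have hy' : y ^ d < s := of_decide_eq_true hy
    exact decide_eq_true (lt_of_le_of_lt (Nat.pow_le_pow_left hxy _) hy')) (s + 1)
  have e : ((List.range (s + 1)).filter (fun x => decide (x ^ d < s))).length = rtc d s := rfl
  rw [e] at h
  obtain ⟨h1, h2⟩ := h
  refine ⟨?_, ?_⟩
  · rcases Nat.lt_or_ge (rtc d s) (s + 1) with h3 | h3
    · by_contra h4
      have h5 := (h2 (rtc d s) h3).1 (decide_eq_true (not_le.1 h4))
      exact lt_irrefl _ h5
    · calc s ≤ rtc d s := by omega
        _ ≤ rtc d s ^ d := Nat.le_self_pow (by omega) _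
  · rcases Nat.eq_zero_or_pos (rtc d s) with h0 | h0
    · exact Or.inl h0
    · exact Or.inr (of_decide_eq_true ((h2 (rtc d s - 1) (by omega)).2 (by omega)))

theorem lv_spec (τ c d m : ℕ) : 1 ≤ lv τ c d m ∧
    c * (m + 1) ^ τ + m * 2 ^ (d - 1) < 2 ^ (lv τ c d m - 1) ∧
      (0 < par τ c d m → 2 ^ lv τ c d m ≤ 8 * par τ c d m) := by
  have e : c * (m + 1) ^ τ + m * 2 ^ (d - 1) = par τ c d m := rfl
  rw [e]
  unfold lv
  generalize par τ c d m = P
  refine ⟨by omega, ?_, fun hP => ?_⟩
  · have h := Nat.lt_size_self (2 * P)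
    rw [Nat.add_sub_cancel]
    omega
  · have h0 : 0 < (2 * P).size := Nat.size_pos.2 (by omega)
    have h1 : 2 ^ ((2 * P).size - 1) ≤ 2 * P := Nat.lt_size.1 (by omega)
    have h2 : 2 ^ ((2 * P).size + 1) = 4 * 2 ^ ((2 * P).size - 1) := by
      have h3 : (2 * P).size + 1 = ((2 * P).size - 1) + 2 := by omega
      rw [h3, pow_add]
      ring
    rw [h2]
    omega

end Pool.Agent.QH
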