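import Pool.Agent.QH.Defs

set_option autoImplicit false

/-!
QH-Hsh. The values of the polynomials `hsh b d v`: few coincidences, and a bound.
-/

namespace Pool.Agent.QH

private theorem hsh_dig {b : ℕ} : ∀ (d v w : ℕ), v < b ^ d → w < b ^ d →
    (∀ i < d, v / b ^ i % b = w / b ^ i % b) → v = w := by
  intro d
  induction d with
  | zero =>
    intro v w hv hw _
    rw [pow_zero] at hv hw
    omega
  | succ d ih =>
    intro v w hv hw h
    have hv' : v / b < b ^ d := by
      apply Nat.div_lt_of_lt_mul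
      rwa [pow_succ'] at hv
    have hw' : w / b < b ^ d := by
      apply Nat.div_lt_of_lt_mul
      rwa [pow_succ'] at hw
    have h1 : v / b = w / b := by
      apply ih _ _ hv' hw'
      intro i hi
      have h2 := h (i + 1) (by omega)
      rwa [pow_succ', ← Nat.div_div_eq_div_mul, ← Nat.div_div_eq_div_mul] at h2
    have h0 := h 0 (by omega)
    rw [pow_zero, Nat.div_one, Nat.div_one] at h0
    rw [← Nat.div_add_mod v b, ← Nat.div_add_mod w b, h0, h1]

theorem hsh_card {b d v w : ℕ} (L : ℕ) (hv : v < b ^ d) (hw : w < b ^ d) (hvw : v ≠ w) :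
    ((Finset.range L).filter fun a => hsh b d v a = hsh b d w a).card ≤ d - 1 := by
  classical
  set P : Polynomial ℤ := ∑ i ∈ Finset.range d,
    Polynomial.C ((v / b ^ i % b : ℕ) - (w / b ^ i % b : ℕ) : ℤ) * Polynomial.X ^ i with hP
  have hcoef : ∀ i < d, P.coeff i = ((v / b ^ i % b : ℕ) - (w / b ^ i % b : ℕ) : ℤ) := by
    intro i hi
    rw [hP, Polynomial.finsetSum_coeff]
    rw [Finset.sum_eq_single i]
    · rw [Polynomial.coeff_C_mul_X_pow, if_pos rfl]
    · intro j _ hj
      rw [Polynomial.coeff_C_mul_X_pow, if_neg (Ne.symm hj)]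
    · intro hi'
      exact absurd (Finset.mem_range.2 hi) hi'
  have hP0 : P ≠ 0 := by
    intro h0
    apply hvw
    apply hsh_dig d v w hv hw
    intro i hi
    have h1 := hcoef i hi
    rw [h0, Polynomial.coeff_zero] at h1
    have h2 : ((v / b ^ i % b : ℕ) : ℤ) = ((w / b ^ i % b : ℕ) : ℤ) := by linarith
    exact_mod_cast h2
  have hdeg : P.natDegree ≤ d - 1 := by
    rw [hP]
    apply Polynomial.natDegree_sum_le_of_forall_le
    intro i hi
    have h1 := Finset.mem_range.1 hi
    exact (Polynomial.natDegree_C_mul_X_pow_le _ _).trans (by omega)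
  have heval : ∀ a : ℕ, P.eval (a : ℤ) = (hsh b d v a : ℤ) - (hsh b d w a : ℤ) := by
    intro a
    rw [hP, Polynomial.eval_finsetSum]
    unfold hsh
    push_cast
    rw [← Finset.sum_sub_distrib]
    apply Finset.sum_congr rfl
    intro i _
    rw [Polynomial.eval_mul, Polynomial.eval_pow, Polynomial.eval_X, Polynomial.eval_C]
    push_cast
    ring
  set Z : Finset ℤ := (((Finset.range L).filter fun a => hsh b d v a = hsh b d w a).image
    (fun a : ℕ => (a : ℤ))) with hZ
  have hcard : Z.card = ((Finset.range L).filter fun a => hsh b d v a = hsh b d w a).card := by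
    rw [hZ]
    apply Finset.card_image_of_injective
    intro a a' h
    have h' : (a : ℤ) = (a' : ℤ) := h
    exact_mod_cast h'
  rw [← hcard]
  refine (Polynomial.card_le_degree_of_subset_roots ?_).trans hdeg
  intro z hz
  have hz' : z ∈ Z := hz
  rw [hZ, Finset.mem_image] at hz'
  obtain ⟨a, ha, rfl⟩ := hz'
  rw [Finset.mem_filter] at ha
  rw [Polynomial.mem_roots hP0, Polynomial.IsRoot, heval, ha.2, sub_self]

theorem hsh_lt {b d v a L : ℕ} (hb : 0 < b) (ha : a < L) : hsh b d v a < qb b d L := by
  have hL : 1 ≤ L := by omega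
  unfold hsh qb
  have h1 : ∑ i ∈ Finset.range d, (v / b ^ i % b) * a ^ i ≤
      ∑ i ∈ Finset.range d, b * L ^ d := by
    apply Finset.sum_le_sum
    intro i hi
    have hi' := Finset.mem_range.1 hi
    apply Nat.mul_le_mul (Nat.mod_lt _ hb).le
    exact (Nat.pow_le_pow_left ha.le i).trans (Nat.pow_le_pow_right hL hi'.le)
  rw [Finset.sum_const, Finset.card_range, smul_eq_mul, ← mul_assoc] at h1
  omega

end Pool.Agent.QH
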