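import Pool.Agent.QH.Defs

set_option autoImplicit false

/-!
QH-Ml. The generic multilinear polynomial `ml L θ y` (`Defs.lean`): recursion, ring homs,
interpolation from the values at a box, and the number of its coefficients after a restriction.
-/

namespace Pool.Agent.QH

theorem ml_succ {R : Type*} [CommSemiring R] (L : ℕ) (θ y : ℕ → R) :
    ml (L + 1) θ y = ml L θ y + y L * ml L (fun S => θ (2 ^ L + S)) y := by
  unfold ml
  rw [pow_succ, mul_two, Finset.sum_range_add, Finset.mul_sum]
  congr 1
  · refine Finset.sum_congr rfl fun S hS => ?_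
    rw [Finset.mem_range] at hS
    rw [Finset.range_add_one, Finset.filter_insert, Nat.testBit_lt_two_pow hS,
      if_neg Bool.false_ne_true]
  · refine Finset.sum_congr rfl fun S hS => ?_
    rw [Finset.mem_range] at hS
    have h1 : (Finset.range L).filter (fun a => (2 ^ L + S).testBit a) =
        (Finset.range L).filter (fun a => S.testBit a) := by
      refine Finset.filter_congr fun a ha => ?_
      rw [Nat.testBit_two_pow_add_gt (Finset.mem_range.1 ha)]
    have h2 : (2 ^ L + S).testBit L = true := by
      rw [Nat.testBit_two_pow_add_eq, Nat.testBit_lt_two_pow hS]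
      rfl
    rw [Finset.range_add_one, Finset.filter_insert, if_pos h2, h1, Finset.prod_insert]
    · ring
    · intro h3
      exact Finset.notMem_range_self (Finset.mem_filter.1 h3).1

theorem ml_map {R S : Type*} [CommSemiring R] [CommSemiring S] (f : R →+* S) (L : ℕ)
    (θ y : ℕ → R) : f (ml L θ y) = ml L (fun S => f (θ S)) fun a => f (y a) := by
  unfold ml
  rw [map_sum]
  refine Finset.sum_congr rfl fun S _ => ?_
  rw [map_mul, map_prod]

theorem gen_map {R S : Type*} [CommSemiring R] [CommSemiring S] (f : R →+* S) (b d L : ℕ)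
    (β : ℕ → ℕ) (θ z : ℕ → R) (y : ℕ → ℕ → ℕ → R) (v : ℕ) :
    f (gen b d L β θ z y v) = gen b d L β (fun S => f (θ S)) (fun k => f (z k))
      (fun k a h => f (y k a h)) v := by
  unfold gen
  rw [map_add, ml_map]

theorem ml_congr {R : Type*} [CommSemiring R] {L : ℕ} {θ θ' y y' : ℕ → R}
    (h : ∀ S < 2 ^ L, θ S = θ' S) (h' : ∀ a < L, y a = y' a) : ml L θ y = ml L θ' y' := by
  unfold ml
  refine Finset.sum_congr rfl fun S hS => ?_
  rw [h S (Finset.mem_range.1 hS)]
  congr 1
  refine Finset.prod_congr rfl fun a ha => ?_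
  exact h' a (Finset.mem_range.1 (Finset.mem_filter.1 ha).1)

/-- The coefficients are rational combinations of the values at the vertices of a box. -/
theorem ml_interp {K : Type} [Field K] [Algebra ℚ K] (k : IntermediateField ℚ K) (r r' : ℕ → ℚ)
    (hr : ∀ a, r a ≠ r' a) (L : ℕ) (θ : ℕ → K)
    (h : ∀ T : Finset ℕ, ml L θ (fun a => algebraMap ℚ K (if a ∈ T then r' a else r a)) ∈ k) :
    ∀ S < 2 ^ L, θ S ∈ k := by
  induction L generalizing θ with
  | zero =>
    intro S hS
    have h1 := h ∅
    unfold ml at h1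
    rw [pow_zero, Finset.sum_range_one, Finset.range_zero, Finset.filter_empty,
      Finset.prod_empty, mul_one] at h1
    rw [pow_zero, Nat.lt_one_iff] at hS
    rw [hS]
    exact h1
  | succ L ih =>
    have key : ∀ T : Finset ℕ,
        ml L θ (fun a => algebraMap ℚ K (if a ∈ T then r' a else r a)) ∈ k ∧
        ml L (fun S => θ (2 ^ L + S)) (fun a => algebraMap ℚ K (if a ∈ T then r' a else r a)) ∈ k := by
      intro T
      have h0 := h (T.erase L)
      have h1 := h (insert L T)
      have c0 : ∀ θ' : ℕ → K,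
          ml L θ' (fun a => algebraMap ℚ K (if a ∈ T.erase L then r' a else r a)) =
            ml L θ' (fun a => algebraMap ℚ K (if a ∈ T then r' a else r a)) := by
        intro θ'
        refine ml_congr (fun _ _ => rfl) fun a ha => ?_
        have e : (a ∈ T.erase L) = (a ∈ T) := by
          rw [Finset.mem_erase, eq_iff_iff]
          exact ⟨fun h => h.2, fun h => ⟨ha.ne, h⟩⟩
        simp only [e]
      have c1 : ∀ θ' : ℕ → K,
          ml L θ' (fun a => algebraMap ℚ K (if a ∈ insert L T then r' a else r a)) =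
            ml L θ' (fun a => algebraMap ℚ K (if a ∈ T then r' a else r a)) := by
        intro θ'
        refine ml_congr (fun _ _ => rfl) fun a ha => ?_
        have e : (a ∈ insert L T) = (a ∈ T) := by
          rw [Finset.mem_insert, eq_iff_iff]
          exact ⟨fun h => h.resolve_left ha.ne, fun h => Or.inr h⟩
        simp only [e]
      rw [ml_succ, c0, c0, if_neg (Finset.notMem_erase L T)] at h0
      rw [ml_succ, c1, c1, if_pos (Finset.mem_insert_self L T)] at h1
      generalize ml L θ (fun a => algebraMap ℚ K (if a ∈ T then r' a else r a)) = u at h0 h1 ⊢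
      generalize ml L (fun S => θ (2 ^ L + S))
        (fun a => algebraMap ℚ K (if a ∈ T then r' a else r a)) = w at h0 h1 ⊢
      have hne : algebraMap ℚ K (r' L) - algebraMap ℚ K (r L) ≠ 0 := by
        rw [← map_sub]
        exact (map_ne_zero_iff _ (algebraMap ℚ K).injective).2 (sub_ne_zero.2 (hr L).symm)
      have hd : algebraMap ℚ K (r' L) - algebraMap ℚ K (r L) ∈ k := by
        rw [← map_sub]
        exact k.algebraMap_mem _
      have hw : w ∈ k := by
        have h2 := sub_mem h1 h0
        have h3 : w = (u + algebraMap ℚ K (r' L) * w - (u + algebraMap ℚ K (r L) * w)) /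
            (algebraMap ℚ K (r' L) - algebraMap ℚ K (r L)) := by
          rw [eq_div_iff hne]
          ring
        rw [h3]
        exact div_mem h2 hd
      refine ⟨?_, hw⟩
      have h2 := sub_mem h0 (mul_mem (k.algebraMap_mem (r L)) hw)
      rw [add_sub_cancel_right] at h2
      exact h2
    intro S hS
    by_cases hS' : S < 2 ^ L
    · exact ih θ (fun T => (key T).1) S hS'
    · have h1 := ih (fun S => θ (2 ^ L + S)) (fun T => (key T).2) (S - 2 ^ L) (by
        rw [pow_succ] at hS
        omega)
      have h2 : 2 ^ L + (S - 2 ^ L) = S := by omega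
      rw [h2] at h1
      exact h1

/-- After the substitution of constants for the variables outside `I` the polynomial has at most
`2 ^ card I` coefficients. -/
theorem ml_par {K A : Type} [Field K] [CommRing A] [Algebra K A] [Algebra ℚ A] (L : ℕ)
    (θ c : ℕ → K) (t : ℕ → A) (I : Finset ℕ) :
    ∃ T : Finset K, T.card ≤ 2 ^ I.card ∧ ∀ 𝓢 : Subalgebra ℚ A,
      (∀ x ∈ T, algebraMap K A x ∈ 𝓢) → (∀ a ∈ I, t a ∈ 𝓢) →
        ml L (fun S => algebraMap K A (θ S))
          (fun a => if a ∈ I then t a else algebraMap K A (c a)) ∈ 𝓢 := by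
  classical
  obtain ⟨bt, hbt⟩ : ∃ bt : ℕ → Finset ℕ, ∀ S, bt S = (Finset.range L).filter
    (fun a => S.testBit a) := ⟨_, fun _ => rfl⟩
  obtain ⟨κ, hκ⟩ : ∃ κ : Finset ℕ → K, ∀ J, κ J =
      ∑ S ∈ (Finset.range (2 ^ L)).filter (fun S => (bt S).filter (· ∈ I) = J),
        θ S * ∏ a ∈ (bt S).filter (fun a => ¬ a ∈ I), c a := ⟨_, fun _ => rfl⟩
  refine ⟨I.powerset.image κ, ?_, ?_⟩
  · refine Finset.card_image_le.trans ?_
    rw [Finset.card_powerset]
  intro 𝓢 hT ht
  have h1 : ml L (fun S => algebraMap K A (θ S))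
      (fun a => if a ∈ I then t a else algebraMap K A (c a)) =
      ∑ J ∈ I.powerset, algebraMap K A (κ J) * ∏ a ∈ J, t a := by
    unfold ml
    rw [← Finset.sum_fiberwise_of_maps_to (s := Finset.range (2 ^ L)) (t := I.powerset)
      (g := fun S => (bt S).filter (· ∈ I)) (fun S _ => Finset.mem_powerset.2
        fun a ha => (Finset.mem_filter.1 ha).2)]
    refine Finset.sum_congr rfl fun J _ => ?_
    rw [hκ, map_sum, Finset.sum_mul]
    refine Finset.sum_congr rfl fun S hS => ?_
    have h2 := (Finset.mem_filter.1 hS).2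
    rw [← hbt, Finset.prod_ite, h2, map_mul, map_prod]
    ring
  rw [h1]
  refine sum_mem fun J hJ => mul_mem (hT _ (Finset.mem_image_of_mem κ hJ)) (prod_mem fun a ha => ?_)
  exact ht a (Finset.mem_powerset.1 hJ ha)

end Pool.Agent.QH
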