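import Pool.Agent.QH.Block

set_option autoImplicit false

/-!
QH-Comp. The generator hits `F`, if every block is small or a single variable. The blocks are
replaced one after the other: a small block by `block`, a single variable by the shift `z`.
-/

namespace Pool.Agent.QH

open MvPolynomial

private theorem cmp_congr {K : Type} [Field K] [Algebra ℚ K] (F : MvPolynomial ℕ ℚ)
    (f g : ℕ → K) (h : ∀ v ∈ F.vars, f v = g v) : aeval f F = aeval g F := by
  have := eval₂Hom_congr' (f₁ := algebraMap ℚ K) (f₂ := algebraMap ℚ K) (g₁ := f) (g₂ := g)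
    (p₁ := F) (p₂ := F) rfl (fun i hi _ => h i hi) rfl
  simpa [aeval_def, coe_eval₂Hom] using this

private theorem cmp_exists {K : Type} [Field K] [Algebra ℚ K] (F : MvPolynomial ℕ ℚ)
    (h0 : F ≠ 0) : ∃ x : ℕ → K, aeval x F ≠ 0 := by
  have hK : Infinite K := Infinite.of_injective (algebraMap ℚ K) (algebraMap ℚ K).injective
  by_contra hcon
  push Not at hcon
  have h1 : map (algebraMap ℚ K) F = 0 := by
    apply MvPolynomial.funext
    intro x
    rw [eval_map, ← aeval_def, hcon x, map_zero]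
  exact h0 ((map_eq_zero_iff _ (map_injective _ (algebraMap ℚ K).injective)).1 h1)

theorem comp {K : Type} [Field K] [Algebra ℚ K] {L d b m : ℕ} {D : ℕ → ℕ} (hD : Monotone D)
    {θ : ℕ → K} (hθ : AlgebraicIndependent ℚ fun S : Fin (2 ^ L) => θ S) {o : Multiset ℕ}
    {F : MvPolynomial ℕ ℚ} (hF : Par o D F) (hv : ∀ v ∈ F.vars, v ∈ o) (hL1 : 1 ≤ L)
    (hL : D m + m * 2 ^ (d - 1) < 2 ^ (L - 1)) (hb : ∀ v ∈ o, v < b ^ d) (β : ℕ → ℕ)
    (hβ : ∀ k, (o.filter fun v => β v = k).card ≤ m ∨ ∃ v, ∀ u ∈ o, β u = k → u = v)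
    (h0 : F ≠ 0) :
    ∃ (z : ℕ → K) (y : ℕ → ℕ → ℕ → K), aeval (gen b d L β θ z y) F ≠ 0 := by
  have key : ∀ W : Finset ℕ, ∃ (z : ℕ → K) (y : ℕ → ℕ → ℕ → K) (x : ℕ → K),
      aeval (fun v => if β v ∈ W then gen b d L β θ z y v else x v) F ≠ 0 := by
    intro W
    induction W using Finset.induction_on with
    | empty =>
      obtain ⟨x, hx⟩ := cmp_exists (K := K) F h0
      exact ⟨fun _ => 0, fun _ _ _ => 0, x, by simpa using hx⟩
    | insert k W hk ih =>
      obtain ⟨z, y, x, hx⟩ := ih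
      set s : ℕ → K := fun v => if β v ∈ W then gen b d L β θ z y v else x v with hs
      rcases hβ k with h1 | ⟨v₀, h1⟩
      · obtain ⟨y₀, hy⟩ := block hD hθ hF hv (fun v => β v = k) h1 hL1 hL hb s s
          (by simpa using hx)
        refine ⟨Function.update z k 0, Function.update y k y₀, x, ?_⟩
        rw [cmp_congr F _ (fun v => if β v = k then ml L θ (fun a => y₀ a (hsh b d v a))
          else s v)]
        · exact hy
        · intro v _
          by_cases hvk : β v = k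
          · simp [hvk, gen]
          · simp [hvk, gen, hs, Function.update_of_ne]
      · refine ⟨Function.update z k (s v₀ - ml L θ fun a => y k a (hsh b d v₀ a)), y, x, ?_⟩
        rw [cmp_congr F _ s]
        · exact hx
        · intro v hvF
          by_cases hvk : β v = k
          · have hvv : v = v₀ := h1 v (hv v hvF) hvk
            subst hvv
            simp [hvk, gen]
          · simp [hvk, gen, hs, Function.update_of_ne]
  obtain ⟨z, y, x, hx⟩ := key (F.vars.image β)
  refine ⟨z, y, ?_⟩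
  rw [cmp_congr F _ (fun v => if β v ∈ F.vars.image β then gen b d L β θ z y v else x v)]
  · exact hx
  · intro v hvF
    rw [if_pos (Finset.mem_image_of_mem β hvF)]

theorem compQ {L d b m : ℕ} {D : ℕ → ℕ} (hD : Monotone D) {o : Multiset ℕ}
    {F : MvPolynomial ℕ ℚ} (hF : Par o D F) (hv : ∀ v ∈ F.vars, v ∈ o) (hL1 : 1 ≤ L)
    (hL : D m + m * 2 ^ (d - 1) < 2 ^ (L - 1)) (hb : ∀ v ∈ o, v < b ^ d) (β : ℕ → ℕ)
    (hβ : ∀ k, (o.filter fun v => β v = k).card ≤ m ∨ ∃ v, ∀ u ∈ o, β u = k → u = v)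
    (h0 : F ≠ 0) :
    aeval (gen b d L β (fun S => (X (Sum.inl S) : MvPolynomial Sd ℚ))
      (fun k => X (Sum.inr (Sum.inl k))) fun k a h => X (Sum.inr (Sum.inr (k, a, h)))) F ≠ 0 := by
  let K := FractionRing (MvPolynomial ℕ ℚ)
  have hinj : Function.Injective (algebraMap (MvPolynomial ℕ ℚ) K) :=
    IsFractionRing.injective (MvPolynomial ℕ ℚ) K
  let θ : ℕ → K := fun S => algebraMap (MvPolynomial ℕ ℚ) K (X S)
  have hθ : AlgebraicIndependent ℚ fun S : Fin (2 ^ L) => θ S := by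
    have h1 : AlgebraicIndependent ℚ (X : ℕ → MvPolynomial ℕ ℚ) := algebraicIndependent_X ℕ ℚ
    have h2 : AlgebraicIndependent ℚ fun S : Fin (2 ^ L) => (X (S : ℕ) : MvPolynomial ℕ ℚ) :=
      h1.comp (fun S : Fin (2 ^ L) => (S : ℕ)) Fin.val_injective
    exact h2.map' (f := IsScalarTower.toAlgHom ℚ (MvPolynomial ℕ ℚ) K) hinj
  obtain ⟨z, y, hzy⟩ := comp hD hθ hF hv hL1 hL hb β hβ h0
  intro hcon
  apply hzy
  let φ : MvPolynomial Sd ℚ →ₐ[ℚ] K :=
    aeval (Sum.elim θ (Sum.elim z fun p => y p.1 p.2.1 p.2.2))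
  have h1 := congrArg φ hcon
  rw [map_zero] at h1
  rw [← h1]
  rw [comp_aeval_apply]
  apply cmp_congr
  intro v _
  have := gen_map (φ : MvPolynomial Sd ℚ →+* K) b d L β
    (fun S => (X (Sum.inl S) : MvPolynomial Sd ℚ))
    (fun k => X (Sum.inr (Sum.inl k))) (fun k a h => X (Sum.inr (Sum.inr (k, a, h)))) v
  simp only [RingHom.coe_coe] at this
  rw [this]
  simp [φ]

end Pool.Agent.QH
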