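import Pool.Agent.QH.Defs

set_option autoImplicit false

/-!
QH-Cuts. The variables fall into few consecutive blocks which are small or single variables.

Plan. Let `st v = (o.filter (· < v)).card`, `oc v = o.count v`, so `st (v + 1) = st v + oc v`, `st` is monotone and `st v ≤ card o ≤ s`. Let `β v = 2 * (st v / m) + (if st (v + 1) / m > st v / m then 1 else 0)`.
`β` is monotone: for `v < u`: `st u ≥ st (v + 1)`; if `st (v + 1) / m > st v / m` then `st u / m ≥ st v / m + 1`, otherwise `β v = 2 * (st v / m) ≤ β u`. Also `β v ≤ 2 * (s / m) + 1 = kc s m` for all `v`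
(if `st v / m = s / m` then `st (v + 1) / m > s / m` is impossible, so even `β v ≤ 2 * (s / m)`; `≤ kc s m` is enough). Let `t k = ((range n).filter fun v => β v ≤ k).card ≤ n`. By monotonicity, for `v < n`:
`t k ≤ v ↔ k < β v` (the filter is the initial segment `{u | β u ≤ k}`). So the number of the `k < kc s m` with `t k ≤ v` is `β v`.
Block `k`, all its members in `o` are `< n`. `k = 2 * j`: the members are the `v` with `st v / m = j = st (v + 1) / m`; with `v₀` the least and `v₁` the largest member of `o` in the block, the sum of `oc` over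
the block is at most `st (v₁ + 1) - st v₀ < (j + 1) * m - j * m = m` (the multiset `o.filter (β = k)` is `≤ o.filter (v₀ ≤ · < v₁ + 1)`). `k = 2 * j + 1`: `st v / m = j < st (v + 1) / m`: two members `v < u` would give
`st u / m ≥ st (v + 1) / m > j`. (If no member of `o` lies in block `k` the first alternative holds: card `0`.)
-/

namespace Pool.Agent.QH

private def cuSt (o : Multiset ℕ) (v : ℕ) : ℕ := (o.filter fun a => a < v).card

private def cuBe (m : ℕ) (o : Multiset ℕ) (v : ℕ) : ℕ :=
  2 * (cuSt o v / m) + if cuSt o v / m < cuSt o (v + 1) / m then 1 else 0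

private theorem cu_card {o : Multiset ℕ} (p q r : ℕ → Prop) [DecidablePred p] [DecidablePred q]
    [DecidablePred r] (h : ∀ a ∈ o, p a → r a) (h' : ∀ a ∈ o, q a → r a)
    (hd : ∀ a ∈ o, p a → ¬ q a) :
    (o.filter p).card + (o.filter q).card ≤ (o.filter r).card := by
  rw [← Multiset.card_add, Multiset.filter_add_filter]
  have h0 : o.filter (fun a => p a ∧ q a) = 0 := by
    rw [Multiset.filter_eq_nil]
    intro a ha hpq
    exact hd a ha hpq.1 hpq.2
  rw [h0, add_zero]
  refine Multiset.card_le_card ?_
  rw [Multiset.le_filter]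
  refine ⟨Multiset.filter_le _ _, ?_⟩
  intro a ha
  rw [Multiset.mem_filter] at ha
  rcases ha.2 with h1 | h1
  · exact h a ha.1 h1
  · exact h' a ha.1 h1

private theorem cuSt_mono (o : Multiset ℕ) {v u : ℕ} (h : v ≤ u) : cuSt o v ≤ cuSt o u := by
  refine Multiset.card_le_card ?_
  rw [Multiset.le_filter]
  refine ⟨Multiset.filter_le _ _, ?_⟩
  intro a ha
  rw [Multiset.mem_filter] at ha
  exact lt_of_lt_of_le ha.2 h

private theorem cuSt_le (o : Multiset ℕ) (v : ℕ) : cuSt o v ≤ o.card :=
  Multiset.card_le_card (Multiset.filter_le _ _)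

private theorem cuBe_lt {m : ℕ} (o : Multiset ℕ) {v u : ℕ} (h : v < u) :
    2 * (cuSt o v / m) + (if cuSt o v / m < cuSt o (v + 1) / m then 2 else 0) ≤ cuBe m o u := by
  have h1 : cuSt o (v + 1) / m ≤ cuSt o u / m := Nat.div_le_div_right (cuSt_mono o h)
  have h2 : cuSt o v / m ≤ cuSt o (v + 1) / m :=
    Nat.div_le_div_right (cuSt_mono o (Nat.le_succ v))
  unfold cuBe
  split_ifs <;> omega

private theorem cuBe_mono {m : ℕ} (o : Multiset ℕ) {v u : ℕ} (h : v ≤ u) :
    cuBe m o v ≤ cuBe m o u := by
  rcases Nat.lt_or_eq_of_le h with h1 | h1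
  · refine le_trans ?_ (cuBe_lt o h1)
    unfold cuBe
    split_ifs <;> omega
  · rw [h1]

private theorem cuBe_le {m s : ℕ} {o : Multiset ℕ} (ho : o.card ≤ s) (v : ℕ) :
    cuBe m o v ≤ kc s m := by
  have h1 : cuSt o v / m ≤ s / m := Nat.div_le_div_right (le_trans (cuSt_le o v) ho)
  unfold cuBe kc
  split_ifs <;> omega

private theorem cu_iff {m n : ℕ} (o : Multiset ℕ) {v : ℕ} (hv : v < n) (k : ℕ) :
    ((Finset.range n).filter fun u => cuBe m o u ≤ k).card ≤ v ↔ k < cuBe m o v := by
  constructor
  · intro h
    by_contra hk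
    have hk' : cuBe m o v ≤ k := not_lt.1 hk
    have hsub : Finset.range (v + 1) ⊆ (Finset.range n).filter fun u => cuBe m o u ≤ k := by
      intro u hu
      rw [Finset.mem_range] at hu
      rw [Finset.mem_filter, Finset.mem_range]
      exact ⟨by omega, le_trans (cuBe_mono o (Nat.lt_succ_iff.1 hu)) hk'⟩
    have h2 := Finset.card_le_card hsub
    rw [Finset.card_range] at h2
    omega
  · intro h
    have hsub : ((Finset.range n).filter fun u => cuBe m o u ≤ k) ⊆ Finset.range v := by
      intro u hu
      rw [Finset.mem_filter, Finset.mem_range] at hu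
      rw [Finset.mem_range]
      by_contra hc
      have h3 := cuBe_mono (m := m) o (not_lt.1 hc)
      have h4 := hu.2
      omega
    have h2 := Finset.card_le_card hsub
    rw [Finset.card_range] at h2
    exact h2

private theorem cu_count {m n s : ℕ} {o : Multiset ℕ} (ho : o.card ≤ s) {v : ℕ} (hv : v < n) :
    ((Finset.range (kc s m)).filter fun k =>
      ((Finset.range n).filter fun u => cuBe m o u ≤ k).card ≤ v).card = cuBe m o v := by
  have h1 : ((Finset.range (kc s m)).filter fun k =>
      ((Finset.range n).filter fun u => cuBe m o u ≤ k).card ≤ v) =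
        Finset.range (cuBe m o v) := by
    ext k
    rw [Finset.mem_filter, Finset.mem_range, Finset.mem_range, cu_iff o hv k]
    constructor
    · intro h
      exact h.2
    · intro h
      exact ⟨lt_of_lt_of_le h (cuBe_le ho v), h⟩
  rw [h1, Finset.card_range]

private theorem cu_even {m : ℕ} (hm : 0 < m) (o : Multiset ℕ) (i : ℕ) :
    (o.filter fun v => cuBe m o v = 2 * i).card ≤ m := by
  by_cases hne : ∃ v ∈ o, cuBe m o v = 2 * i
  · have hS : (o.toFinset.filter fun v => cuBe m o v = 2 * i).Nonempty := by
      obtain ⟨v, hv, hv2⟩ := hne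
      exact ⟨v, Finset.mem_filter.2 ⟨Multiset.mem_toFinset.2 hv, hv2⟩⟩
    obtain ⟨v0, hv0, hmin⟩ := Finset.exists_min_image _ (fun v => v) hS
    obtain ⟨v1, hv1, hmax⟩ := Finset.exists_max_image _ (fun v => v) hS
    rw [Finset.mem_filter, Multiset.mem_toFinset] at hv0 hv1
    have hcard := cu_card (o := o) (fun a => a < v0) (fun v => cuBe m o v = 2 * i)
      (fun a => a < v1 + 1)
      (by
        intro a ha h
        have h1 := hmin v1 (Finset.mem_filter.2 ⟨Multiset.mem_toFinset.2 hv1.1, hv1.2⟩)
        omega)
      (by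
        intro a ha h
        have h1 := hmax a (Finset.mem_filter.2 ⟨Multiset.mem_toFinset.2 ha, h⟩)
        omega)
      (by
        intro a ha h h2
        have h1 := hmin a (Finset.mem_filter.2 ⟨Multiset.mem_toFinset.2 ha, h2⟩)
        omega)
    have e0 : (o.filter fun a => a < v0).card = cuSt o v0 := rfl
    have e1 : (o.filter fun a => a < v1 + 1).card = cuSt o (v1 + 1) := rfl
    rw [e0, e1] at hcard
    have h0 : cuSt o v0 / m = i := by
      have h := hv0.2
      unfold cuBe at h
      split_ifs at h <;> omega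
    have h1 : cuSt o (v1 + 1) / m ≤ i := by
      have h := hv1.2
      unfold cuBe at h
      split_ifs at h <;> omega
    have h2 : i * m ≤ cuSt o v0 := by
      rw [← h0]
      exact Nat.div_mul_le_self _ _
    have h3 : cuSt o (v1 + 1) < (i + 1) * m := by
      rw [← Nat.div_lt_iff_lt_mul hm]
      omega
    have h4 : (i + 1) * m = i * m + m := by ring
    omega
  · have h0 : (o.filter fun v => cuBe m o v = 2 * i) = 0 := by
      rw [Multiset.filter_eq_nil]
      intro a ha h
      exact hne ⟨a, ha, h⟩
    rw [h0, Multiset.card_zero]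
    exact Nat.zero_le _

private theorem cu_odd {m : ℕ} (o : Multiset ℕ) (i : ℕ) {v u : ℕ} (hv : cuBe m o v = 2 * i + 1)
    (hu : cuBe m o u = 2 * i + 1) : ¬ v < u := by
  intro h
  have h1 := cuBe_lt (m := m) o h
  unfold cuBe at hv
  split_ifs at hv h1 <;> omega

theorem cuts {m n s : ℕ} (hm : 0 < m) {o : Multiset ℕ} (hn : ∀ i ∈ o, i < n) (ho : o.card ≤ s) :
    ∃ t : ℕ → ℕ, (∀ k, t k ≤ n) ∧ ∀ j,
      (o.filter fun v => ((Finset.range (kc s m)).filter fun k => t k ≤ v).card = j).card ≤ m ∨
        ∃ v, ∀ u ∈ o, ((Finset.range (kc s m)).filter fun k => t k ≤ u).card = j → u = v := by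
  refine ⟨fun k => ((Finset.range n).filter fun u => cuBe m o u ≤ k).card, ?_, ?_⟩
  · intro k
    exact le_trans (Finset.card_filter_le _ _) (le_of_eq (Finset.card_range n))
  · intro j
    rcases Nat.even_or_odd' j with ⟨i, hi | hi⟩
    · left
      have h1 : (o.filter fun v => ((Finset.range (kc s m)).filter fun k =>
          ((Finset.range n).filter fun u => cuBe m o u ≤ k).card ≤ v).card = j) =
            o.filter fun v => cuBe m o v = 2 * i := by
        refine Multiset.filter_congr ?_
        intro v hv
        rw [cu_count ho (hn v hv), hi]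
      rw [h1]
      exact cu_even hm o i
    · right
      by_cases hne : ∃ v ∈ o, cuBe m o v = 2 * i + 1
      · obtain ⟨v, hv, hv2⟩ := hne
        refine ⟨v, ?_⟩
        intro u hu hu2
        have hu3 : cuBe m o u = 2 * i + 1 := by
          have h2 := cu_count (m := m) ho (hn u hu)
          rw [← h2, ← hi]
          exact hu2
        have h4 := cu_odd o i hv2 hu3
        have h5 := cu_odd o i hu3 hv2
        omega
      · refine ⟨0, ?_⟩
        intro u hu hu2
        exfalso
        apply hne
        refine ⟨u, hu, ?_⟩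
        have h2 := cu_count (m := m) ho (hn u hu)
        rw [← h2, ← hi]
        exact hu2

end Pool.Agent.QH
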