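import Pool.Agent.QH.Spec

set_option autoImplicit false

/-!
QH-Num. The size of the hitting set.

Plan: let `α = τ / (τ + 1)`, choose `d` with `1 / d < ε / 2`, `d ≥ 1`. For `s ≥ 1` with `m = rt τ s ≤ s ^ (1 / (τ + 1)) + 1 ≤ 2 s ^ (1 / (τ + 1))`, `s / m ≤ s ^ α` (`m > s ^ (1 / (τ + 1))`), `kc ≤ 2 s ^ α + 1 ≤ 3 s ^ α`,
`par ≤ C₁ s ^ α` (`(m + 1) ^ τ ≤ (3 s ^ (1 / (τ + 1))) ^ τ`, `m ≤ 2 s ^ (1 / (τ + 1)) ≤ 2 s ^ α` as `τ ≥ 1`), `2 ^ L ≤ 8 * par ≤ C₂ s ^ α`, `L ≤ C₃ (1 + log s)`, `b ≤ s ^ (1 / d) + 1 ≤ 2 s ^ (1 / d)`, `qb ≤ C₄ s ^ (1 / d) (1 + log s) ^ d`. So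
`len ≤ C₅ s ^ (α + 1 / d) (1 + log s) ^ (d + 1)` and `len * log₂ (s + 1) ≤ C₆ s ^ (α + 1 / d) (1 + log s) ^ (d + 2) ≤ c s ^ (α + ε)`, since `(1 + log s) ^ k ≤ C s ^ (ε / 2)` for `s ≥ 1`
(`1 + log s ≤ (1 + 1 / η) s ^ η` with `η = ε / (2 k)`: `Real.log_le_rpow_div`, `Real.rpow_natCast`, `Real.rpow_mul`). It is convenient to write `σ = s ^ (1 / (τ + 1))` or to bound every quantity `q` by
`C * s ^ e * (1 + log s) ^ j`. `s = 0`: the left side is `1 ^ len = 1`, the right side `2 ^ (c * 0) = 1` (`Real.zero_rpow`). If `par = 0` (`c₀ = 0`, `m = 0`: impossible since `m ≥ 1`, `2 ^ (d - 1) ≥ 1`) nothing.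
Finally `(s + 1) ^ len = 2 ^ (len * Real.logb 2 (s + 1))`.
-/

namespace Pool.Agent.QH

private theorem root_le {a s n : ℕ} (hn : n ≠ 0) (h : a ^ n ≤ s) :
    (a : ℝ) ≤ (s : ℝ) ^ ((n : ℝ)⁻¹) := by
  rw [← Real.pow_rpow_inv_natCast (Nat.cast_nonneg a) hn]
  refine Real.rpow_le_rpow (by positivity) ?_ (by positivity)
  exact_mod_cast h

private theorem root_lt {a s n : ℕ} (hn : n ≠ 0) (h : s < a ^ n) :
    (s : ℝ) ^ ((n : ℝ)⁻¹) < a := by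
  rw [← Real.pow_rpow_inv_natCast (Nat.cast_nonneg a) hn]
  refine Real.rpow_lt_rpow (by positivity) ?_ (by positivity)
  exact_mod_cast h

/-- the bound for `len` with abstract real quantities -/
private theorem len_real {s m b d L c₀ τ : ℕ} {σ β ℓ C₁ C₃ : ℝ} (hτ : 1 ≤ τ)
    (hσ : 1 ≤ σ) (hβ : 1 ≤ β) (hℓ : 1 ≤ ℓ) (hx : (s : ℝ) = σ ^ (τ + 1))
    (hm1 : σ < m) (hm2 : (m : ℝ) ≤ 2 * σ) (hb : (b : ℝ) ≤ 2 * β)
    (hC₁ : C₁ = c₀ * 3 ^ τ + 2 ^ d) (hd : 1 ≤ d)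
    (hL : (2 : ℝ) ^ L ≤ 8 * (par τ c₀ d m : ℕ))
    (hC₃ : C₃ = (Real.log (8 * C₁) + 1) / Real.log 2)
    (hlog : Real.log (σ ^ τ) ≤ ℓ - 1) :
    (len s m b d L : ℝ) ≤ (7 + 8 * C₁ + 4 * C₃ * (2 * d * C₃ ^ d + 1)) *
      (σ ^ τ * β * ℓ ^ (d + 1)) := by
  have hy1 : 1 ≤ σ ^ τ := one_le_pow₀ hσ
  have hσy : σ ≤ σ ^ τ := le_self_pow₀ hσ (by omega)
  set y : ℝ := σ ^ τ with hy
  have hm0 : (0 : ℝ) < m := by linarith
  have hpow1 : (1 : ℝ) ≤ (2 : ℝ) ^ d := one_le_pow₀ (by norm_num)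
  have hC₁1 : 1 ≤ C₁ := by
    rw [hC₁]
    have h1 : (0 : ℝ) ≤ c₀ * 3 ^ τ := by positivity
    linarith
  -- kc
  have hdiv : ((s / m : ℕ) : ℝ) ≤ y := by
    refine (Nat.cast_div_le).trans ?_
    rw [div_le_iff₀ hm0, hx, pow_succ]
    exact mul_le_mul_of_nonneg_left hm1.le (by positivity)
  have hkc : (kc s m : ℝ) ≤ 3 * y := by
    unfold kc
    push_cast
    linarith
  have hkc0 : (0 : ℝ) ≤ (kc s m : ℝ) := Nat.cast_nonneg _
  -- par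
  have hpar : ((par τ c₀ d m : ℕ) : ℝ) ≤ C₁ * y := by
    unfold par
    push_cast
    have h1 : ((m : ℝ) + 1) ^ τ ≤ (3 * σ) ^ τ := pow_le_pow_left₀ (by positivity) (by linarith) τ
    rw [mul_pow] at h1
    have h2 : (c₀ : ℝ) * ((m : ℝ) + 1) ^ τ ≤ c₀ * (3 ^ τ * y) :=
      mul_le_mul_of_nonneg_left h1 (by positivity)
    have h3 : (m : ℝ) * 2 ^ (d - 1) ≤ 2 * y * 2 ^ (d - 1) :=
      mul_le_mul_of_nonneg_right (by linarith) (by positivity)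
    have h4 : (2 : ℝ) * 2 ^ (d - 1) = 2 ^ d := by
      rw [← pow_succ']
      congr 1
      omega
    rw [hC₁, add_mul, ← h4]
    nlinarith [h2, h3]
  have hL2 : (2 : ℝ) ^ L ≤ 8 * C₁ * y := by
    refine hL.trans ?_
    linarith
  -- L
  have hlog2 : 0 < Real.log 2 := Real.log_pos (by norm_num)
  have hlogC : 0 ≤ Real.log (8 * C₁) := Real.log_nonneg (by linarith)
  have hC₃0 : 0 ≤ C₃ := by
    rw [hC₃]
    positivity
  have hLℓ : (L : ℝ) ≤ C₃ * ℓ := by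
    have h1 : (L : ℝ) * Real.log 2 ≤ Real.log (8 * C₁) + Real.log y := by
      rw [← Real.log_pow, ← Real.log_mul (by linarith) (by linarith)]
      exact Real.log_le_log (by positivity) hL2
    rw [hC₃, div_mul_eq_mul_div, le_div_iff₀ hlog2]
    refine h1.trans ?_
    have h2 : Real.log (8 * C₁) ≤ Real.log (8 * C₁) * ℓ := le_mul_of_one_le_right hlogC hℓ
    linarith
  have hL0 : (0 : ℝ) ≤ L := Nat.cast_nonneg _
  -- qb
  have hqb : (qb b d L : ℝ) ≤ (2 * d * C₃ ^ d + 1) * (β * ℓ ^ d) := by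
    unfold qb
    push_cast
    have h1 : (L : ℝ) ^ d ≤ C₃ ^ d * ℓ ^ d := by
      rw [← mul_pow]
      exact pow_le_pow_left₀ hL0 hLℓ d
    have h2 : (d : ℝ) * b * L ^ d ≤ d * (2 * β) * (C₃ ^ d * ℓ ^ d) := by
      refine mul_le_mul ?_ h1 (by positivity) (by positivity)
      exact mul_le_mul_of_nonneg_left hb (by positivity)
    have h3 : 1 ≤ β * ℓ ^ d := one_le_mul_of_one_le_of_one_le hβ (one_le_pow₀ hℓ)
    calc (d : ℝ) * b * L ^ d + 1 ≤ d * (2 * β) * (C₃ ^ d * ℓ ^ d) + β * ℓ ^ d := add_le_add h2 h3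
      _ = (2 * d * C₃ ^ d + 1) * (β * ℓ ^ d) := by ring
  have hqb0 : (0 : ℝ) ≤ (qb b d L : ℝ) := Nat.cast_nonneg _
  -- len
  set C₄ : ℝ := 2 * d * C₃ ^ d + 1 with hC₄
  have hC₄0 : 0 ≤ C₄ := by positivity
  have hβℓ : 1 ≤ β * ℓ ^ (d + 1) := one_le_mul_of_one_le_of_one_le hβ (one_le_pow₀ hℓ)
  have h5 : (((kc s m + 1) * L * qb b d L : ℕ) : ℝ) ≤ 4 * C₃ * C₄ * (y * β * ℓ ^ (d + 1)) := by
    push_cast
    have h6 : ((kc s m : ℝ) + 1) ≤ 4 * y := by linarith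
    have h7 : ((kc s m : ℝ) + 1) * L ≤ 4 * y * (C₃ * ℓ) :=
      mul_le_mul h6 hLℓ hL0 (by positivity)
    have h8 : ((kc s m : ℝ) + 1) * L * qb b d L ≤ 4 * y * (C₃ * ℓ) * (C₄ * (β * ℓ ^ d)) :=
      mul_le_mul h7 hqb hqb0 (by positivity)
    refine h8.trans (le_of_eq ?_)
    rw [pow_succ]
    ring
  have h9 : y ≤ y * β * ℓ ^ (d + 1) := by
    rw [mul_assoc]
    exact le_mul_of_one_le_right (by linarith) hβℓ
  have h10 : (len s m b d L : ℝ) = 2 * (kc s m : ℝ) + 1 + 2 ^ L +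
      (((kc s m + 1) * L * qb b d L : ℕ) : ℝ) := by
    unfold len
    push_cast
    ring
  rw [h10]
  have h11 : 2 * (kc s m : ℝ) + 1 + 2 ^ L ≤ (7 + 8 * C₁) * y := by
    linarith
  have h12 : (7 + 8 * C₁) * y ≤ (7 + 8 * C₁) * (y * β * ℓ ^ (d + 1)) :=
    mul_le_mul_of_nonneg_left h9 (by linarith)
  calc 2 * (kc s m : ℝ) + 1 + 2 ^ L + (((kc s m + 1) * L * qb b d L : ℕ) : ℝ)
      ≤ (7 + 8 * C₁) * (y * β * ℓ ^ (d + 1)) + 4 * C₃ * C₄ * (y * β * ℓ ^ (d + 1)) :=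
        add_le_add (h11.trans h12) h5
    _ = (7 + 8 * C₁ + 4 * C₃ * C₄) * (y * β * ℓ ^ (d + 1)) := by ring

theorem num {τ : ℕ} (hτ : 1 ≤ τ) (c₀ : ℕ) {ε : ℝ} (hε : 0 < ε) : ∃ d c : ℕ, 1 ≤ d ∧ ∀ s : ℕ,
    ((s : ℝ) + 1) ^ len s (rt τ s) (rtc d s) d (lv τ c₀ d (rt τ s)) ≤
      (2 : ℝ) ^ ((c : ℝ) * (s : ℝ) ^ ((τ : ℝ) / (τ + 1) + ε)) := by
  obtain ⟨d, hd⟩ := exists_nat_gt (2 / ε)
  have hd1 : (0 : ℝ) < d := lt_trans (by positivity) hd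
  have hd0 : 1 ≤ d := by exact_mod_cast hd1
  have hdε : ((d : ℝ))⁻¹ ≤ ε / 2 := by
    rw [div_lt_iff₀ hε] at hd
    rw [inv_le_iff_one_le_mul₀ hd1]
    nlinarith
  set C₁ : ℝ := c₀ * 3 ^ τ + 2 ^ d with hC₁
  set C₃ : ℝ := (Real.log (8 * C₁) + 1) / Real.log 2 with hC₃
  set C₅ : ℝ := 7 + 8 * C₁ + 4 * C₃ * (2 * d * C₃ ^ d + 1) with hC₅
  set η : ℝ := ε / (2 * (d + 2)) with hη
  have hη0 : 0 < η := by positivity
  set C₆ : ℝ := (1 + 1 / η) ^ (d + 2) with hC₆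
  have hpow1 : (1 : ℝ) ≤ (2 : ℝ) ^ d := one_le_pow₀ (by norm_num)
  have hC₁1 : 1 ≤ C₁ := by
    have h1 : (0 : ℝ) ≤ c₀ * 3 ^ τ := by positivity
    linarith
  have hlog2 : 0 < Real.log 2 := Real.log_pos (by norm_num)
  have hlogC : 0 ≤ Real.log (8 * C₁) := Real.log_nonneg (by linarith)
  have hC₃0 : 0 ≤ C₃ := by positivity
  have hC₅0 : 0 ≤ C₅ := by positivity
  have hC₆0 : 0 ≤ C₆ := by positivity
  refine ⟨d, ⌈2 * C₅ * C₆⌉₊, hd0, fun s => ?_⟩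
  have hexp : (0 : ℝ) < (τ : ℝ) / (τ + 1) + ε := by positivity
  rcases Nat.eq_zero_or_pos s with rfl | hs
  · rw [Nat.cast_zero, zero_add, one_pow, Real.zero_rpow hexp.ne', mul_zero, Real.rpow_zero]
  have hx1 : (1 : ℝ) ≤ (s : ℝ) := by exact_mod_cast hs
  have hx0 : (0 : ℝ) < (s : ℝ) := by linarith
  obtain ⟨hr1, hr2, hr3⟩ := rt_spec τ s
  have hrtc := (rtc_spec hd0 s).2
  obtain ⟨-, -, hlv⟩ := lv_spec τ c₀ d (rt τ s)
  set m := rt τ s with hm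
  set b := rtc d s with hb
  set L := lv τ c₀ d m with hL
  set σ : ℝ := (s : ℝ) ^ (((τ + 1 : ℕ) : ℝ)⁻¹) with hσ
  set β : ℝ := (s : ℝ) ^ ((d : ℝ)⁻¹) with hβ
  set ℓ : ℝ := 1 + Real.log s with hℓ
  have hσ1 : 1 ≤ σ := Real.one_le_rpow hx1 (by positivity)
  have hβ1 : 1 ≤ β := Real.one_le_rpow hx1 (by positivity)
  have hlogs : 0 ≤ Real.log s := Real.log_nonneg hx1
  have hℓ1 : 1 ≤ ℓ := by linarith
  have hxσ : (s : ℝ) = σ ^ (τ + 1) :=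
    (Real.rpow_inv_natCast_pow hx0.le (Nat.succ_ne_zero τ)).symm
  have hm1 : σ < m := root_lt (Nat.succ_ne_zero τ) hr1
  have hm2 : (m : ℝ) ≤ 2 * σ := by
    have h1 := root_le (Nat.succ_ne_zero τ) hr2
    rw [Nat.cast_sub hr3] at h1
    push_cast at h1
    have h2 : σ = (s : ℝ) ^ (((τ : ℝ) + 1)⁻¹) := by
      rw [hσ]
      push_cast
      rfl
    rw [← h2] at h1
    linarith
  have hb2 : (b : ℝ) ≤ 2 * β := by
    rcases hrtc with h | h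
    · rw [h, Nat.cast_zero]
      linarith
    · have h1 := root_le (by omega : d ≠ 0) h.le
      rcases Nat.eq_zero_or_pos b with h0 | h0
      · rw [h0, Nat.cast_zero]
        linarith
      · rw [Nat.cast_sub h0] at h1
        push_cast at h1
        linarith
  have hpar0 : 0 < par τ c₀ d m := by
    unfold par
    have h1 : 0 < m * 2 ^ (d - 1) := Nat.mul_pos hr3 (by positivity)
    omega
  have hL8 : (2 : ℝ) ^ L ≤ 8 * (par τ c₀ d m : ℕ) := by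
    have h1 := hlv hpar0
    exact_mod_cast h1
  have hyα : σ ^ τ = (s : ℝ) ^ ((τ : ℝ) / (τ + 1)) := by
    rw [hσ, ← Real.rpow_natCast, ← Real.rpow_mul hx0.le]
    congr 1
    push_cast
    rw [mul_comm, div_eq_mul_inv]
  have hlog : Real.log (σ ^ τ) ≤ ℓ - 1 := by
    rw [hyα, Real.log_rpow hx0, hℓ, add_sub_cancel_left]
    have h1 : (τ : ℝ) / (τ + 1) ≤ 1 := by
      rw [div_le_one (by positivity)]
      linarith
    exact mul_le_of_le_one_left hlogs h1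
  have hlen := len_real (s := s) (m := m) (b := b) (d := d) (L := L) (c₀ := c₀) hτ hσ1 hβ1 hℓ1
    hxσ hm1 hm2 hb2 hC₁ hd0 hL8 hC₃ hlog
  -- powers of the logarithm
  have hℓη : ℓ ≤ (1 + 1 / η) * (s : ℝ) ^ η := by
    have h1 := Real.log_le_rpow_div hx0.le hη0
    have h2 : (1 : ℝ) ≤ (s : ℝ) ^ η := Real.one_le_rpow hx1 hη0.le
    have h3 : (s : ℝ) ^ η / η = 1 / η * (s : ℝ) ^ η := by ring
    rw [hℓ, add_mul, ← h3, one_mul]
    exact add_le_add h2 h1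
  have hℓpow : ℓ ^ (d + 2) ≤ C₆ * (s : ℝ) ^ (ε / 2) := by
    have h1 : ℓ ^ (d + 2) ≤ ((1 + 1 / η) * (s : ℝ) ^ η) ^ (d + 2) :=
      pow_le_pow_left₀ (by linarith) hℓη _
    refine h1.trans (le_of_eq ?_)
    rw [mul_pow, hC₆]
    congr 1
    rw [← Real.rpow_natCast, ← Real.rpow_mul hx0.le]
    congr 1
    rw [hη]
    push_cast
    field_simp
  have hβε : β ≤ (s : ℝ) ^ (ε / 2) := Real.rpow_le_rpow_of_exponent_le hx1 hdε
  -- the logarithm of `s + 1`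
  have hlb : Real.logb 2 ((s : ℝ) + 1) ≤ 2 * ℓ := by
    have h1 : Real.log ((s : ℝ) + 1) ≤ ℓ := by
      have h2 : Real.log ((s : ℝ) + 1) ≤ Real.log (2 * s) :=
        Real.log_le_log (by linarith) (by linarith)
      rw [Real.log_mul (by norm_num) (by linarith)] at h2
      have h3 : Real.log 2 ≤ 1 := by
        have := Real.log_two_lt_d9
        linarith
      linarith
    have h2 : (1 : ℝ) / 2 ≤ Real.log 2 := by
      have := Real.log_two_gt_d9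
      linarith
    unfold Real.logb
    rw [div_le_iff₀ hlog2]
    nlinarith
  have hlb0 : 0 ≤ Real.logb 2 ((s : ℝ) + 1) := Real.logb_nonneg (by norm_num) (by linarith)
  set N := len s m b d L with hN
  have hgoal : (N : ℝ) * Real.logb 2 ((s : ℝ) + 1) ≤
      (⌈2 * C₅ * C₆⌉₊ : ℝ) * (s : ℝ) ^ ((τ : ℝ) / (τ + 1) + ε) := by
    have h1 : (N : ℝ) * Real.logb 2 ((s : ℝ) + 1) ≤
        C₅ * (σ ^ τ * β * ℓ ^ (d + 1)) * (2 * ℓ) :=
      mul_le_mul hlen hlb hlb0 (by positivity)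
    have h2 : C₅ * (σ ^ τ * β * ℓ ^ (d + 1)) * (2 * ℓ) =
        2 * C₅ * (σ ^ τ * (β * ℓ ^ (d + 2))) := by
      rw [pow_succ ℓ (d + 1)]
      ring
    have h3 : β * ℓ ^ (d + 2) ≤ (s : ℝ) ^ (ε / 2) * (C₆ * (s : ℝ) ^ (ε / 2)) :=
      mul_le_mul hβε hℓpow (by positivity) (by positivity)
    have h4 : (s : ℝ) ^ (ε / 2) * (C₆ * (s : ℝ) ^ (ε / 2)) = C₆ * (s : ℝ) ^ ε := by
      rw [mul_left_comm, ← Real.rpow_add hx0, add_halves]
    have h5 : σ ^ τ * (C₆ * (s : ℝ) ^ ε) = C₆ * (s : ℝ) ^ ((τ : ℝ) / (τ + 1) + ε) := by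
      rw [hyα, Real.rpow_add hx0]
      ring
    calc (N : ℝ) * Real.logb 2 ((s : ℝ) + 1) ≤ 2 * C₅ * (σ ^ τ * (β * ℓ ^ (d + 2))) := by
          rw [← h2]
          exact h1
      _ ≤ 2 * C₅ * (σ ^ τ * (C₆ * (s : ℝ) ^ ε)) := by
          refine mul_le_mul_of_nonneg_left ?_ (by positivity)
          refine mul_le_mul_of_nonneg_left ?_ (by positivity)
          rw [← h4]
          exact h3
      _ = 2 * C₅ * C₆ * (s : ℝ) ^ ((τ : ℝ) / (τ + 1) + ε) := by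
          rw [h5]
          ring
      _ ≤ _ := mul_le_mul_of_nonneg_right (Nat.le_ceil _) (by positivity)
  calc ((s : ℝ) + 1) ^ N = ((2 : ℝ) ^ (Real.logb 2 ((s : ℝ) + 1))) ^ N := by
        rw [Real.rpow_logb (by norm_num) (by norm_num) (by linarith)]
    _ = (2 : ℝ) ^ ((N : ℝ) * Real.logb 2 ((s : ℝ) + 1)) := by
        rw [← Real.rpow_natCast, ← Real.rpow_mul (by norm_num), mul_comm]
    _ ≤ _ := Real.rpow_le_rpow_of_exponent_le (by norm_num) hgoal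

end Pool.Agent.QH
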