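import Pool.Agent.QH.Defs

set_option autoImplicit false

/-!
QH-TreeP. Trees of bilinear gates: variables, degree, and the number of the parameters.

Plan for `Tree.par`: fix `K A σ B ρ` and prove by induction on the tree, with `m = (o.filter B).card` and `S j = aeval σ (f j)`: either (`m = 0` and there is `β : Fin w → K` with `S j = algebraMap (β j)`), or
(`1 ≤ m` and there are `T : Finset K`, `T.card ≤ 2 * (w ^ 2 + w) * (m - 1)`, `Ψ : Fin w → A`, `α : Fin w → Fin w → K`, `β : Fin w → K` with `S j = ∑ p, algebraMap (α j p) * Ψ p + algebraMap (β j)`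
and `Ψ p ∈ 𝓢` for every `𝓢` as in `Par` for `T`). `const`: first case. `var i`: if `B i`: `m = 1`, `T = ∅`, `Ψ p = σ i`?? take `Ψ p = C-multiples`: `S j = algebraMap (c j) * σ i`; choose `Ψ j = c j • σ i` (rational multiple, in `𝓢`),
`α = 1`, `β = 0`; if `¬ B i`: `m = 0`, `β j = c j * ρ i`. `lin A`: compose the affine map with the rational linear map. `add`/`mul`: if both `m₁, m₂ = 0`: constants; if exactly one is `0`: the result is a new affine map of
the same `Ψ` (same `T`); if both `≥ 1`: `m = m₁ + m₂`, new `Ψ j := S j`, `α = 1`, `β = 0`, `T = T₁ ∪ T₂ ∪ {α₁ j p} ∪ {β₁ j} ∪ {α₂ j p} ∪ {β₂ j}` (images of `univ`), card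
`≤ 2 (w² + w)(m₁ - 1) + 2 (w² + w)(m₂ - 1) + 2 (w² + w) = 2 (w² + w)(m - 1)`; `S j ∈ 𝓢` as `𝓢` is a subalgebra over `ℚ` (rational constants: `algebraMap ℚ A q ∈ 𝓢`; `algebraMap ℚ A = (algebraMap K A) (algebraMap ℚ K ..)`).
(`Multiset.filter_add`, `Multiset.card_add`, `aeval_C`, `map_sum`.) Finally `T ∪ {α j p} ∪ {β j}` (second case) or `{β j}` (first case) proves `Par`.
-/

namespace Pool.Agent.QH

open MvPolynomial

theorem Tree.vars {w : ℕ} {o : Multiset ℕ} {f : Fin w → MvPolynomial ℕ ℚ} (h : Tree w o f)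
    (j : Fin w) : ∀ v ∈ (f j).vars, v ∈ o := by
  classical
  induction h generalizing j with
  | const c =>
    intro v hv
    simp at hv
  | var i c =>
    intro v hv
    have h1 := MvPolynomial.vars_mul _ _ hv
    rw [MvPolynomial.vars_C, Finset.empty_union, MvPolynomial.vars_X, Finset.mem_singleton] at h1
    rw [h1]
    exact Multiset.mem_singleton_self i
  | lin A hf ih =>
    intro v hv
    have h1 := MvPolynomial.vars_sum_subset _ _ hv
    rw [Finset.mem_biUnion] at h1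
    obtain ⟨p, -, hp⟩ := h1
    have h2 := MvPolynomial.vars_mul _ _ hp
    rw [MvPolynomial.vars_C, Finset.empty_union] at h2
    exact ih p v h2
  | add hf hg ih1 ih2 =>
    intro v hv
    have h1 := MvPolynomial.vars_add_subset _ _ hv
    rw [Finset.mem_union] at h1
    rw [Multiset.mem_add]
    exact h1.imp (ih1 j v) (ih2 j v)
  | mul B hf hg ih1 ih2 =>
    intro v hv
    have h1 := MvPolynomial.vars_sum_subset _ _ hv
    rw [Finset.mem_biUnion] at h1
    obtain ⟨p, -, hp⟩ := h1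
    have h2 := MvPolynomial.vars_sum_subset _ _ hp
    rw [Finset.mem_biUnion] at h2
    obtain ⟨q, -, hq⟩ := h2
    have h3 := MvPolynomial.vars_mul _ _ hq
    rw [MvPolynomial.vars_C, Finset.empty_union] at h3
    have h4 := MvPolynomial.vars_mul _ _ h3
    rw [Finset.mem_union] at h4
    rw [Multiset.mem_add]
    exact h4.imp (ih1 p v) (ih2 q v)

theorem Tree.deg {w : ℕ} {o : Multiset ℕ} {f : Fin w → MvPolynomial ℕ ℚ} (h : Tree w o f)
    (j : Fin w) : (f j).totalDegree ≤ o.card := by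
  induction h generalizing j with
  | const c =>
    simp
  | var i c =>
    refine (MvPolynomial.totalDegree_mul _ _).trans ?_
    rw [MvPolynomial.totalDegree_C, MvPolynomial.totalDegree_X, Multiset.card_singleton]
  | lin A hf ih =>
    refine MvPolynomial.totalDegree_finsetSum_le fun p _ => ?_
    refine (MvPolynomial.totalDegree_mul _ _).trans ?_
    rw [MvPolynomial.totalDegree_C, zero_add]
    exact ih p
  | add hf hg ih1 ih2 =>
    refine (MvPolynomial.totalDegree_add _ _).trans ?_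
    rw [Multiset.card_add]
    have h1 := ih1 j
    have h2 := ih2 j
    exact max_le (by omega) (by omega)
  | mul B hf hg ih1 ih2 =>
    refine MvPolynomial.totalDegree_finsetSum_le fun p _ => ?_
    refine MvPolynomial.totalDegree_finsetSum_le fun q _ => ?_
    refine (MvPolynomial.totalDegree_mul _ _).trans ?_
    rw [MvPolynomial.totalDegree_C, zero_add]
    refine (MvPolynomial.totalDegree_mul _ _).trans ?_
    rw [Multiset.card_add]
    exact Nat.add_le_add (ih1 p) (ih2 q)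

section

variable {K A : Type} [Field K] [Algebra ℚ K] [CommRing A] [Algebra K A] [Algebra ℚ A]
  [IsScalarTower ℚ K A]

/-- affine combinations of `Ψ` -/
private def US (K : Type) {A : Type} [Field K] [CommRing A] [Algebra K A] {w : ℕ}
    (Ψ : Fin w → A) : Submodule K A := Submodule.span K (insert 1 (Set.range Ψ))

private def St (K : Type) {A : Type} [Field K] [CommRing A] [Algebra K A] [Algebra ℚ A]
    (σ : ℕ → A) (B : ℕ → Prop) [DecidablePred B] {w : ℕ} (o : Multiset ℕ) (S : Fin w → A) :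
    Prop :=
  ((o.filter B).card = 0 ∧ ∀ j, ∃ β : K, algebraMap K A β = S j) ∨
  (1 ≤ (o.filter B).card ∧ ∃ (T : Finset K) (Ψ : Fin w → A),
    T.card ≤ 2 * (w ^ 2 + w) * ((o.filter B).card - 1) ∧ (∀ j, S j ∈ US K Ψ) ∧
      ∀ 𝓢 : Subalgebra ℚ A, (∀ c ∈ T, algebraMap K A c ∈ 𝓢) → (∀ v ∈ o, B v → σ v ∈ 𝓢) →
        ∀ p, Ψ p ∈ 𝓢)

omit [Algebra ℚ K] [IsScalarTower ℚ K A] in
private theorem one_US {w : ℕ} (Ψ : Fin w → A) : (1 : A) ∈ US K Ψ :=
  Submodule.subset_span (Set.mem_insert _ _)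

omit [Algebra ℚ K] [IsScalarTower ℚ K A] in
private theorem self_US {w : ℕ} (Ψ : Fin w → A) (j : Fin w) : Ψ j ∈ US K Ψ :=
  Submodule.subset_span (Set.mem_insert_of_mem _ (Set.mem_range_self j))

omit [Algebra ℚ K] [IsScalarTower ℚ K A] in
private theorem ext_US {w : ℕ} (Ψ S : Fin w → A) (h : ∀ j, S j ∈ US K Ψ) :
    ∃ T : Finset K, T.card ≤ w ^ 2 + w ∧ ∀ 𝓢 : Subalgebra ℚ A,
      (∀ c ∈ T, algebraMap K A c ∈ 𝓢) → (∀ p, Ψ p ∈ 𝓢) → ∀ j, S j ∈ 𝓢 := by
  classical
  have h1 : ∀ j, ∃ (b : K) (a : Fin w → K), S j = b • (1 : A) + ∑ i, a i • Ψ i := by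
    intro j
    obtain ⟨b, z, hz, he⟩ := Submodule.mem_span_insert.mp (h j)
    obtain ⟨a, ha⟩ := (Submodule.mem_span_range_iff_exists_fun K).mp hz
    exact ⟨b, a, by rw [he, ha]⟩
  choose b a hab using h1
  refine ⟨Finset.univ.image (fun p : Fin w × Fin w => a p.1 p.2) ∪ Finset.univ.image b, ?_, ?_⟩
  · refine (Finset.card_union_le _ _).trans (Nat.add_le_add ?_ ?_)
    · refine Finset.card_image_le.trans ?_
      rw [Finset.card_univ, Fintype.card_prod, Fintype.card_fin, sq]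
    · refine Finset.card_image_le.trans ?_
      rw [Finset.card_univ, Fintype.card_fin]
  · intro 𝓢 hT hΨ j
    rw [hab j]
    refine add_mem ?_ (sum_mem fun i _ => ?_)
    · rw [Algebra.smul_def]
      exact mul_mem (hT _ (Finset.mem_union_right _ (Finset.mem_image_of_mem _
        (Finset.mem_univ j)))) (one_mem _)
    · rw [Algebra.smul_def]
      exact mul_mem (hT _ (Finset.mem_union_left _ (Finset.mem_image.mpr
        ⟨(j, i), Finset.mem_univ _, rfl⟩))) (hΨ i)

private theorem bin {σ : ℕ → A} {B : ℕ → Prop} [DecidablePred B] {w : ℕ} {o o' : Multiset ℕ}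
    {S S' R : Fin w → A} (hS : St K σ B o S) (hS' : St K σ B o' S')
    (h1 : ∀ U : Submodule K A, 1 ∈ U → (∀ j, ∃ β : K, algebraMap K A β = S j) →
      (∀ j, S' j ∈ U) → ∀ j, R j ∈ U)
    (h2 : ∀ U : Submodule K A, 1 ∈ U → (∀ j, ∃ β : K, algebraMap K A β = S' j) →
      (∀ j, S j ∈ U) → ∀ j, R j ∈ U)
    (h3 : ∀ 𝓢 : Subalgebra ℚ A, (∀ j, S j ∈ 𝓢) → (∀ j, S' j ∈ 𝓢) → ∀ j, R j ∈ 𝓢) :
    St K σ B (o + o') R := by
  classical
  unfold St
  rw [Multiset.filter_add, Multiset.card_add]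
  rcases hS with ⟨hm, hc⟩ | ⟨hm, T, Ψ, hT, hU, hP⟩ <;>
    rcases hS' with ⟨hm', hc'⟩ | ⟨hm', T', Ψ', hT', hU', hP'⟩
  · left
    refine ⟨by omega, fun j => ?_⟩
    have := h1 (1 : Submodule K A) (Submodule.mem_one.mpr ⟨1, map_one _⟩) hc
      (fun j => Submodule.mem_one.mpr (hc' j)) j
    exact Submodule.mem_one.mp this
  · right
    rw [hm, zero_add]
    refine ⟨hm', T', Ψ', hT', h1 _ (one_US Ψ') hc hU', ?_⟩
    intro 𝓢 hc1 hv
    exact hP' 𝓢 hc1 fun v hv1 => hv v (Multiset.mem_add.mpr (Or.inr hv1))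
  · right
    rw [hm', add_zero]
    refine ⟨hm, T, Ψ, hT, h2 _ (one_US Ψ) hc' hU, ?_⟩
    intro 𝓢 hc1 hv
    exact hP 𝓢 hc1 fun v hv1 => hv v (Multiset.mem_add.mpr (Or.inl hv1))
  · right
    obtain ⟨E, hE, hE1⟩ := ext_US Ψ S hU
    obtain ⟨E', hE', hE1'⟩ := ext_US Ψ' S' hU'
    refine ⟨by omega, (T ∪ T') ∪ (E ∪ E'), R, ?_, self_US R, ?_⟩
    · refine (Finset.card_union_le _ _).trans ?_
      have e1 := Finset.card_union_le T T'
      have e2 := Finset.card_union_le E E'
      obtain ⟨m, hm1⟩ : ∃ m, (Multiset.filter B o).card = m + 1 := ⟨_, (Nat.sub_add_cancel hm).symm⟩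
      obtain ⟨m', hm1'⟩ : ∃ m', (Multiset.filter B o').card = m' + 1 :=
        ⟨_, (Nat.sub_add_cancel hm').symm⟩
      rw [hm1, Nat.add_sub_cancel] at hT
      rw [hm1', Nat.add_sub_cancel] at hT'
      rw [hm1, hm1']
      have e3 : m + 1 + (m' + 1) - 1 = m + m' + 1 := by omega
      rw [e3]
      have e4 : 2 * (w ^ 2 + w) * (m + m' + 1) =
          2 * (w ^ 2 + w) * m + 2 * (w ^ 2 + w) * m' + 2 * (w ^ 2 + w) := by ring
      rw [e4]
      omega
    · intro 𝓢 hc1 hv
      refine h3 𝓢 ?_ ?_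
      · refine hE1 𝓢 (fun c hc => hc1 c ?_) (hP 𝓢 (fun c hc => hc1 c ?_)
          fun v hv1 => hv v (Multiset.mem_add.mpr (Or.inl hv1)))
        · exact Finset.mem_union_right _ (Finset.mem_union_left _ hc)
        · exact Finset.mem_union_left _ (Finset.mem_union_left _ hc)
      · refine hE1' 𝓢 (fun c hc => hc1 c ?_) (hP' 𝓢 (fun c hc => hc1 c ?_)
          fun v hv1 => hv v (Multiset.mem_add.mpr (Or.inr hv1)))
        · exact Finset.mem_union_right _ (Finset.mem_union_right _ hc)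
        · exact Finset.mem_union_left _ (Finset.mem_union_right _ hc)

private theorem rat_mul (U : Submodule K A) (c : ℚ) {a : A} (ha : a ∈ U) :
    algebraMap ℚ A c * a ∈ U := by
  rw [IsScalarTower.algebraMap_apply ℚ K A, ← Algebra.smul_def]
  exact U.smul_mem _ ha

private theorem main {w : ℕ} {o : Multiset ℕ} {f : Fin w → MvPolynomial ℕ ℚ} (h : Tree w o f)
    (σ : ℕ → A) (B : ℕ → Prop) [DecidablePred B] (ρ : ℕ → K)
    (hσ : ∀ v, ¬ B v → σ v = algebraMap K A (ρ v)) :
    St K σ B o (fun j => aeval σ (f j)) := by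
  classical
  induction h with
  | const c =>
    left
    refine ⟨by simp, fun j => ⟨algebraMap ℚ K (c j), ?_⟩⟩
    show _ = aeval σ (C (c j))
    rw [MvPolynomial.aeval_C, ← IsScalarTower.algebraMap_apply]
  | var i c =>
    by_cases hB : B i
    · right
      have hcard : (Multiset.filter B {i}).card = 1 := by
        rw [Multiset.filter_singleton, if_pos hB, Multiset.card_singleton]
      refine ⟨hcard.ge, ∅, fun j => aeval σ (C (c j) * X i), by simp, fun j => self_US _ j, ?_⟩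
      intro 𝓢 _ hv p
      simp only [map_mul, MvPolynomial.aeval_C, MvPolynomial.aeval_X]
      exact mul_mem (𝓢.algebraMap_mem _) (hv i (Multiset.mem_singleton_self i) hB)
    · left
      refine ⟨?_, fun j => ⟨algebraMap ℚ K (c j) * ρ i, ?_⟩⟩
      · rw [Multiset.filter_singleton, if_neg hB]
        rfl
      · show _ = aeval σ (C (c j) * X i)
        rw [map_mul, map_mul, MvPolynomial.aeval_C, MvPolynomial.aeval_X, hσ i hB,
          ← IsScalarTower.algebraMap_apply]
  | @lin o f M hf ih =>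
    have e1 : ∀ j, aeval σ (∑ p, C (M j p) * f p) =
        ∑ p, algebraMap ℚ A (M j p) * aeval σ (f p) := by
      intro j
      rw [map_sum]
      refine Finset.sum_congr rfl fun p _ => ?_
      rw [map_mul, MvPolynomial.aeval_C]
    have hgen : ∀ U : Submodule K A, (∀ j, aeval σ (f j) ∈ U) →
        ∀ j, aeval σ (∑ p, C (M j p) * f p) ∈ U := by
      intro U hU j
      rw [e1]
      exact sum_mem fun p _ => rat_mul U _ (hU p)
    rcases ih with ⟨hm, hc⟩ | ⟨hm, T, Ψ, hT, hU, hP⟩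
    · left
      refine ⟨hm, fun j => ?_⟩
      exact Submodule.mem_one.mp (hgen 1 (fun j => Submodule.mem_one.mpr (hc j)) j)
    · right
      exact ⟨hm, T, Ψ, hT, hgen _ hU, hP⟩
  | @add o o' f g hf hg ih1 ih2 =>
    refine bin ih1 ih2 ?_ ?_ ?_
    · intro U hU1 hc hU j
      rw [map_add]
      refine add_mem ?_ (hU j)
      obtain ⟨β, hβ⟩ := hc j
      rw [← hβ, Algebra.algebraMap_eq_smul_one]
      exact U.smul_mem _ hU1
    · intro U hU1 hc hU j
      rw [map_add]
      refine add_mem (hU j) ?_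
      obtain ⟨β, hβ⟩ := hc j
      rw [← hβ, Algebra.algebraMap_eq_smul_one]
      exact U.smul_mem _ hU1
    · intro 𝓢 h1 h2 j
      rw [map_add]
      exact add_mem (h1 j) (h2 j)
  | @mul o o' f g M hf hg ih1 ih2 =>
    have e1 : ∀ j, aeval σ (∑ p, ∑ q, C (M j p q) * (f p * g q)) =
        ∑ p, ∑ q, algebraMap ℚ A (M j p q) * (aeval σ (f p) * aeval σ (g q)) := by
      intro j
      rw [map_sum]
      refine Finset.sum_congr rfl fun p _ => ?_
      rw [map_sum]
      refine Finset.sum_congr rfl fun q _ => ?_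
      rw [map_mul, map_mul, MvPolynomial.aeval_C]
    refine bin ih1 ih2 ?_ ?_ ?_
    · intro U _ hc hU j
      rw [e1]
      refine sum_mem fun p _ => sum_mem fun q _ => rat_mul U _ ?_
      obtain ⟨β, hβ⟩ := hc p
      rw [← hβ, ← Algebra.smul_def]
      exact U.smul_mem _ (hU q)
    · intro U _ hc hU j
      rw [e1]
      refine sum_mem fun p _ => sum_mem fun q _ => rat_mul U _ ?_
      obtain ⟨β, hβ⟩ := hc q
      rw [← hβ, mul_comm, ← Algebra.smul_def]
      exact U.smul_mem _ (hU p)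
    · intro 𝓢 h1 h2 j
      rw [e1]
      exact sum_mem fun p _ => sum_mem fun q _ => mul_mem (𝓢.algebraMap_mem _)
        (mul_mem (h1 p) (h2 q))

end

theorem Tree.par {w : ℕ} {o : Multiset ℕ} {f : Fin w → MvPolynomial ℕ ℚ} (h : Tree w o f)
    (j : Fin w) : Par o (fun m => 2 * (w ^ 2 + w) * m + w) (f j) := by
  classical
  intro K A _ _ _ _ _ _ σ B _ ρ hσ
  rcases main h σ B ρ hσ with ⟨hm, hc⟩ | ⟨hm, T, Ψ, hT, hU, hP⟩
  · obtain ⟨β, hβ⟩ := hc j
    refine ⟨{β}, ?_, ?_⟩
    · rw [Finset.card_singleton]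
      have : 0 < w := Fin.pos j
      show 1 ≤ 2 * (w ^ 2 + w) * (Multiset.filter B o).card + w
      omega
    · intro 𝓢 h1 _
      show aeval σ (f j) ∈ 𝓢
      have hβ' : algebraMap K A β = aeval σ (f j) := hβ
      rw [← hβ']
      exact h1 β (Finset.mem_singleton_self β)
  · obtain ⟨E, hE, hE1⟩ := ext_US Ψ _ hU
    refine ⟨T ∪ E, ?_, ?_⟩
    · refine (Finset.card_union_le _ _).trans ?_
      show T.card + E.card ≤ 2 * (w ^ 2 + w) * (Multiset.filter B o).card + w
      obtain ⟨m, hm1⟩ : ∃ m, (Multiset.filter B o).card = m + 1 := ⟨_, (Nat.sub_add_cancel hm).symm⟩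
      rw [hm1, Nat.add_sub_cancel] at hT
      rw [hm1]
      have e4 : 2 * (w ^ 2 + w) * (m + 1) = 2 * (w ^ 2 + w) * m + 2 * (w ^ 2 + w) := by ring
      rw [e4]
      omega
    · intro 𝓢 h1 h2
      exact hE1 𝓢 (fun c hc => h1 c (Finset.mem_union_right _ hc))
        (hP 𝓢 (fun c hc => h1 c (Finset.mem_union_left _ hc)) h2) j

end Pool.Agent.QH
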