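import Pool.Agent.QH.Defs
import Pool.Agent.Helper47.TR.FPx
import Pool.Agent.PQ.NatSub
import Pool.Agent.PQ.Clear

set_option autoImplicit false

/-!
QH-FpA. Polynomial time: tools.

Plan: `fp_div`: for `a` with `f a < (W a).length`... the quotient `f a / g a` is the number of `x < W` with `(x + 1) * g a ≤ f a` if `g a > 0` and `f a ≤ W` (for `g a = 0` it is `0`): filter on `List.range (W a).length` mapped
with its context (`fp_map`/`fp_flatMap` of `Helper6/SP/FQ.lean`, `FP.filter`, `FP.natLe`, `FP.length`, `FP.range`). `fp_mod`: `x % y = x - y * (x / y)` (`fp_natSub`, `FP.natMul`). `fp_testBit`: `S.testBit a = decide (S / 2 ^ a % 2 = 1)`.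
`fp_sum`: sum of a list of numbers (`FP.foldl` with `FP.natAdd`; size bound: as `fp_natProd` in `PQ/Clear.lean`). `fp_size`: the length of `Nat.bits` (`FP.bits`, `FP.length`; `Nat.size_eq_bits_len`).
-/

namespace Pool.Agent.QH

open N487b59b3 N68a2faeb Pool.Agent.Helper22 Pool.Agent.Helper6.WB Pool.Agent.Helper47.TR

variable {α β : Type} [N487b59b3 α] [N487b59b3 β]

private theorem fpa_filter {f : α → List ℕ} {c : α × ℕ → Bool} (hf : FP f) (hc : FP c) :
    FP fun a => (f a).filter fun x => c (a, x) := by
  have h1 : FP fun q : α × ℕ => if c q then [q.2] else [] :=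
    FP.ite hc (FP.cons FP.snd (FP.const [])) (FP.const [])
  refine (congrArg FP (funext fun a => ?_)).mp (Pool.Agent.Helper6.SP.fp_flatMap (f := f)
    (h := fun q : α × ℕ => if c q then [q.2] else []) hf h1)
  generalize f a = l
  induction l with
  | nil => rfl
  | cons b l ih =>
    rw [List.flatMap_cons, ih, List.filter_cons]
    split_ifs <;> simp

private theorem fpa_count (n k : ℕ) :
    ((List.range n).filter fun x => decide (x < k)).length = min n k := by
  induction n with
  | zero => simp
  | succ n ih =>
    rw [List.range_succ, List.filter_append, List.length_append, ih]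
    by_cases h : n < k
    · simp [h]; omega
    · simp [h]; omega

private theorem fpa_min [Inhabited β] {f : α → ℕ} {W : α → List β} (hf : FP f) (hW : FP W) :
    FP fun a => min (f a) (W a).length := by
  have hl : FP fun a => (W a).length := FP.length hW
  refine (congrArg FP (funext fun a => ?_)).mp (FP.ite (FP.natLe hf hl) hf hl)
  by_cases h : f a ≤ (W a).length
  · rw [if_pos (by simpa using h), min_eq_left h]
  · rw [if_neg (by simpa using h), min_eq_right (by omega)]

private theorem fpa_quot (n F G : ℕ) (hF : F ≤ n) :
    ((List.range n).filter fun x => (decide ((x + 1) * G ≤ F) && decide (1 ≤ G))).length =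
      F / G := by
  rcases Nat.eq_zero_or_pos G with rfl | hG
  · simp
  · have : ((List.range n).filter fun x => (decide ((x + 1) * G ≤ F) && decide (1 ≤ G))) =
        (List.range n).filter fun x => decide (x < F / G) := by
      refine List.filter_congr fun x _ => ?_
      have h1 : decide (1 ≤ G) = true := decide_eq_true hG
      rw [h1, Bool.and_true]
      apply decide_eq_decide.mpr
      rw [← Nat.le_div_iff_mul_le hG]
      exact Iff.rfl
    rw [this, fpa_count]
    exact min_eq_right ((Nat.div_le_self _ _).trans hF)

theorem fp_div [Inhabited β] {f g : α → ℕ} {W : α → List β} (hf : FP f) (hg : FP g) (hW : FP W) :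
    FP fun a => min (f a) (W a).length / g a := by
  have hm := fpa_min hf hW
  have hc : FP fun q : α × ℕ => (decide ((q.2 + 1) * g q.1 ≤ min (f q.1) (W q.1).length) &&
      decide (1 ≤ g q.1)) :=
    FP.and (FP.natLe (FP.natMul (FP.natAdd FP.snd (FP.const 1)) (hg.comp FP.fst))
      (hm.comp FP.fst)) (FP.natLe (FP.const 1) (hg.comp FP.fst))
  refine (congrArg FP (funext fun a => ?_)).mp (FP.length (fpa_filter (FP.range hW) hc))
  exact fpa_quot (W a).length (min (f a) (W a).length) (g a) (min_le_right _ _)

theorem fp_mod [Inhabited β] {f g : α → ℕ} {W : α → List β} (hf : FP f) (hg : FP g) (hW : FP W) :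
    FP fun a => min (f a) (W a).length % g a := by
  refine (congrArg FP (funext fun a => ?_)).mp
    (Pool.Agent.PQ.fp_natSub (fpa_min hf hW) (FP.natMul hg (fp_div hf hg hW)))
  have := Nat.mod_add_div (min (f a) (W a).length) (g a)
  omega

private theorem fpa_size_add (a b : ℕ) : Nat.size (a + b) ≤ Nat.size a + Nat.size b + 1 := by
  rw [Nat.size_le, pow_succ, pow_add]
  have h1 := Nat.lt_size_self a
  have h2 := Nat.lt_size_self b
  have h3 : 1 ≤ 2 ^ a.size := Nat.one_le_two_pow
  have h4 : 1 ≤ 2 ^ b.size := Nat.one_le_two_pow
  nlinarith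

private theorem fpa_size_foldl (l : List ℕ) (v : ℕ) :
    Nat.size (l.foldl (fun s b => s + b) v) ≤ Nat.size v + sz l := by
  induction l generalizing v with
  | nil => simp
  | cons b l ih =>
    rw [List.foldl_cons]
    have h1 := ih (v + b)
    have h2 := fpa_size_add v b
    have h3 := sz_nat b
    simp only [sz_cons]
    omega

private theorem fpa_foldl_add (l : List ℕ) (v : ℕ) :
    l.foldl (fun s b => s + b) v = v + l.sum := by
  induction l generalizing v with
  | nil => simp
  | cons b l ih => rw [List.foldl_cons, ih, List.sum_cons, add_assoc]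

theorem fp_natSum {f : α → List ℕ} (hf : FP f) : FP fun a => (f a).sum := by
  have h1 : FP fun p : List ℕ × ℕ => p.1.foldl (fun s b => s + b) p.2 := by
    refine FP.foldl (g := fun (s : ℕ) (b : ℕ) => s + b) (FP.natAdd FP.fst FP.snd)
      (B := fun n => n) (by fun_prop) ?_
    intro l a
    rw [sz_nat, sz_nat]
    have := fpa_size_foldl l a
    omega
  have h2 := h1.comp (hf.pair (FP.const 0))
  refine (congrArg FP (funext fun a => ?_)).mp h2
  show (f a).foldl (fun s b => s + b) 0 = (f a).sum
  rw [fpa_foldl_add, zero_add]

theorem fp_size {f : α → ℕ} (hf : FP f) : FP fun a => (f a).size := by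
  refine (congrArg FP (funext fun a => ?_)).mp (FP.length (FP.bits hf))
  exact sz_nat (f a)

end Pool.Agent.QH
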