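import Pool.Agent.QH.WForm
import Pool.Agent.QH.FpA
import Pool.Agent.Helper6.SP.Main
import Pool.Agent.Helper22.SparseTools

set_option autoImplicit false

/-!
QH-WFp. Polynomial time: the substitution on codes.
-/

namespace Pool.Agent.QH

open N487b59b3 N68a2faeb Pool.Agent.Helper22 Pool.Agent.Helper6.WB Pool.Agent.Helper6.SP
  Pool.Agent.Helper47.TR

private theorem fp_filt {α β : Type} [N487b59b3 α] [N487b59b3 β] [Inhabited β] {f : α → List β}
    {c : α × β → Bool} (hf : FP f) (hc : FP c) : FP fun a => (f a).filter fun b => c (a, b) := by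
  have h1 : FP fun q : α × β => if c q then [q.2] else [] :=
    FP.ite hc (FP.cons FP.snd (FP.const [])) (FP.const [])
  have h2 := fp_flatMap hf h1
  refine (congrArg FP (funext fun a => ?_)).mp h2
  simp only
  induction (f a) with
  | nil => rfl
  | cons b l ih =>
    rw [List.flatMap_cons, ih, List.filter_cons]
    split_ifs <;> simp

private theorem fp_cnt {α : Type} [N487b59b3 α] {f : α → List (ℕ × ℚ)} {g : α → ℕ} (hf : FP f)
    (hg : FP g) : FP fun a => cnt (g a) (f a) := by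
  have h1 : FP fun q : α × (ℕ × ℚ) => decide (q.2.1 = g q.1 + 3) :=
    FP.natEq FP.snd.fst' (FP.natAdd (hg.comp FP.fst) (FP.const 3))
  have h2 := FP.length (fp_filt hf h1)
  refine (congrArg FP (funext fun a => ?_)).mp h2
  unfold cnt
  congr 2

private theorem fp_isH {α : Type} [N487b59b3 α] (r : ℕ) {f : α → List (ℕ × ℚ)} {g : α → ℕ × ℚ}
    (hf : FP f) (hg : FP g) : FP fun a => isH r (f a) (g a) := by
  have h1 : FP fun a => decide (3 ≤ (g a).1) := FP.natLe (FP.const 3) hg.fst'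
  have h2 : FP fun a => (g a).1 - 3 := Pool.Agent.PQ.fp_natSub hg.fst' (FP.const 3)
  have h3 : FP fun a => decide (r + 1 ≤ cnt ((g a).1 - 3) (f a)) :=
    FP.natLe (FP.const (r + 1)) (fp_cnt hf h2)
  exact FP.and h1 h3

theorem fp_hl (r : ℕ) : FP (hl r) := by
  have h1 : FP fun l : List (ℕ × ℚ) => l.filter fun t => isH r l t :=
    fp_filt (c := fun q : List (ℕ × ℚ) × (ℕ × ℚ) => isH r q.1 q.2) FP.id (fp_isH r FP.fst FP.snd)
  have h2 : FP fun q : List (ℕ × ℚ) × (ℕ × ℚ) => q.2.1 - 3 :=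
    Pool.Agent.PQ.fp_natSub FP.snd.fst' (FP.const 3)
  exact fp_map h1 h2

private theorem idxOf_tw (i : ℕ) (L : List ℕ) :
    L.idxOf i = (L.takeWhile fun b => !(decide (b = i))).length := by
  induction L with
  | nil => rfl
  | cons b L ih =>
    by_cases h : b = i
    · subst h
      simp
    · rw [List.idxOf_cons_ne L h, List.takeWhile_cons, ih]
      simp [h]

theorem fp_sub (r : ℕ) : FP fun p : List (ℕ × ℚ) × List ℕ => sub r p.1 p.2 := by
  have h1 : FP fun q : (List (ℕ × ℚ) × List ℕ) × (ℕ × ℚ) => isH r q.1.1 q.2 :=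
    fp_isH r FP.fst.fst' FP.snd
  have h2 : FP fun q : (List (ℕ × ℚ) × List ℕ) × (ℕ × ℚ) => hl r q.1.1 :=
    (fp_hl r).comp FP.fst.fst'
  have h3 : FP fun q : (List (ℕ × ℚ) × List ℕ) × (ℕ × ℚ) => q.2.1 - 3 :=
    Pool.Agent.PQ.fp_natSub FP.snd.fst' (FP.const 3)
  have h4 : FP fun q : ((List (ℕ × ℚ) × List ℕ) × (ℕ × ℚ)) × ℕ => !(decide (q.2 = q.1.2.1 - 3)) :=
    FP.not (FP.natEq FP.snd (h3.comp FP.fst))
  have h5 := (FP.takeWhile_ctx h4).comp (FP.id.pair h2)
  have h6 : FP fun q : (List (ℕ × ℚ) × List ℕ) × (ℕ × ℚ) =>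
      q.1.2.getD ((hl r q.1.1).idxOf (q.2.1 - 3)) 0 := by
    have h7 := FP.headD (FP.drop (f := fun q : (List (ℕ × ℚ) × List ℕ) × (ℕ × ℚ) => q.1.2)
      FP.fst.snd' h5) 0
    refine (congrArg FP (funext fun q => ?_)).mp h7
    have h9 := idxOf_tw (q.2.1 - 3) (hl r q.1.1)
    show (q.1.2.drop ((hl r q.1.1).takeWhile fun b => !(decide (b = q.2.1 - 3))).length).headD 0 = _
    rw [← h9, List.getD_eq_getElem?_getD, List.headD_eq_head?_getD, List.head?_drop]
  have h8 : FP fun q : (List (ℕ × ℚ) × List ℕ) × (ℕ × ℚ) => if isH r q.1.1 q.2 then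
      (0, ((q.1.2.getD ((hl r q.1.1).idxOf (q.2.1 - 3)) 0 : ℕ) : ℚ)) else q.2 :=
    FP.ite h1 (FP.pair (FP.const 0) (fp_natQ h6)) FP.snd
  exact fp_map (f := fun p : List (ℕ × ℚ) × List ℕ => p.1) FP.fst h8

end Pool.Agent.QH
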