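import Pool.Agent.QH.Main
import Pool.Agent.QH.WFp

set_option autoImplicit false

/-!
QH-WMain. Identity testing for all arithmetic formulas.

Plan: `g` from `mainT 1 hε`, `f₀` from `Helper6/SP/Main.lean` `main r 1` (the theorem `Pool.Agent.Helper6.SP.main`). The algorithm: `dec (v, l) = !((g ((hl r l).map (fun _ => true), v)).any fun x => !(f₀ ([(3, 0)], [[sub r l x]])))`, polynomial time by `fp_hl`, `fp_sub`,
`fp_map`, `fp_any`, `FP.not`, `isPolyTime_iff`. Correctness for `l = F.code`: `[(3, 0)] = (Fm.var 0).code`, `sub r F.code x = (subF h F).code` (`sub_code`) with `h i = some (x_(idxOf i))` for the frequent `i`, whose reads are `≤ r` (`reads_subF`); `f₀` says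
whether `(subF h F).poly = 0` (`L = [[subF h F]]`: one product, so every algebraically independent `b : Finset (Fin 1)` has card `≤ 1`; `aeval (..) (X 0)`, `List.prod_singleton`). If `F.poly = 0` then `(subF h F).poly = 0` by `poly_subF`.
If `F.poly ≠ 0` take `a : ℕ → ℚ` with `eval a F.poly ≠ 0` (`MvPolynomial.funext`), `H i := r < occ i F`, `ix i := (hl r F.code).idxOf i`, injective on the frequent variables of `F` (`mem_hl`, `List.idxOf_inj`), and `P = aeval (fun i => if H i then X (ix i) else C (a i)) F.poly`;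
`P ≠ 0` (evaluate at a point `b` with `b (ix i) = a i` for the frequent `i ∈ F.vars`). `tree_hms`, `card_hms`, `length_hl`, and `ix i < length` (`List.idxOf_lt_length_iff`, `mem_hms`) allow to apply the property of `g`: some `x ∈ g (..)` has `eval (x.getD · 0) P ≠ 0`. This number is
`eval a (subF h F).poly` (`poly_subF`), so `(subF h F).poly ≠ 0` and `f₀` is `false` at `x`.
-/

namespace Pool.Agent.QH

open N487b59b3 N68a2faeb MvPolynomial
open Pool.Agent.Helper22 (FP isPolyTime_iff)
open Pool.Agent.Helper6.WB (Fm)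

private theorem wm_eval_congr (F : Fm) {a b : ℕ → ℚ} (h : ∀ i ∈ F.vars, a i = b i) :
    eval a F.poly = eval b F.poly := by
  induction F with
  | const q => simp only [Fm.poly, eval_C]
  | var i =>
    simp only [Fm.poly, eval_X]
    exact h i (by simp only [Fm.vars, Finset.mem_singleton])
  | add F G ihF ihG =>
    simp only [Fm.poly, map_add]
    rw [ihF fun i hi => h i (by simp only [Fm.vars, Finset.mem_union]; exact Or.inl hi),
      ihG fun i hi => h i (by simp only [Fm.vars, Finset.mem_union]; exact Or.inr hi)]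
  | mul F G ihF ihG =>
    simp only [Fm.poly, map_mul]
    rw [ihF fun i hi => h i (by simp only [Fm.vars, Finset.mem_union]; exact Or.inl hi),
      ihG fun i hi => h i (by simp only [Fm.vars, Finset.mem_union]; exact Or.inr hi)]

private theorem wm_eval_aeval (a : ℕ → ℚ) (g : ℕ → MvPolynomial ℕ ℚ) (F : Fm) :
    eval a (aeval g F.poly) = eval (fun i => eval a (g i)) F.poly := by
  induction F with
  | const q =>
    simp only [Fm.poly]
    rw [← algebraMap_eq, AlgHom.commutes, algebraMap_eq, eval_C, eval_C]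
  | var i => simp only [Fm.poly, aeval_X, eval_X]
  | add F G ihF ihG => simp only [Fm.poly, map_add, ihF, ihG]
  | mul F G ihF ihG => simp only [Fm.poly, map_mul, ihF, ihG]

/-- the input of the test of the formula after the substitution -/
private def wmIn (r : ℕ) (l : List (ℕ × ℚ)) (x : List ℕ) :
    List (ℕ × ℚ) × List (List (List (ℕ × ℚ))) := ([(3, 0)], [[sub r l x]])

private theorem wm_fp_in (r : ℕ) :
    FP fun p : (List Bool × List (ℕ × ℚ)) × List ℕ => wmIn r p.1.2 p.2 := by
  have h1 : FP fun p : (List Bool × List (ℕ × ℚ)) × List ℕ => sub r p.1.2 p.2 :=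
    (fp_sub r).comp (FP.pair (FP.fst.snd') FP.snd)
  have h2 : FP fun p : (List Bool × List (ℕ × ℚ)) × List ℕ => [sub r p.1.2 p.2] :=
    FP.cons h1 (FP.const [])
  have h3 : FP fun p : (List Bool × List (ℕ × ℚ)) × List ℕ => [[sub r p.1.2 p.2]] :=
    FP.cons h2 (FP.const [])
  exact FP.pair (FP.const [((3 : ℕ), (0 : ℚ))]) h3

/-- the algorithm -/
private def wmDec (r : ℕ) (g : List Bool × List Bool → List (List ℕ))
    (f₀ : List (ℕ × ℚ) × List (List (List (ℕ × ℚ))) → Bool)
    (p : List Bool × List (ℕ × ℚ)) : Bool :=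
  !((g ((hl r p.2).map (fun _ => true), p.1)).any fun x => !(f₀ (wmIn r p.2 x)))

private theorem wm_fp_dec (r : ℕ) {g : List Bool × List Bool → List (List ℕ)} (hg : FP g)
    {f₀ : List (ℕ × ℚ) × List (List (List (ℕ × ℚ))) → Bool} (hf : FP f₀) :
    FP (wmDec r g f₀) := by
  have h1 : FP fun p : List Bool × List (ℕ × ℚ) => (hl r p.2).map (fun _ => true) :=
    Pool.Agent.Helper6.SP.fp_map (f := fun p : List Bool × List (ℕ × ℚ) => hl r p.2)
      (h := fun _ => true) ((fp_hl r).comp FP.snd) (FP.const true)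
  have h2 : FP fun p : List Bool × List (ℕ × ℚ) =>
      g ((hl r p.2).map (fun _ => true), p.1) := hg.comp (FP.pair h1 FP.fst)
  have h3 : FP fun p : (List Bool × List (ℕ × ℚ)) × List ℕ => !(f₀ (wmIn r p.1.2 p.2)) :=
    FP.not (hf.comp (wm_fp_in r))
  exact FP.not (Pool.Agent.Helper6.SP.fp_any h2 h3)

private theorem wm_dec_iff (r : ℕ) (g : List Bool × List Bool → List (List ℕ))
    (f₀ : List (ℕ × ℚ) × List (List (List (ℕ × ℚ))) → Bool) (v : List Bool) (F : Fm)
    (hf : ∀ (Q : Fm) (L : List (List Fm)), (∀ p ∈ L, ∀ g ∈ p, ∀ i, g.reads i ≤ r) →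
      (∀ b : Finset (Fin L.length), AlgebraicIndepOn ℚ
        (fun i => ((L.get i).map Fm.poly).prod) (b : Set (Fin L.length)) → b.card ≤ 1) →
      (f₀ (Q.code, L.map fun p => p.map Fm.code) = true ↔
        aeval (fun i => ((L.getD i [Fm.const 0]).map Fm.poly).prod) Q.poly = 0)) :
    wmDec r g f₀ (v, F.code) = true ↔ ∀ x ∈ g ((hl r F.code).map (fun _ => true), v),
      (subF (fun i => if r < occ i F then
        some ((x.getD ((hl r F.code).idxOf i) 0 : ℕ) : ℚ) else none) F).poly = 0 := by
  have key : ∀ x : List ℕ, f₀ (wmIn r F.code x) = true ↔ (subF (fun i => if r < occ i F then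
        some ((x.getD ((hl r F.code).idxOf i) 0 : ℕ) : ℚ) else none) F).poly = 0 := by
    intro x
    have e1 : wmIn r F.code x = ((Fm.var 0).code, [[subF (fun i => if r < occ i F then
        some ((x.getD ((hl r F.code).idxOf i) 0 : ℕ) : ℚ) else none) F]].map
          fun p => p.map Fm.code) := by
      unfold wmIn
      rw [sub_code]
      rfl
    rw [e1, hf (Fm.var 0) _ ?_ ?_]
    · simp only [Fm.poly, aeval_X, List.getD_cons_zero, List.map_cons, List.map_nil,
        List.prod_cons, List.prod_nil, mul_one]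
    · intro p hp g hg i
      rw [List.mem_singleton] at hp
      subst hp
      rw [List.mem_singleton] at hg
      subst hg
      refine reads_subF ?_ i
      intro j hj
      by_contra hc
      rw [if_pos (not_le.1 hc)] at hj
      exact Option.some_ne_none _ hj
    · intro b _
      have h1 := Finset.card_le_univ b
      rw [Fintype.card_fin] at h1
      exact h1
  unfold wmDec
  rw [Bool.not_eq_true', Bool.eq_false_iff, ne_eq, List.any_eq_true]
  constructor
  · intro h x hx
    rw [← key x]
    by_contra hc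
    apply h
    refine ⟨x, hx, ?_⟩
    simp only [Bool.not_eq_true] at hc
    simp only [hc, Bool.not_false]
  · rintro h ⟨x, hx, hc⟩
    have h1 := (key x).2 (h x hx)
    simp only [h1, Bool.not_true] at hc
    exact Bool.false_ne_true hc

private theorem wm_exists (r : ℕ) (F : Fm) (g : List (List ℕ)) (hF : F.poly ≠ 0)
    (hg : ∀ (o : Multiset ℕ) (f : Fin 1 → MvPolynomial ℕ ℚ), Tree 1 o f →
      o.card ≤ heavy r F → (∀ i ∈ o, i < heavy r F) → ∀ j, f j ≠ 0 →
        ∃ x ∈ g, eval (fun i => (x.getD i 0 : ℚ)) (f j) ≠ 0) :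
    ∃ x ∈ g, (subF (fun i => if r < occ i F then
        some ((x.getD ((hl r F.code).idxOf i) 0 : ℕ) : ℚ) else none) F).poly ≠ 0 := by
  obtain ⟨a, ha⟩ : ∃ a : ℕ → ℚ, eval a F.poly ≠ 0 := by
    by_contra hc
    apply hF
    refine MvPolynomial.funext ?_
    intro x
    rw [map_zero]
    by_contra hc2
    exact hc ⟨x, hc2⟩
  have hP := tree_hms (fun i => r < occ i F) (fun i => (hl r F.code).idxOf i) a F
  have hne : (aeval (fun i => if r < occ i F then
      (X ((hl r F.code).idxOf i) : MvPolynomial ℕ ℚ) else C (a i)) F.poly) ≠ 0 := by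
    intro h0
    have h1 := congrArg (eval fun k => a ((hl r F.code).getD k 0)) h0
    rw [wm_eval_aeval, map_zero] at h1
    apply ha
    rw [← h1]
    refine wm_eval_congr F ?_
    intro i hi
    by_cases hr : r < occ i F
    · rw [if_pos hr, eval_X]
      have hm : i ∈ hl r F.code := mem_hl hi hr
      have hlt : (hl r F.code).idxOf i < (hl r F.code).length := List.idxOf_lt_length_iff.2 hm
      rw [List.getD_eq_getElem _ _ hlt, List.getElem_idxOf]
    · rw [if_neg hr, eval_C]
  obtain ⟨x, hx, hx2⟩ := hg _ _ hP (le_of_eq (card_hms r _ F)) (by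
    intro k hk
    rw [mem_hms] at hk
    obtain ⟨i, hi, hr, hik⟩ := hk
    rw [← hik, ← length_hl]
    exact List.idxOf_lt_length_iff.2 (mem_hl hi hr)) 0 hne
  refine ⟨x, hx, ?_⟩
  intro h0
  apply hx2
  rw [poly_subF] at h0
  have h1 := congrArg (eval a) h0
  rw [wm_eval_aeval, map_zero] at h1
  rw [wm_eval_aeval, ← h1]
  refine wm_eval_congr F ?_
  intro i hi
  by_cases hr : r < occ i F
  · simp only [if_pos hr, eval_X, Option.elim_some, eval_C]
  · simp only [if_neg hr, eval_X, Option.elim_none, eval_C]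

/-- **Main theorem.** -/
theorem mainW (r : ℕ) {ε : ℝ} (hε : 0 < ε) :
    ∃ f : List Bool × List (ℕ × ℚ) → Bool, N68a2faeb.IsPolyTime f ∧
      ∀ (v : List Bool) (F : Fm), (2 : ℝ) ^ ((heavy r F : ℝ) ^ (1 / 2 + ε)) ≤ v.length →
        (f (v, F.code) = true ↔ F.poly = 0) := by
  obtain ⟨g, hg, hg2⟩ := mainT 1 hε
  obtain ⟨f₀, hf, hf2⟩ := Pool.Agent.Helper6.SP.main r 1
  refine ⟨wmDec r g f₀, (isPolyTime_iff _).mpr (wm_fp_dec r ((isPolyTime_iff _).mp hg)
    ((isPolyTime_iff _).mp hf)), ?_⟩
  intro v F hv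
  rw [wm_dec_iff r g f₀ v F hf2]
  constructor
  · intro h
    by_contra hF
    have hlen : ((hl r F.code).map (fun _ => true)).length = heavy r F := by
      rw [List.length_map, length_hl]
    obtain ⟨x, hx, hx2⟩ := wm_exists r F (g ((hl r F.code).map (fun _ => true), v)) hF (by
      intro o f ho h1 h2 j hj
      refine hg2 _ v ?_ o f ho ?_ ?_ j hj
      · rw [hlen]
        exact hv
      · rw [hlen]
        exact h1
      · rw [hlen]
        exact h2)
    exact hx2 (h x hx)
  · intro h x _
    rw [poly_subF, h, map_zero]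

end Pool.Agent.QH
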