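import Mathlib

set_option autoImplicit false

/-!
QH-Trd. Transcendence degree: `N` algebraically independent elements of a field generated by the
finite set `T` over `ℚ`: `N ≤ card T`.

Plan: work in `E = IntermediateField.adjoin ℚ T` (or `Algebra.adjoin` and its fraction field). The family `θ` lifts to `E` and stays algebraically independent
(`AlgebraicIndependent.of_comp`/`of_ringHom...`, `algebraicIndependent_of...`, injectivity of `E.val`). `T` (lifted to `E`) generates `E`, so `E` is algebraic over
`Algebra.adjoin ℚ T` and `T` contains a transcendence basis of `E` (`exists_isTranscendenceBasis_subset`, `exists_isTranscendenceBasis_between`, `IsTranscendenceBasis`);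
`Algebra.trdeg` facts (`AlgebraicIndependent.cardinalMk_le_trdeg`/`lift_cardinalMk_le_trdeg`, `IsTranscendenceBasis.cardinalMk_eq_trdeg`, `Algebra.IsAlgebraic.trdeg_le_cardinalMk`).
All in `Mathlib/RingTheory/AlgebraicIndependent/*.lean`.
-/

namespace Pool.Agent.QH

open Cardinal in
private theorem trd_gen {F K : Type} [Field F] [Field K] [Algebra F K] {N : ℕ} {θ : Fin N → K}
    (hθ : AlgebraicIndependent F θ) (T : Finset K)
    (h : ∀ i, θ i ∈ IntermediateField.adjoin F (T : Set K)) : N ≤ T.card := by
  classical
  set E := IntermediateField.adjoin F (T : Set K) with hE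
  have hTE : (T : Set K) ⊆ E := IntermediateField.subset_adjoin F (T : Set K)
  set T' : Set E := Subtype.val ⁻¹' (T : Set K) with hT'
  have himg : (Subtype.val : E → K) '' T' = (T : Set K) := by
    rw [hT', Set.image_preimage_eq_inter_range, Subtype.range_coe_subtype]
    exact Set.inter_eq_left.2 hTE
  have htop : IntermediateField.adjoin F T' = ⊤ := by
    apply IntermediateField.lift_injective E
    rw [IntermediateField.lift_adjoin, IntermediateField.lift_top, himg]
  have halg : Algebra.IsAlgebraic (Algebra.adjoin F T') E := by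
    rw [← IntermediateField.isAlgebraic_adjoin_iff_top, htop, Algebra.isAlgebraic_iff_isIntegral]
    exact Algebra.isIntegral_of_surjective IntermediateField.topEquiv.surjective
  have h1 : Algebra.trdeg F E ≤ #T' := Algebra.IsAlgebraic.trdeg_le_cardinalMk F T'
  have h2 : AlgebraicIndependent F (fun i => (⟨θ i, h i⟩ : E)) :=
    AlgebraicIndependent.of_comp E.val hθ
  have h3 : (#(Fin N)) ≤ Algebra.trdeg F E := h2.cardinalMk_le_trdeg
  have h4 : #T' ≤ #(T : Set K) := by
    rw [← himg]
    exact (Cardinal.mk_image_eq Subtype.val_injective).ge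
  have h5 : (#(Fin N)) ≤ #(T : Set K) := (h3.trans h1).trans h4
  have h6 : #(T : Set K) = (T.card : Cardinal) := Cardinal.mk_coe_finset
  rw [Cardinal.mk_fin, h6] at h5
  exact_mod_cast h5

theorem trd {K : Type} [Field K] [Algebra ℚ K] {N : ℕ} {θ : Fin N → K}
    (hθ : AlgebraicIndependent ℚ θ) (T : Finset K)
    (h : ∀ i, θ i ∈ IntermediateField.adjoin ℚ (T : Set K)) : N ≤ T.card :=
  trd_gen hθ T h

end Pool.Agent.QH
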