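import Pool.Agent.QH.Root
import Pool.Agent.QH.Trd
import Pool.Agent.QH.Hsh

set_option autoImplicit false

/-!
The generator hits a polynomial with few leaves in the block `B`, the variables outside `B` being
constants. Hybrid argument: the variables of the block are replaced one by one.
-/

namespace Pool.Agent.QH

open MvPolynomial

/-- the polynomials in `z` over the polynomials over `K` -/
private abbrev BA (K : Type) [Field K] : Type := Polynomial (MvPolynomial ℕ K)

private theorem block_cof_const {K : Type} [Field K] [Algebra ℚ K] (k : IntermediateField ℚ K)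
    {c : K} (hc : c ∈ k) : algebraMap K (BA K) c ∈ cofs k := by
  intro i e
  rw [Polynomial.algebraMap_apply, MvPolynomial.algebraMap_apply, Polynomial.coeff_C]
  split_ifs with h
  · rw [MvPolynomial.coeff_C]
    split_ifs
    · exact hc
    · exact zero_mem k
  · rw [MvPolynomial.coeff_zero]
    exact zero_mem k

private theorem block_cof_t {K : Type} [Field K] [Algebra ℚ K] (k : IntermediateField ℚ K)
    (a : ℕ) : (Polynomial.C (X a) : BA K) ∈ cofs k := by
  intro i e
  rw [Polynomial.coeff_C]
  split_ifs with h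
  · rw [MvPolynomial.coeff_X]
    split_ifs
    · exact one_mem k
    · exact zero_mem k
  · rw [MvPolynomial.coeff_zero]
    exact zero_mem k

private theorem block_cof_X {K : Type} [Field K] [Algebra ℚ K] (k : IntermediateField ℚ K) :
    (Polynomial.X : BA K) ∈ cofs k := by
  intro i e
  rw [Polynomial.coeff_X]
  split_ifs with h
  · rw [MvPolynomial.coeff_one]
    split_ifs
    · exact one_mem k
    · exact zero_mem k
  · rw [MvPolynomial.coeff_zero]
    exact zero_mem k

/-- the substitution of the hybrid argument -/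
private def bsub {K : Type} [Field K] (L b d : ℕ) (θ : ℕ → K) (B : ℕ → Prop) [DecidablePred B]
    (ρ : ℕ → K) (W : Finset ℕ) (y : ℕ → ℕ → K) (x : ℕ → K) (v : ℕ) : K :=
  if B v then (if v ∈ W then ml L θ (fun a => y a (hsh b d v a)) else x v) else ρ v

private theorem block_step {K : Type} [Field K] [Algebra ℚ K] {L d b m : ℕ} {D : ℕ → ℕ}
    (hD : Monotone D) {θ : ℕ → K} (hθ : AlgebraicIndependent ℚ fun S : Fin (2 ^ L) => θ S)
    {o : Multiset ℕ} {F : MvPolynomial ℕ ℚ} (hF : Par o D F) (B : ℕ → Prop)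
    [DecidablePred B] (hm : (o.filter B).card ≤ m) (hL1 : 1 ≤ L)
    (hL : D m + m * 2 ^ (d - 1) < 2 ^ (L - 1)) (hb : ∀ v ∈ o, v < b ^ d) (ρ x : ℕ → K)
    (W : Finset ℕ) (w : ℕ) (hw : w ∈ o) (hwW : w ∉ W) (y : ℕ → ℕ → K)
    (h0 : aeval (bsub L b d θ B ρ W y x) F ≠ 0) :
    ∃ (y' : ℕ → ℕ → K), aeval (bsub L b d θ B ρ (insert w W) y' x) F ≠ 0 := by
  classical
  by_contra hcon
  push Not at hcon
  have : CharZero K := algebraRat.charZero K
  have : Infinite K := Infinite.of_injective (Nat.cast : ℕ → K) Nat.cast_injective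
  set I : ℕ → Finset ℕ := fun v => (Finset.range L).filter fun a => hsh b d v a = hsh b d w a
    with hI
  set σ : ℕ → BA K := fun v =>
    if B v then (if v = w then Polynomial.X else if v ∈ W then
      ml L (fun S => algebraMap K (BA K) (θ S))
        (fun a => if a ∈ I v then Polynomial.C (X a) else algebraMap K (BA K) (y a (hsh b d v a)))
      else algebraMap K (BA K) (x v)) else algebraMap K (BA K) (ρ v) with hσ
  set P : BA K := aeval σ F with hPdef
  -- ring homomorphisms on `P`
  have hmap : ∀ φ : BA K →+* K, φ P = aeval (fun v => φ (σ v)) F := by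
    intro φ
    have h1 := MvPolynomial.comp_aeval_apply (f := σ) φ.toRatAlgHom F
    exact h1
  -- `P ≠ 0`
  have hP : P ≠ 0 := by
    intro hP0
    set φ : BA K →+* K := Polynomial.eval₂RingHom
      (MvPolynomial.eval fun a => y a (hsh b d w a)) (x w) with hφ
    have hφc : ∀ c : K, φ (algebraMap K (BA K) c) = c := by
      intro c
      rw [Polynomial.algebraMap_apply, MvPolynomial.algebraMap_apply, hφ,
        Polynomial.coe_eval₂RingHom, Polynomial.eval₂_C]
      simp
    have hφt : ∀ a, φ (Polynomial.C (X a)) = y a (hsh b d w a) := by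
      intro a
      rw [hφ, Polynomial.coe_eval₂RingHom, Polynomial.eval₂_C, MvPolynomial.eval_X]
    have h1 := hmap φ
    rw [hP0, map_zero] at h1
    refine h0 ?_
    rw [h1]
    congr 2
    funext v
    rw [bsub, hσ]
    simp only
    by_cases hBv : B v
    · rw [if_pos hBv, if_pos hBv]
      by_cases hvw : v = w
      · rw [hvw, if_neg hwW, if_pos rfl, hφ, Polynomial.coe_eval₂RingHom, Polynomial.eval₂_X]
      · rw [if_neg hvw]
        by_cases hvW : v ∈ W
        · rw [if_pos hvW, if_pos hvW, ml_map]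
          refine ml_congr (fun S _ => (hφc _).symm) fun a _ => ?_
          by_cases ha : a ∈ I v
          · rw [if_pos ha, hφt, (Finset.mem_filter.1 ha).2]
          · rw [if_neg ha, hφc]
        · rw [if_neg hvW, if_neg hvW, hφc]
    · rw [if_neg hBv, if_neg hBv, hφc]
  -- the root
  have hroot : P.eval (ml L (fun S => C (θ S)) X) = 0 := by
    refine MvPolynomial.funext fun s => ?_
    rw [map_zero]
    set ψ : BA K →+* K := (MvPolynomial.eval s).comp
      (Polynomial.evalRingHom (ml L (fun S => C (θ S)) X)) with hψ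
    have hψc : ∀ c : K, ψ (algebraMap K (BA K) c) = c := by
      intro c
      rw [Polynomial.algebraMap_apply, MvPolynomial.algebraMap_apply, hψ, RingHom.comp_apply,
        Polynomial.coe_evalRingHom, Polynomial.eval_C]
      simp
    have hψt : ∀ a, ψ (Polynomial.C (X a)) = s a := by
      intro a
      rw [hψ, RingHom.comp_apply, Polynomial.coe_evalRingHom, Polynomial.eval_C,
        MvPolynomial.eval_X]
    have hψX : ψ Polynomial.X = ml L θ s := by
      rw [hψ, RingHom.comp_apply, Polynomial.coe_evalRingHom, Polynomial.eval_X, ml_map]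
      exact ml_congr (fun S _ => MvPolynomial.eval_C _) fun a _ => MvPolynomial.eval_X _
    have h1 : MvPolynomial.eval s (P.eval (ml L (fun S => C (θ S)) X)) = ψ P := rfl
    rw [h1, hmap ψ, ← hcon (fun a h => if a < L ∧ h = hsh b d w a then s a else y a h)]
    congr 2
    funext v
    rw [bsub, hσ]
    simp only
    by_cases hBv : B v
    · rw [if_pos hBv, if_pos hBv]
      by_cases hvw : v = w
      · rw [hvw, if_pos (Finset.mem_insert_self _ _), if_pos rfl, hψX]
        refine ml_congr (fun _ _ => rfl) fun a ha => ?_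
        rw [if_pos ⟨ha, rfl⟩]
      · rw [if_neg hvw]
        by_cases hvW : v ∈ W
        · rw [if_pos hvW, if_pos (Finset.mem_insert_of_mem hvW), ml_map]
          refine ml_congr (fun S _ => hψc _) fun a haL => ?_
          by_cases ha : hsh b d v a = hsh b d w a
          · rw [if_pos (Finset.mem_filter.2 ⟨Finset.mem_range.2 haL, ha⟩), hψt, if_pos ⟨haL, ha⟩]
          · have hnI : a ∉ I v := fun h => ha (Finset.mem_filter.1 h).2
            rw [if_neg hnI, hψc, if_neg fun h => ha h.2]
        · rw [if_neg hvW, if_neg fun h => (Finset.mem_insert.1 h).elim hvw hvW, hψc]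
    · rw [if_neg hBv, if_neg hBv, hψc]
  -- the coefficients
  obtain ⟨T₀, hT₀c, hT₀⟩ := hF K (BA K) σ B ρ (by
    intro v hBv
    rw [hσ]
    simp only
    rw [if_neg hBv])
  have hTv : ∀ v, v ∈ o → B v → ∃ Tv : Finset K, Tv.card ≤ 2 ^ (d - 1) ∧
      ∀ 𝓢 : Subalgebra ℚ (BA K), (∀ c ∈ Tv, algebraMap K (BA K) c ∈ 𝓢) →
        (∀ a, (Polynomial.C (X a) : BA K) ∈ 𝓢) → (Polynomial.X : BA K) ∈ 𝓢 → σ v ∈ 𝓢 := by
    intro v hvo hBv
    by_cases hvw : v = w
    · refine ⟨∅, by simp, fun 𝓢 _ _ hX => ?_⟩
      rw [hσ]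
      simp only
      rw [if_pos hBv, if_pos hvw]
      exact hX
    · by_cases hvW : v ∈ W
      · obtain ⟨Tv, h1, h2⟩ := ml_par (A := BA K) L θ (fun a => y a (hsh b d v a))
          (fun a => (Polynomial.C (X a) : BA K)) (I v)
        refine ⟨Tv, h1.trans (Nat.pow_le_pow_right (by norm_num)
          (hsh_card L (hb v hvo) (hb w hw) hvw)), fun 𝓢 h3 h4 _ => ?_⟩
        rw [hσ]
        simp only
        rw [if_pos hBv, if_neg hvw, if_pos hvW]
        exact h2 𝓢 h3 fun a _ => h4 a
      · refine ⟨{x v}, by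
          rw [Finset.card_singleton]
          exact Nat.one_le_two_pow, fun 𝓢 h3 _ _ => ?_⟩
        rw [hσ]
        simp only
        rw [if_pos hBv, if_neg hvw, if_neg hvW]
        exact h3 _ (Finset.mem_singleton_self _)
  choose! Tv hTvc hTv' using hTv
  set T : Finset K := T₀ ∪ (o.filter B).toFinset.biUnion Tv with hT
  have hTc : T.card ≤ D m + m * 2 ^ (d - 1) := by
    refine (Finset.card_union_le _ _).trans (add_le_add (hT₀c.trans (hD hm)) ?_)
    refine (Finset.card_biUnion_le_card_mul _ _ (2 ^ (d - 1)) ?_).trans ?_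
    · intro v hv
      have h1 := Multiset.mem_filter.1 (Multiset.mem_toFinset.1 hv)
      exact hTvc v h1.1 h1.2
    · exact Nat.mul_le_mul_right _ ((Multiset.toFinset_card_le _).trans hm)
  have hPT : P ∈ cofs (IntermediateField.adjoin ℚ (T : Set K)) := by
    have hmem : ∀ c ∈ T, c ∈ IntermediateField.adjoin ℚ (T : Set K) := fun c hc =>
      IntermediateField.subset_adjoin ℚ _ (Finset.mem_coe.2 hc)
    refine hT₀ _ (fun c hc => block_cof_const _ (hmem c (Finset.mem_union_left _ hc))) ?_
    intro v hvo hBv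
    refine hTv' v hvo hBv _ (fun c hc => block_cof_const _ (hmem c ?_)) (block_cof_t _)
      (block_cof_X _)
    refine Finset.mem_union_right _ (Finset.mem_biUnion.2 ⟨v, ?_, hc⟩)
    exact Multiset.mem_toFinset.2 (Multiset.mem_filter.2 ⟨hvo, hBv⟩)
  obtain ⟨T', hT'c, hT'⟩ := root T P hP hPT hroot
  have h2 := trd hθ T' fun i => hT' i i.2
  obtain ⟨l, rfl⟩ : ∃ l, L = l + 1 := ⟨L - 1, by omega⟩
  rw [Nat.add_sub_cancel] at hT'c hL
  rw [pow_succ] at h2
  omega

theorem block {K : Type} [Field K] [Algebra ℚ K] {L d b m : ℕ} {D : ℕ → ℕ} (hD : Monotone D)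
    {θ : ℕ → K} (hθ : AlgebraicIndependent ℚ fun S : Fin (2 ^ L) => θ S) {o : Multiset ℕ}
    {F : MvPolynomial ℕ ℚ} (hF : Par o D F) (hv : ∀ v ∈ F.vars, v ∈ o) (B : ℕ → Prop)
    [DecidablePred B] (hm : (o.filter B).card ≤ m) (hL1 : 1 ≤ L)
    (hL : D m + m * 2 ^ (d - 1) < 2 ^ (L - 1)) (hb : ∀ v ∈ o, v < b ^ d) (ρ x : ℕ → K)
    (h0 : aeval (fun v => if B v then x v else ρ v) F ≠ 0) :
    ∃ y : ℕ → ℕ → K,
      aeval (fun v => if B v then ml L θ (fun a => y a (hsh b d v a)) else ρ v) F ≠ 0 := by
  classical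
  have key : ∀ W : Finset ℕ, (∀ v ∈ W, v ∈ F.vars ∧ B v) →
      ∃ y : ℕ → ℕ → K, aeval (bsub L b d θ B ρ W y x) F ≠ 0 := by
    intro W
    induction W using Finset.induction_on with
    | empty =>
      intro _
      refine ⟨fun _ _ => 0, ?_⟩
      have h1 : bsub L b d θ B ρ ∅ (fun _ _ => 0) x = fun v => if B v then x v else ρ v := by
        funext v
        rw [bsub, if_neg (Finset.notMem_empty v)]
      rw [h1]
      exact h0
    | insert w W hwW ih =>
      intro hW
      obtain ⟨y, hy⟩ := ih fun v hv => hW v (Finset.mem_insert_of_mem hv)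
      have h1 := hW w (Finset.mem_insert_self _ _)
      exact block_step hD hθ hF B hm hL1 hL hb ρ x W w (hv w h1.1) hwW y hy
  obtain ⟨y, hy⟩ := key (F.vars.filter B) fun v hv => Finset.mem_filter.1 hv
  refine ⟨y, ?_⟩
  have h1 : aeval (fun v => if B v then ml L θ (fun a => y a (hsh b d v a)) else ρ v) F =
      aeval (bsub L b d θ B ρ (F.vars.filter B) y x) F := by
    refine eval₂Hom_congr' rfl (fun v hv _ => ?_) rfl
    rw [bsub]
    by_cases hBv : B v
    · rw [if_pos hBv, if_pos hBv, if_pos (Finset.mem_filter.2 ⟨hv, hBv⟩)]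
    · rw [if_neg hBv, if_neg hBv]
  rw [h1]
  exact hy

end Pool.Agent.QH
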