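import Mathlib

set_option autoImplicit false

/-!
Trees of bilinear gates over vectors of polynomials, symbolic determinants, and the generator.
-/

namespace Pool.Agent.QH

open MvPolynomial

/-- `Tree w o f`: the vector `f` of `w` polynomials is computed by a binary tree. Every leaf is
labelled by a variable, and `o` is the multiset of the labels of the leaves. The gates are linear
maps, sums of vectors and bilinear maps; constant vectors are free. For `w = 1` these are the
arithmetic formulas. -/
inductive Tree (w : ℕ) : Multiset ℕ → (Fin w → MvPolynomial ℕ ℚ) → Prop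
  | const (c : Fin w → ℚ) : Tree w 0 fun j => C (c j)
  | var (i : ℕ) (c : Fin w → ℚ) : Tree w {i} fun j => C (c j) * X i
  | lin {o : Multiset ℕ} {f : Fin w → MvPolynomial ℕ ℚ} (A : Fin w → Fin w → ℚ)
      (hf : Tree w o f) : Tree w o fun j => ∑ p, C (A j p) * f p
  | add {o o' : Multiset ℕ} {f g : Fin w → MvPolynomial ℕ ℚ} (hf : Tree w o f)
      (hg : Tree w o' g) : Tree w (o + o') fun j => f j + g j
  | mul {o o' : Multiset ℕ} {f g : Fin w → MvPolynomial ℕ ℚ} (B : Fin w → Fin w → Fin w → ℚ)
      (hf : Tree w o f) (hg : Tree w o' g) :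
      Tree w (o + o') fun j => ∑ p, ∑ q, C (B j p q) * (f p * g q)

/-- `Sdet o F`: the polynomial `F` is the determinant of a symbolic matrix
`A + ∑ e, X (lab e) • u e (v e)ᵀ`, and `o` is the multiset of the labels `lab e`. -/
def Sdet (o : Multiset ℕ) (F : MvPolynomial ℕ ℚ) : Prop :=
  ∃ (N t : ℕ) (A : Matrix (Fin N) (Fin N) ℚ) (lab : Fin t → ℕ) (u v : Fin t → Fin N → ℚ),
    o = Finset.univ.val.map lab ∧
    F = (A.map C + ∑ e, (X (lab e) : MvPolynomial ℕ ℚ) •
      (Matrix.vecMulVec (u e) (v e)).map C : Matrix (Fin N) (Fin N) (MvPolynomial ℕ ℚ)).det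

/-- the multilinear polynomial with coefficients `θ S`, `S < 2 ^ L`, at the point `y`; the bits of
`S` are the variables of the monomial number `S` -/
def ml {R : Type*} [CommSemiring R] (L : ℕ) (θ y : ℕ → R) : R :=
  ∑ S ∈ Finset.range (2 ^ L), θ S * ∏ a ∈ (Finset.range L).filter (fun a => S.testBit a), y a

/-- the polynomial whose coefficients are the `d` last digits of `v` in base `b`, at `a` -/
def hsh (b d v a : ℕ) : ℕ := ∑ i ∈ Finset.range d, (v / b ^ i % b) * a ^ i

/-- the generator: the coordinate `v` for the block `β v` -/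
def gen {R : Type*} [CommSemiring R] (b d L : ℕ) (β : ℕ → ℕ) (θ z : ℕ → R) (y : ℕ → ℕ → ℕ → R)
    (v : ℕ) : R :=
  z (β v) + ml L θ fun a => y (β v) a (hsh b d v a)

/-- `Par o D F`: after the substitution of constants for the variables outside `B`, the polynomial
`F` is an expression over `ℚ` in the other variables and at most `D m` constants, where `m` is the
number of the leaves in `B`. -/
def Par (o : Multiset ℕ) (D : ℕ → ℕ) (F : MvPolynomial ℕ ℚ) : Prop :=
  ∀ (K A : Type) [Field K] [Algebra ℚ K] [CommRing A] [Algebra K A] [Algebra ℚ A]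
    [IsScalarTower ℚ K A] (σ : ℕ → A) (B : ℕ → Prop) [DecidablePred B] (ρ : ℕ → K),
    (∀ v, ¬ B v → σ v = algebraMap K A (ρ v)) →
      ∃ T : Finset K, T.card ≤ D (o.filter B).card ∧
        ∀ 𝓢 : Subalgebra ℚ A, (∀ c ∈ T, algebraMap K A c ∈ 𝓢) → (∀ v ∈ o, B v → σ v ∈ 𝓢) →
          aeval σ F ∈ 𝓢

/-- the polynomials in `z` whose coefficients are polynomials with coefficients in `k` -/
noncomputable def cofs {K : Type} [Field K] [Algebra ℚ K] (k : IntermediateField ℚ K) :
    Subalgebra ℚ (Polynomial (MvPolynomial ℕ K)) where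
  carrier := {P | ∀ i e, (P.coeff i).coeff e ∈ k}
  mul_mem' := by
    intro P Q hP hQ i e
    rw [Polynomial.coeff_mul, MvPolynomial.coeff_sum]
    refine sum_mem fun p _ => ?_
    rw [MvPolynomial.coeff_mul]
    exact sum_mem fun q _ => mul_mem (hP _ _) (hQ _ _)
  add_mem' := by
    intro P Q hP hQ i e
    rw [Polynomial.coeff_add, MvPolynomial.coeff_add]
    exact add_mem (hP _ _) (hQ _ _)
  algebraMap_mem' := by
    intro r i e
    rw [Polynomial.algebraMap_apply, MvPolynomial.algebraMap_apply, Polynomial.coeff_C]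
    split_ifs with h
    · rw [MvPolynomial.coeff_C]
      split_ifs
      · exact k.algebraMap_mem r
      · exact zero_mem k
    · simp

/-- the names of the seeds -/
abbrev Sd := ℕ ⊕ (ℕ ⊕ ℕ × ℕ × ℕ)

/-! ### The hitting set -/

/-- `⌊s ^ (1 / (τ + 1))⌋ + 1` -/
def rt (τ s : ℕ) : ℕ := ((List.range (s + 1)).filter fun x => decide (x ^ (τ + 1) ≤ s)).length

/-- the least `b` with `s ≤ b ^ d` -/
def rtc (d s : ℕ) : ℕ := ((List.range (s + 1)).filter fun x => decide (x ^ d < s)).length

/-- the number of the parameters of a block -/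
def par (τ c d m : ℕ) : ℕ := c * (m + 1) ^ τ + m * 2 ^ (d - 1)

/-- the number of the variables of the multilinear polynomial -/
def lv (τ c d m : ℕ) : ℕ := (2 * par τ c d m).size + 1

/-- the number of the cuts -/
def kc (s m : ℕ) : ℕ := 2 * (s / m) + 1

/-- a bound for the values of `hsh` -/
def qb (b d L : ℕ) : ℕ := d * b * L ^ d + 1

/-- the number of the seeds -/
def len (s m b d L : ℕ) : ℕ :=
  2 * kc s m + 1 + 2 ^ L + (kc s m + 1) * L * qb b d L

/-- the coordinate `v` of the point number `i` of the hitting set; the seeds are the digits of `i`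
in base `s + 1` -/
def pt (s m b d L i v : ℕ) : ℕ :=
  gen b d L (fun v => ((Finset.range (kc s m)).filter fun k => i / (s + 1) ^ k % (s + 1) ≤ v).card)
    (fun S => i / (s + 1) ^ (2 * kc s m + 1 + S) % (s + 1))
    (fun k => i / (s + 1) ^ (kc s m + k) % (s + 1))
    (fun k a h => i / (s + 1) ^ (2 * kc s m + 1 + 2 ^ L + ((k * L + a) * qb b d L + h)) % (s + 1))
    v

/-- the parameters as functions of `s` -/
def ptS (τ c d s i v : ℕ) : ℕ := pt s (rt τ s) (rtc d s) d (lv τ c d (rt τ s)) i v

end Pool.Agent.QH
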