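import Pool.Agent.QH.Defs

set_option autoImplicit false

/-!
QH-DetP. Symbolic determinants: the number of the parameters.

Plan: `F = det (A + ∑ e, X (lab e) • u e ⊗ v e)`, `o = univ.val.map lab`; fix `K A' σ B ρ`. Let `E = {e | B (lab e)}` (as a type `{e // B (lab e)}`, a Fintype of card `m = (o.filter B).card`,
`Multiset.filter_map`), and `A₁ = A + ∑ e ∉ E, ρ (lab e) • u e ⊗ v e`, a matrix over `K`. Then `aeval σ F = det (A₁ + ∑ e ∈ E, σ (lab e) • u e ⊗ v e)` over `A'` (`AlgHom.map_det`/`RingHom.map_det`).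
If `det (A₁ + ∑ e ∈ E, s e • u e ⊗ v e) = 0` for all `s : E → ℚ`, then the polynomial `det (A₁ + ∑ e ∈ E, X e • ..) ∈ MvPolynomial E K` vanishes at all rational points, so it is `0`
(`MvPolynomial.funext_set`, the range of `algebraMap ℚ K` is infinite), and `aeval σ F = 0`, its image under `aeval (σ ∘ lab)`; `T = ∅`. Otherwise fix such an `s` with `c = det M ≠ 0`,
`M = A₁ + ∑ e ∈ E, s e • u e ⊗ v e` over `K`; with `U : N × E`, `V : E × N` the matrices of the `u e`, `v e`, and `Z = diagonal (σ (lab e) - s e)` over `A'`: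
`aeval σ F = det (M + U Z V) = det M * det (1 + M⁻¹ U Z V) = c * det (1 + Z V M⁻¹ U)` (`Matrix.det_mul`, `Matrix.det_one_add_mul_comm`; all matrices mapped to `A'` by `algebraMap K A'`).
`T = {c} ∪ {entries of V M⁻¹ U}`, card `≤ 1 + m ^ 2`; the determinant of a matrix with entries in `𝓢` lies in `𝓢` (`Matrix.det_apply`, `sum_mem`, `prod_mem`, `zsmul_mem`).
-/

namespace Pool.Agent.QH

open MvPolynomial

private lemma dp_det_mem {E : Type*} [Fintype E] [DecidableEq E] {R : Type*} [CommRing R]
    [Algebra ℚ R] (𝓢 : Subalgebra ℚ R) (M : Matrix E E R) (h : ∀ i j, M i j ∈ 𝓢) :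
    M.det ∈ 𝓢 := by
  rw [Matrix.det_apply]
  refine sum_mem fun g _ => ?_
  have h1 : (∏ i, M (g i) i) ∈ 𝓢 := prod_mem fun i _ => h _ _
  rcases Int.units_eq_one_or (Equiv.Perm.sign g) with h2 | h2
  · rw [h2, one_smul]; exact h1
  · rw [h2, Units.neg_smul, one_smul]; exact neg_mem h1

/-- the pencil over a ring `R` -/
private def dpPen {N : ℕ} {E : Type*} [Fintype E] {R : Type*} [CommRing R] [Algebra ℚ R]
    (A : Matrix (Fin N) (Fin N) R) (x : E → R) (u v : E → Fin N → ℚ) :
    Matrix (Fin N) (Fin N) R :=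
  Matrix.of fun i j => A i j + ∑ e, x e * (algebraMap ℚ R (u e i) * algebraMap ℚ R (v e j))

private lemma dp_map {N : ℕ} {E : Type*} [Fintype E] {R S : Type*} [CommRing R] [Algebra ℚ R]
    [CommRing S] [Algebra ℚ S] (f : R →ₐ[ℚ] S) (A : Matrix (Fin N) (Fin N) R) (x : E → R)
    (u v : E → Fin N → ℚ) :
    f ((dpPen A x u v).det) = (dpPen (A.map f) (fun e => f (x e)) u v).det := by
  rw [AlgHom.map_det]
  congr 1
  ext i j
  simp [dpPen, AlgHom.mapMatrix_apply, Matrix.map_apply]

private lemma dp_split {N t : ℕ} {R : Type*} [CommRing R] [Algebra ℚ R]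
    (A : Matrix (Fin N) (Fin N) R) (x : Fin t → R) (u v : Fin t → Fin N → ℚ)
    (P : Fin t → Prop) [DecidablePred P] :
    dpPen A x u v = dpPen (dpPen A (fun e : {e // ¬ P e} => x e) (fun e => u e) (fun e => v e))
      (fun e : {e // P e} => x e) (fun e => u e) (fun e => v e) := by
  ext i j
  simp only [dpPen, Matrix.of_apply]
  rw [add_assoc, add_comm (∑ e : {e // ¬ P e}, _)]
  congr 1
  exact (Fintype.sum_subtype_add_sum_subtype P
    (fun e => x e * (algebraMap ℚ R (u e i) * algebraMap ℚ R (v e j)))).symm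

private lemma dp_key {N : ℕ} {E : Type} [Fintype E] [DecidableEq E] {K R : Type} [Field K]
    [Algebra ℚ K] [CommRing R] [Algebra K R] [Algebra ℚ R] [IsScalarTower ℚ K R]
    (A : Matrix (Fin N) (Fin N) K) (u v : E → Fin N → ℚ) :
    ∃ T : Finset K, T.card ≤ Fintype.card E ^ 2 + 1 ∧
      ∀ (x : E → R) (𝓢 : Subalgebra ℚ R), (∀ c ∈ T, algebraMap K R c ∈ 𝓢) →
        (∀ e, x e ∈ 𝓢) → (dpPen (A.map (algebraMap K R)) x u v).det ∈ 𝓢 := by
  classical
  set P : MvPolynomial E K := (dpPen (A.map (C : K →+* MvPolynomial E K)) X u v).det with hP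
  by_cases h0 : P = 0
  · refine ⟨∅, by simp, ?_⟩
    intro x 𝓢 _ _
    have h1 := congrArg (fun p => (aeval x : MvPolynomial E K →ₐ[K] R).restrictScalars ℚ p) h0
    simp only [hP] at h1
    rw [dp_map] at h1
    have h2 : (dpPen (A.map (algebraMap K R)) x u v).det = 0 := by
      rw [← map_zero ((aeval x : MvPolynomial E K →ₐ[K] R).restrictScalars ℚ), ← h1]
      congr 1
      ext i j
      simp [dpPen]
    rw [h2]
    exact zero_mem _
  · obtain ⟨s, hs⟩ : ∃ s : E → ℚ, eval (fun e => algebraMap ℚ K (s e)) P ≠ 0 := by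
      by_contra hcon
      push Not at hcon
      apply h0
      refine MvPolynomial.funext_set (fun _ => Set.range (algebraMap ℚ K)) (fun _ =>
        Set.infinite_range_of_injective (algebraMap ℚ K).injective) ?_
      intro x hx
      choose s hs using fun e => hx e (Set.mem_univ e)
      have : x = fun e => algebraMap ℚ K (s e) := by
        funext e; exact (hs e).symm
      rw [this, hcon s, map_zero]
    set M : Matrix (Fin N) (Fin N) K := dpPen A (fun e => algebraMap ℚ K (s e)) u v with hM
    have hdet : M.det ≠ 0 := by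
      have h1 : eval (fun e => algebraMap ℚ K (s e)) P = M.det := by
        have h2 := dp_map ((aeval (fun e => algebraMap ℚ K (s e)) :
          MvPolynomial E K →ₐ[K] K).restrictScalars ℚ)
          (A.map (C : K →+* MvPolynomial E K)) X u v
        rw [← hP] at h2
        have h3 : ((aeval (fun e => algebraMap ℚ K (s e)) :
          MvPolynomial E K →ₐ[K] K).restrictScalars ℚ) P =
            eval (fun e => algebraMap ℚ K (s e)) P := by
          simp [aeval_eq_eval]
        rw [← h3, h2, hM]
        congr 1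
        ext i j
        simp [dpPen]
      rw [← h1]; exact hs
    set U : Matrix (Fin N) E K := Matrix.of fun i e => algebraMap ℚ K (u e i) with hU
    set V : Matrix E (Fin N) K := Matrix.of fun e j => algebraMap ℚ K (v e j) with hV
    set Q : Matrix E E K := V * (M⁻¹ * U) with hQ
    refine ⟨insert M.det (Finset.univ.image fun p : E × E => Q p.1 p.2), ?_, ?_⟩
    · refine (Finset.card_insert_le _ _).trans ?_
      have := Finset.card_image_le (s := (Finset.univ : Finset (E × E)))
        (f := fun p : E × E => Q p.1 p.2)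
      rw [Finset.card_univ, Fintype.card_prod, ← sq] at this
      omega
    · intro x 𝓢 hT hx
      set φ : K →+* R := algebraMap K R with hφ
      have hr : ∀ q : ℚ, algebraMap ℚ R q = φ (algebraMap ℚ K q) := fun q =>
        IsScalarTower.algebraMap_apply ℚ K R q
      set Z : Matrix E E R := Matrix.diagonal fun e => x e - algebraMap ℚ R (s e) with hZ
      have h1 : dpPen (A.map φ) x u v = M.map φ + (U.map φ * (Z * V.map φ)) := by
        ext i j
        have e1 : (U.map φ * (Z * V.map φ)) i j =
            ∑ e, φ (algebraMap ℚ K (u e i)) * ((x e - φ (algebraMap ℚ K (s e))) *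
              φ (algebraMap ℚ K (v e j))) := by
          rw [Matrix.mul_apply]
          refine Finset.sum_congr rfl fun e _ => ?_
          rw [hZ, Matrix.diagonal_mul, hr]
          rfl
        have e2 : (M.map φ) i j = φ (A i j) + ∑ e, φ (algebraMap ℚ K (s e)) *
            (φ (algebraMap ℚ K (u e i)) * φ (algebraMap ℚ K (v e j))) := by
          simp only [hM, dpPen, Matrix.map_apply, Matrix.of_apply, map_add, map_sum, map_mul]
        rw [Matrix.add_apply, e1, e2, add_assoc, ← Finset.sum_add_distrib]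
        simp only [dpPen, Matrix.of_apply, Matrix.map_apply, hr]
        congr 1
        refine Finset.sum_congr rfl fun e _ => ?_
        ring
      have hMM : M.map φ * (M⁻¹).map φ = 1 := by
        rw [← Matrix.map_mul, Matrix.mul_nonsing_inv _ (isUnit_iff_ne_zero.2 hdet)]
        exact Matrix.map_one _ (map_zero _) (map_one _)
      have h2 : dpPen (A.map φ) x u v =
          M.map φ * (1 + ((M⁻¹).map φ * U.map φ) * (Z * V.map φ)) := by
        rw [h1, mul_add, mul_one]
        congr 1
        have h5 : M.map φ * ((M⁻¹).map φ * U.map φ) = U.map φ := by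
          rw [← Matrix.mul_assoc, hMM, Matrix.one_mul]
        rw [← Matrix.mul_assoc (M.map φ) ((M⁻¹).map φ * U.map φ) (Z * V.map φ), h5]
      rw [h2, Matrix.det_mul, Matrix.det_one_add_mul_comm]
      have h3 : (M.map φ).det = φ M.det := by
        rw [RingHom.map_det]; rfl
      rw [h3]
      refine mul_mem (hT _ (Finset.mem_insert_self _ _)) ?_
      refine dp_det_mem 𝓢 _ fun e e' => ?_
      have h4 : Z * V.map φ * ((M⁻¹).map φ * U.map φ) = Z * Q.map φ := by
        rw [hQ, Matrix.map_mul, Matrix.map_mul, Matrix.mul_assoc]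
      rw [h4, Matrix.add_apply, hZ, Matrix.diagonal_mul, Matrix.map_apply]
      refine add_mem ?_ (mul_mem (sub_mem (hx e) (𝓢.algebraMap_mem _)) ?_)
      · rw [Matrix.one_apply]
        split_ifs
        · exact one_mem _
        · exact zero_mem _
      · exact hT _ (Finset.mem_insert_of_mem (Finset.mem_image.2 ⟨(e, e'), Finset.mem_univ _, rfl⟩))

theorem Sdet.par {o : Multiset ℕ} {F : MvPolynomial ℕ ℚ} (h : Sdet o F) :
    Par o (fun m => m ^ 2 + 1) F := by
  classical
  obtain ⟨N, t, A, lab, u, v, ho, hF⟩ := h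
  intro K R _ _ _ _ _ _ σ B _ ρ hσ
  set A₁ : Matrix (Fin N) (Fin N) K := dpPen (A.map (algebraMap ℚ K))
    (fun e : {e // ¬ B (lab e)} => ρ (lab e)) (fun e => u e) (fun e => v e) with hA₁
  obtain ⟨T, hT, hT'⟩ := dp_key (E := {e // B (lab e)}) (K := K) (R := R) A₁
    (fun e => u e) (fun e => v e)
  have hcard : Fintype.card {e // B (lab e)} = (o.filter B).card := by
    rw [ho, Multiset.filter_map, Multiset.card_map, Fintype.card_subtype]
    rfl
  refine ⟨T, ?_, ?_⟩
  · simpa only [hcard] using hT
  · intro 𝓢 h1 h2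
    have h3 := hT' (fun e => σ (lab e)) 𝓢 h1 (fun e => h2 (lab e) (by
      rw [ho]; exact Multiset.mem_map_of_mem _ (by simp)) e.2)
    have h4 : aeval σ F = (dpPen (A.map (algebraMap ℚ R)) (fun e => σ (lab e)) u v).det := by
      have h5 : F = (dpPen (A.map (C : ℚ →+* MvPolynomial ℕ ℚ))
          (fun e => (X (lab e) : MvPolynomial ℕ ℚ)) u v).det := by
        rw [hF]
        congr 1
        ext i j
        simp [dpPen, Matrix.sum_apply, Matrix.vecMulVec_apply, MvPolynomial.algebraMap_eq]
      rw [h5, dp_map]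
      congr 1
      ext i j
      simp [dpPen]
    rw [h4, dp_split _ _ _ _ (fun e => B (lab e))]
    have h6 : dpPen (A.map (algebraMap ℚ R)) (fun e : {e // ¬ B (lab e)} => σ (lab e))
        (fun e => u e) (fun e => v e) = A₁.map (algebraMap K R) := by
      ext i j
      simp only [dpPen, hA₁, Matrix.of_apply, Matrix.map_apply, map_add, map_sum, map_mul,
        ← IsScalarTower.algebraMap_apply]
      congr 1
      refine Finset.sum_congr rfl fun e _ => ?_
      rw [hσ _ e.2]
    rw [h6]
    exact h3

end Pool.Agent.QH
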