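import Pool.Agent.QH.Defs

set_option autoImplicit false

/-!
QH-DetV. Symbolic determinants: variables and degree.

Proof of the degree bound: `det (D - C * B)` is the determinant of the block matrix `1, B; C, D`, in which
only the `t` first columns contain variables.
-/

namespace Pool.Agent.QH

open MvPolynomial

theorem Sdet.vars {o : Multiset ℕ} {F : MvPolynomial ℕ ℚ} (h : Sdet o F) :
    ∀ v ∈ F.vars, v ∈ o := by
  obtain ⟨N, t, A, lab, u, v, ho, hF⟩ := h
  have hmem : F ∈ supported ℚ {x : ℕ | x ∈ o} := by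
    rw [hF, Matrix.det_apply']
    refine sum_mem fun σ _ => mul_mem (intCast_mem _ _) (prod_mem fun i _ => ?_)
    rw [Matrix.add_apply, Matrix.sum_apply]
    refine add_mem ?_ (sum_mem fun e _ => ?_)
    · exact (supported ℚ {x : ℕ | x ∈ o}).algebraMap_mem _
    · rw [Matrix.smul_apply, smul_eq_mul]
      refine mul_mem ?_ ((supported ℚ {x : ℕ | x ∈ o}).algebraMap_mem _)
      rw [X_mem_supported]
      show lab e ∈ o
      rw [ho]
      exact Multiset.mem_map.2 ⟨e, Finset.mem_univ e, rfl⟩
  rw [mem_supported] at hmem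
  intro x hx
  exact hmem (Finset.mem_coe.2 hx)

private theorem detv_block {N t : ℕ} (A : Matrix (Fin N) (Fin N) ℚ) (lab : Fin t → ℕ)
    (u v : Fin t → Fin N → ℚ) :
    (A.map C + ∑ e, (X (lab e) : MvPolynomial ℕ ℚ) •
      (Matrix.vecMulVec (u e) (v e)).map C : Matrix (Fin N) (Fin N) (MvPolynomial ℕ ℚ)).det =
    (Matrix.fromBlocks 1 (Matrix.of fun e j => (C (v e j) : MvPolynomial ℕ ℚ))
      (Matrix.of fun i e => -((X (lab e) : MvPolynomial ℕ ℚ) * C (u e i))) (A.map C)).det := by
  rw [Matrix.det_fromBlocks_one₁₁]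
  congr 1
  ext1 i j
  rw [Matrix.add_apply, Matrix.sum_apply, Matrix.sub_apply, Matrix.mul_apply, sub_eq_add_neg,
    ← Finset.sum_neg_distrib]
  congr 1
  refine Finset.sum_congr rfl fun e _ => ?_
  rw [Matrix.smul_apply, smul_eq_mul, Matrix.map_apply, Matrix.vecMulVec_apply, map_mul,
    Matrix.of_apply, Matrix.of_apply]
  ring

theorem Sdet.deg {o : Multiset ℕ} {F : MvPolynomial ℕ ℚ} (h : Sdet o F) :
    F.totalDegree ≤ o.card := by
  obtain ⟨N, t, A, lab, u, v, ho, hF⟩ := h
  have hcard : o.card = t := by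
    rw [ho, Multiset.card_map]
    simp
  rw [hcard, hF, detv_block, Matrix.det_apply']
  refine (totalDegree_finsetSum_le ?_)
  intro σ _
  refine (totalDegree_mul _ _).trans ?_
  have h1 : (((Equiv.Perm.sign σ : ℤ) : MvPolynomial ℕ ℚ)).totalDegree = 0 := by
    rw [← map_intCast (C : ℚ →+* MvPolynomial ℕ ℚ), totalDegree_C]
  rw [h1, zero_add]
  refine (totalDegree_finsetProd _ _).trans ?_
  have h2 : ∀ i : Fin t ⊕ Fin N,
      ((Matrix.fromBlocks 1 (Matrix.of fun e j => (C (v e j) : MvPolynomial ℕ ℚ))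
      (Matrix.of fun i e => -((X (lab e) : MvPolynomial ℕ ℚ) * C (u e i))) (A.map C))
        (σ i) i).totalDegree ≤ Sum.elim (fun _ => 1) (fun _ => 0) i := by
    rintro (e | j)
    · show _ ≤ 1
      rcases σ (Sum.inl e) with e' | j'
      · rw [Matrix.fromBlocks_apply₁₁, Matrix.one_apply]
        split_ifs
        · rw [totalDegree_one]
          exact zero_le_one
        · rw [totalDegree_zero]
          exact zero_le_one
      · rw [Matrix.fromBlocks_apply₂₁, Matrix.of_apply, totalDegree_neg]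
        refine (totalDegree_mul _ _).trans ?_
        rw [totalDegree_C, totalDegree_X]
    · show _ ≤ 0
      rcases σ (Sum.inr j) with e' | j'
      · rw [Matrix.fromBlocks_apply₁₂, Matrix.of_apply, totalDegree_C]
      · rw [Matrix.fromBlocks_apply₂₂, Matrix.map_apply, totalDegree_C]
  refine (Finset.sum_le_sum fun i _ => h2 i).trans ?_
  rw [Fintype.sum_sum_type]
  simp

end Pool.Agent.QH
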