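import Pool.Agent.QH.FpA

set_option autoImplicit false

/-!
QH-FpB. Polynomial time: the parameters.

Plan: unary lists: `List.range (u.length + 1)` (`FP.range` of `true :: u`), `x ^ (τ + 1)` by iterated `FP.natMul` (`τ` is a constant: induction on `τ`, lemma `FP (f a ^ k)`), `FP.filter` needs a context (`decide (x ^ (τ + 1) ≤ u.length)`):
filter by `flatMap`/`map` with context (`fp_flatMap`, `fp_map` of `Helper6/SP/FQ.lean`: `l.filter c = l.flatMap fun x => if c x then [x] else []`), `FP.natLe`, `FP.length`. `lv`: `FP.natAdd`, `FP.natMul`, constant powers, `fp_size`.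
`kc`: `s / m` by `fp_div` with `W = u` (`min s u.length = s`).
-/

namespace Pool.Agent.QH

open N487b59b3 N68a2faeb Pool.Agent.Helper22 Pool.Agent.Helper6.WB Pool.Agent.Helper47.TR

private theorem fpb_filter {α β : Type} [N487b59b3 α] [N487b59b3 β] [Inhabited β] {f : α → List β}
    {h : α × β → Bool} (hf : FP f) (hh : FP h) : FP fun a => (f a).filter fun b => h (a, b) := by
  have h1 : FP fun p : α × β => if h p then [p.2] else ([] : List β) :=
    FP.ite hh (FP.cons FP.snd (FP.const [])) (FP.const [])
  have h2 : FP fun a => (f a).flatMap fun b =>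
      (fun p : α × β => if h p then [p.2] else ([] : List β)) (a, b) :=
    (fp_flatMap_ctx h1).comp (FP.id.pair hf)
  refine (congrArg FP (funext fun a => ?_)).mp h2
  induction f a with
  | nil => rfl
  | cons x l ih =>
    rw [List.flatMap_cons, ih, List.filter_cons]
    by_cases hx : h (a, x) = true
    · simp only [hx, if_true]
      rfl
    · simp only [hx]
      rfl

private theorem fpb_pow {α : Type} [N487b59b3 α] {f : α → ℕ} (hf : FP f) (k : ℕ) :
    FP fun a => f a ^ k := by
  induction k with
  | zero => exact FP.const 1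
  | succ k ih => exact FP.natMul ih hf

theorem fp_rt (τ : ℕ) : FP fun u : List Bool => rt τ u.length := by
  have h1 : FP fun u : List Bool => List.range (true :: u).length :=
    FP.range (FP.cons (FP.const true) FP.id)
  have h2 : FP fun q : List Bool × ℕ => decide (q.2 ^ (τ + 1) ≤ q.1.length) :=
    FP.natLe (fpb_pow FP.snd (τ + 1)) (FP.length FP.fst)
  exact FP.length (fpb_filter h1 h2)

theorem fp_rtc (d : ℕ) : FP fun u : List Bool => rtc d u.length := by
  have h1 : FP fun u : List Bool => List.range (true :: u).length :=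
    FP.range (FP.cons (FP.const true) FP.id)
  have h2 : FP fun q : List Bool × ℕ => decide (q.2 ^ d + 1 ≤ q.1.length) :=
    FP.natLe (FP.natAdd (fpb_pow FP.snd d) (FP.const 1)) (FP.length FP.fst)
  have h3 : FP fun q : List Bool × ℕ => decide (q.2 ^ d < q.1.length) := by
    refine (congrArg FP (funext fun q => ?_)).mp h2
    rw [decide_eq_decide]
    exact Nat.lt_iff_add_one_le.symm
  exact FP.length (fpb_filter h1 h3)

theorem fp_lv (τ c d : ℕ) : FP fun u : List Bool => lv τ c d (rt τ u.length) := by
  have h0 := fp_rt τ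
  have h1 : FP fun u : List Bool => c * (rt τ u.length + 1) ^ τ :=
    FP.natMul (FP.const c) (fpb_pow (FP.natAdd h0 (FP.const 1)) τ)
  have h2 : FP fun u : List Bool => rt τ u.length * 2 ^ (d - 1) :=
    FP.natMul h0 (FP.const (2 ^ (d - 1)))
  have h3 : FP fun u : List Bool => 2 * (c * (rt τ u.length + 1) ^ τ +
      rt τ u.length * 2 ^ (d - 1)) := FP.natMul (FP.const 2) (FP.natAdd h1 h2)
  exact FP.natAdd (fp_size h3) (FP.const 1)

theorem fp_kc (τ : ℕ) : FP fun u : List Bool => kc u.length (rt τ u.length) := by
  have h1 : FP fun u : List Bool => min u.length u.length / rt τ u.length :=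
    fp_div (FP.length FP.id) (fp_rt τ) (W := fun u : List Bool => u) FP.id
  have h2 : FP fun u : List Bool => 2 * (min u.length u.length / rt τ u.length) + 1 :=
    FP.natAdd (FP.natMul (FP.const 2) h1) (FP.const 1)
  refine (congrArg FP (funext fun u => ?_)).mp h2
  rw [min_self]
  rfl

end Pool.Agent.QH
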