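import Pool.Agent.QH.FpB
import Pool.Agent.QH.Spec

set_option autoImplicit false

/-!
The points of the hitting set are computable in polynomial time: sums, products and powers over
ranges bounded by a unary list, the digits of a number, and the generator.
-/

namespace Pool.Agent.QH

open N487b59b3 N68a2faeb Pool.Agent.Helper22 Pool.Agent.Helper6.WB Pool.Agent.Helper47.TR

section

variable {α : Type} [N487b59b3 α]

private theorem fpt_sum_range (N : ℕ) (f : ℕ → ℕ) :
    ((List.range N).map f).sum = ∑ i ∈ Finset.range N, f i := by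
  induction N with
  | zero => simp
  | succ N ih =>
    rw [List.range_succ, List.map_append, List.sum_append, ih, Finset.sum_range_succ]
    simp

private theorem fpt_prod_range (N : ℕ) (f : ℕ → ℕ) :
    ((List.range N).map f).prod = ∏ i ∈ Finset.range N, f i := by
  induction N with
  | zero => simp
  | succ N ih =>
    rw [List.range_succ, List.map_append, List.prod_append, ih, Finset.prod_range_succ]
    simp

private theorem fpt_min {f g : α → ℕ} (hf : FP f) (hg : FP g) : FP fun a => min (f a) (g a) := by
  refine (congrArg FP (funext fun a => ?_)).mp (FP.ite (FP.natLe hf hg) hf hg)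
  by_cases h : f a ≤ g a
  · simp [h]
  · rw [min_eq_right (by omega)]
    simp [h]

/-- sums over a range with a unary bound -/
private theorem fpt_sum {N : α → ℕ} {U : α → List Bool} {h : α × ℕ → ℕ} (hN : FP N) (hU : FP U)
    (hh : FP h) : FP fun a => ∑ x ∈ Finset.range (min (N a) (U a).length), h (a, x) := by
  have h1 : FP fun q : α × ℕ => if decide (N q.1 ≤ q.2) then 0 else h q :=
    FP.ite (FP.natLe (hN.comp FP.fst) FP.snd) (FP.const 0) hh
  have h2 := fp_natSum (Pool.Agent.Helper6.SP.fp_map (FP.range hU) h1)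
  refine (congrArg FP (funext fun a => ?_)).mp h2
  simp only
  rw [fpt_sum_range]
  symm
  calc ∑ x ∈ Finset.range (min (N a) (U a).length), h (a, x)
      = ∑ x ∈ Finset.range (min (N a) (U a).length),
          (if decide (N a ≤ x) = true then 0 else h (a, x)) := by
        refine Finset.sum_congr rfl fun x hx => ?_
        have h3 := Finset.mem_range.1 hx
        rw [if_neg]
        rw [decide_eq_true_iff]
        omega
    _ = _ := by
        refine Finset.sum_subset ?_ fun x hx hx' => ?_
        · intro x hx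
          have h3 := Finset.mem_range.1 hx
          exact Finset.mem_range.2 (by omega)
        · rw [Finset.mem_range] at hx hx'
          rw [if_pos]
          rw [decide_eq_true_iff]
          omega

/-- products over a range with a unary bound -/
private theorem fpt_prod {N : α → ℕ} {U : α → List Bool} {h : α × ℕ → ℕ} (hN : FP N) (hU : FP U)
    (hh : FP h) : FP fun a => ∏ x ∈ Finset.range (min (N a) (U a).length), h (a, x) := by
  have h1 : FP fun q : α × ℕ => if decide (N q.1 ≤ q.2) then 1 else h q :=
    FP.ite (FP.natLe (hN.comp FP.fst) FP.snd) (FP.const 1) hh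
  have h2 := Pool.Agent.PQ.fp_natProd (Pool.Agent.Helper6.SP.fp_map (FP.range hU) h1)
  refine (congrArg FP (funext fun a => ?_)).mp h2
  simp only
  rw [fpt_prod_range]
  symm
  calc ∏ x ∈ Finset.range (min (N a) (U a).length), h (a, x)
      = ∏ x ∈ Finset.range (min (N a) (U a).length),
          (if decide (N a ≤ x) = true then 1 else h (a, x)) := by
        refine Finset.prod_congr rfl fun x hx => ?_
        have h3 := Finset.mem_range.1 hx
        rw [if_neg]
        rw [decide_eq_true_iff]
        omega
    _ = _ := by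
        refine Finset.prod_subset ?_ fun x hx hx' => ?_
        · intro x hx
          have h3 := Finset.mem_range.1 hx
          exact Finset.mem_range.2 (by omega)
        · rw [Finset.mem_range] at hx hx'
          rw [if_pos]
          rw [decide_eq_true_iff]
          omega

private theorem fpt_pow {f g : α → ℕ} {U : α → List Bool} (hf : FP f) (hg : FP g) (hU : FP U) :
    FP fun a => f a ^ min (g a) (U a).length := by
  have h1 := fpt_prod hg hU (hf.comp (FP.fst (α := α) (β := ℕ)))
  refine (congrArg FP (funext fun a => ?_)).mp h1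
  simp only
  rw [Finset.prod_const, Finset.card_range]

private theorem fpt_powC {f : α → ℕ} (hf : FP f) (k : ℕ) : FP fun a => f a ^ k := by
  have h1 := fpt_pow hf (FP.const k) (FP.const (List.replicate k true))
  refine (congrArg FP (funext fun a => ?_)).mp h1
  simp only [List.length_replicate, min_self]

private theorem fpt_digeq {i w : ℕ} (s j : ℕ) (h : i ≤ w) :
    i / (s + 1) ^ min j w % (s + 1) = i / (s + 1) ^ j % (s + 1) := by
  rcases Nat.eq_zero_or_pos s with rfl | hs
  · rw [zero_add, Nat.mod_one, Nat.mod_one]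
  · by_cases hj : j ≤ w
    · rw [min_eq_left hj]
    · rw [min_eq_right (by omega)]
      have h1 : w < 2 ^ w := Nat.lt_two_pow_self
      have h2 : 2 ^ w ≤ (s + 1) ^ w := Nat.pow_le_pow_left (by omega) w
      have h3 : (s + 1) ^ w ≤ (s + 1) ^ j := Nat.pow_le_pow_right (by omega) (by omega)
      rw [Nat.div_eq_of_lt (by omega), Nat.div_eq_of_lt (by omega)]

/-- the digits -/
private theorem fpt_dig {u W : α → List Bool} {i j : α → ℕ} (hu : FP u) (hW : FP W) (hi : FP i)
    (hj : FP j) : FP fun a =>
      min (i a) (W a).length / ((u a).length + 1) ^ j a % ((u a).length + 1) := by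
  have hs : FP fun a => (u a).length + 1 := FP.natAdd (FP.length hu) (FP.const 1)
  have h1 := fpt_pow hs hj hW
  have h2 := fp_div hi h1 hW
  have h3 := fp_mod h2 hs hW
  refine (congrArg FP (funext fun a => ?_)).mp h3
  have h4 : min (i a) (W a).length / ((u a).length + 1) ^ min (j a) (W a).length ≤
      (W a).length := (Nat.div_le_self _ _).trans (min_le_right _ _)
  rw [min_eq_left h4, fpt_digeq _ _ (min_le_right _ _)]

private theorem fpt_hsh {b v x : α → ℕ} {V : α → List Bool} (d : ℕ) (hb : FP b) (hv : FP v)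
    (hV : FP V) (hx : FP x) : FP fun a => hsh (b a) d (min (v a) (V a).length) (x a) := by
  have hR : FP fun _ : α × ℕ => List.replicate d true := FP.const _
  have h1 : FP fun q : α × ℕ => b q.1 ^ min q.2 (List.replicate d true).length :=
    fpt_pow (hb.comp FP.fst) FP.snd hR
  have h2 : FP fun q : α × ℕ => x q.1 ^ min q.2 (List.replicate d true).length :=
    fpt_pow (hx.comp FP.fst) FP.snd hR
  have h3 := fp_div (hv.comp (FP.fst (α := α) (β := ℕ))) h1 (hV.comp FP.fst)
  have h4 := fp_mod h3 (hb.comp FP.fst) (hV.comp FP.fst)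
  have h5 := fpt_sum (FP.const d) (FP.const (List.replicate d true)) (FP.natMul h4 h2)
  refine (congrArg FP (funext fun a => ?_)).mp h5
  simp only [List.length_replicate, min_self, hsh]
  refine Finset.sum_congr rfl fun i hi => ?_
  have h6 := Finset.mem_range.1 hi
  have h7 : min (v a) (V a).length / b a ^ i ≤ (V a).length :=
    (Nat.div_le_self _ _).trans (min_le_right _ _)
  rw [min_eq_left h6.le, min_eq_left h7]

/-- the digit number `j` of the clamped input -/
private def fptd (u W : α → List Bool) (i : α → ℕ) (a : α) (j : ℕ) : ℕ :=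
  min (i a) (W a).length / ((u a).length + 1) ^ j % ((u a).length + 1)

/-- the block of the clamped input -/
private def fptb (u W : α → List Bool) (i v K : α → ℕ) (a : α) : ℕ :=
  ((Finset.range (K a)).filter fun k => fptd u W i a k ≤ min (v a) (u a).length).card

private theorem fpt_b {u W U : α → List Bool} {i v K : α → ℕ} (hu : FP u) (hW : FP W) (hU : FP U)
    (hi : FP i) (hv : FP v) (hK : FP K) (hKU : ∀ a, K a ≤ (U a).length) :
    FP (fptb u W i v K) := by
  have h1 : FP fun q : α × ℕ => fptd u W i q.1 q.2 :=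
    fpt_dig (hu.comp FP.fst) (hW.comp FP.fst) (hi.comp FP.fst) FP.snd
  have h2 : FP fun q : α × ℕ => min (v q.1) (u q.1).length :=
    (fpt_min hv (FP.length hu)).comp FP.fst
  have h3 : FP fun q : α × ℕ =>
      if decide (fptd u W i q.1 q.2 ≤ min (v q.1) (u q.1).length) then 1 else 0 :=
    FP.ite (FP.natLe h1 h2) (FP.const 1) (FP.const 0)
  have h4 := fpt_sum hK hU h3
  refine (congrArg FP (funext fun a => ?_)).mp h4
  simp only
  rw [min_eq_left (hKU a), fptb, Finset.card_filter]
  refine Finset.sum_congr rfl fun k _ => ?_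
  simp only [decide_eq_true_eq]

private theorem fpt_gen {u W U : α → List Bool} {i v K L b : α → ℕ} (d : ℕ) (hu : FP u)
    (hW : FP W) (hU : FP U) (hi : FP i) (hv : FP v) (hK : FP K) (hL : FP L) (hb : FP b)
    (hKU : ∀ a, K a ≤ (U a).length) (hLU : ∀ a, 2 ^ L a ≤ (U a).length) :
    FP fun a => gen (b a) d (L a)
      (fun v => ((Finset.range (K a)).filter fun k => min (i a) (W a).length /
        ((u a).length + 1) ^ k % ((u a).length + 1) ≤ v).card)
      (fun S => min (i a) (W a).length / ((u a).length + 1) ^ (2 * K a + 1 + S) %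
        ((u a).length + 1))
      (fun k => min (i a) (W a).length / ((u a).length + 1) ^ (K a + k) % ((u a).length + 1))
      (fun k x h => min (i a) (W a).length / ((u a).length + 1) ^
        (2 * K a + 1 + 2 ^ L a + ((k * L a + x) * qb (b a) d (L a) + h)) % ((u a).length + 1))
      (min (v a) (u a).length) := by
  have hLU' : ∀ a, L a ≤ (U a).length := fun a => Nat.lt_two_pow_self.le.trans (hLU a)
  have hd : FP fun q : α × ℕ => fptd u W i q.1 q.2 :=
    fpt_dig (hu.comp FP.fst) (hW.comp FP.fst) (hi.comp FP.fst) FP.snd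
  have hB : FP (fptb u W i v K) := fpt_b hu hW hU hi hv hK hKU
  have h2L : FP fun a => 2 ^ L a := by
    have h1 := fpt_pow (FP.const 2) hL hU
    refine (congrArg FP (funext fun a => ?_)).mp h1
    rw [min_eq_left (hLU' a)]
  have hqb : FP fun a => qb (b a) d (L a) :=
    FP.natAdd (FP.natMul (FP.natMul (FP.const d) hb) (fpt_powC hL d)) (FP.const 1)
  -- the factor number `x`
  have hh : FP fun q : α × ℕ => hsh (b q.1) d (min (v q.1) (u q.1).length) q.2 :=
    fpt_hsh d (hb.comp FP.fst) (hv.comp FP.fst) (hu.comp FP.fst) FP.snd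
  have h2K : FP fun a => 2 * K a + 1 := FP.natAdd (FP.natMul (FP.const 2) hK) (FP.const 1)
  have hy : FP fun q : α × ℕ => fptd u W i q.1 (2 * K q.1 + 1 + 2 ^ L q.1 +
      ((fptb u W i v K q.1 * L q.1 + q.2) * qb (b q.1) d (L q.1) +
        hsh (b q.1) d (min (v q.1) (u q.1).length) q.2)) := by
    have h1 : FP fun q : α × ℕ => fptb u W i v K q.1 * L q.1 + q.2 :=
      FP.natAdd (FP.natMul (hB.comp FP.fst) (hL.comp FP.fst)) FP.snd
    have h2 : FP fun q : α × ℕ => 2 * K q.1 + 1 + 2 ^ L q.1 +
        ((fptb u W i v K q.1 * L q.1 + q.2) * qb (b q.1) d (L q.1) +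
          hsh (b q.1) d (min (v q.1) (u q.1).length) q.2) :=
      FP.natAdd (FP.natAdd (h2K.comp FP.fst) (h2L.comp FP.fst))
        (FP.natAdd (FP.natMul h1 (hqb.comp FP.fst)) hh)
    exact hd.comp (FP.pair FP.fst h2)
  -- the product number `S`
  have ht : FP fun r : (α × ℕ) × ℕ =>
      min (min r.1.2 (U r.1.1).length / 2 ^ min r.2 (U r.1.1).length) (U r.1.1).length % 2 := by
    have hU2 : FP fun r : (α × ℕ) × ℕ => U r.1.1 := hU.comp (FP.fst.comp FP.fst)
    have h1 : FP fun r : (α × ℕ) × ℕ => 2 ^ min r.2 (U r.1.1).length :=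
      fpt_pow (FP.const 2) FP.snd hU2
    exact fp_mod (fp_div (FP.snd.comp FP.fst) h1 hU2) (FP.const 2) hU2
  have hyr : FP fun r : (α × ℕ) × ℕ => fptd u W i r.1.1 (2 * K r.1.1 + 1 + 2 ^ L r.1.1 +
      ((fptb u W i v K r.1.1 * L r.1.1 + r.2) * qb (b r.1.1) d (L r.1.1) +
        hsh (b r.1.1) d (min (v r.1.1) (u r.1.1).length) r.2)) :=
    hy.comp (FP.pair (FP.fst.comp FP.fst) FP.snd)
  have hpr := fpt_prod (hL.comp (FP.fst (α := α) (β := ℕ))) (hU.comp FP.fst)
    (FP.ite (FP.natEq ht (FP.const 1)) hyr (FP.const 1))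
  have hth : FP fun q : α × ℕ => fptd u W i q.1 (2 * K q.1 + 1 + q.2) :=
    hd.comp (FP.pair FP.fst (FP.natAdd (h2K.comp FP.fst) FP.snd))
  have hsum := fpt_sum h2L hU (FP.natMul hth hpr)
  have hz : FP fun a => fptd u W i a (K a + fptb u W i v K a) :=
    hd.comp (FP.pair FP.id (FP.natAdd hK hB))
  refine (congrArg FP (funext fun a => ?_)).mp (FP.natAdd hz hsum)
  simp only
  rw [min_eq_left (hLU a), min_eq_left (hLU' a)]
  change _ = fptd u W i a (K a + fptb u W i v K a) + ∑ S ∈ Finset.range (2 ^ L a),
    fptd u W i a (2 * K a + 1 + S) * ∏ x ∈ (Finset.range (L a)).filter (fun x => S.testBit x),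
      fptd u W i a (2 * K a + 1 + 2 ^ L a + ((fptb u W i v K a * L a + x) * qb (b a) d (L a) +
        hsh (b a) d (min (v a) (u a).length) x))
  refine congrArg₂ _ rfl (Finset.sum_congr rfl fun S hS => congrArg₂ _ rfl ?_)
  rw [Finset.prod_filter]
  refine Finset.prod_congr rfl fun x hx => ?_
  have hS' := Finset.mem_range.1 hS
  have hx' := Finset.mem_range.1 hx
  have h1 := hLU a
  have h2 := hLU' a
  have h3 : S / 2 ^ x ≤ (U a).length := (Nat.div_le_self _ _).trans (by omega)
  rw [min_eq_left (show S ≤ (U a).length by omega), min_eq_left (show x ≤ (U a).length by omega),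
    min_eq_left h3, Nat.testBit_eq_decide_div_mod_eq]

end

theorem fp_ptS (τ c d : ℕ) : FP fun p : List Bool × (List Bool × (ℕ × ℕ)) =>
    ptS τ c d p.1.length (min p.2.2.1 p.2.1.length) (min p.2.2.2 p.1.length) := by
  set q : Polynomial ℕ := Polynomial.C 8 * (Polynomial.C c * (Polynomial.X + Polynomial.C 2) ^ τ +
    (Polynomial.X + Polynomial.C 1) * Polynomial.C (2 ^ (d - 1))) +
    (Polynomial.C 2 * Polynomial.X + Polynomial.C 2) with hq
  have hu : FP fun p : List Bool × (List Bool × (ℕ × ℕ)) => p.1 := FP.fst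
  have hW : FP fun p : List Bool × (List Bool × (ℕ × ℕ)) => p.2.1 := FP.fst.comp FP.snd
  have hi : FP fun p : List Bool × (List Bool × (ℕ × ℕ)) => p.2.2.1 :=
    FP.fst.comp (FP.snd.comp FP.snd)
  have hv : FP fun p : List Bool × (List Bool × (ℕ × ℕ)) => p.2.2.2 :=
    FP.snd.comp (FP.snd.comp FP.snd)
  have hU : FP fun p : List Bool × (List Bool × (ℕ × ℕ)) => un (q.eval p.1.length) :=
    FP.un_poly hu q
  have hrt : ∀ s, rt τ s ≤ s + 1 := by
    intro s
    unfold rt
    refine (List.length_filter_le _ _).trans ?_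
    rw [List.length_range]
  have hqe : ∀ s, q.eval s = 8 * (c * (s + 2) ^ τ + (s + 1) * 2 ^ (d - 1)) + (2 * s + 2) := by
    intro s
    rw [hq]
    simp
  have hK : ∀ p : List Bool × (List Bool × (ℕ × ℕ)),
      kc p.1.length (rt τ p.1.length) ≤ (un (q.eval p.1.length)).length := by
    intro p
    rw [Helper22.un_length, hqe]
    unfold kc
    have h1 := Nat.div_le_self p.1.length (rt τ p.1.length)
    omega
  have hL : ∀ p : List Bool × (List Bool × (ℕ × ℕ)),
      2 ^ lv τ c d (rt τ p.1.length) ≤ (un (q.eval p.1.length)).length := by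
    intro p
    rw [Helper22.un_length, hqe]
    have h1 := lv_spec τ c d (rt τ p.1.length)
    have h2 := hrt p.1.length
    rcases Nat.eq_zero_or_pos (par τ c d (rt τ p.1.length)) with h3 | h3
    · have h4 : lv τ c d (rt τ p.1.length) = 1 := by
        unfold lv
        rw [h3]
        simp
      rw [h4]
      omega
    · have h4 := h1.2.2 h3
      have h5 : par τ c d (rt τ p.1.length) ≤
          c * (p.1.length + 2) ^ τ + (p.1.length + 1) * 2 ^ (d - 1) := by
        unfold par
        exact add_le_add (Nat.mul_le_mul_left _ (Nat.pow_le_pow_left (by omega) _))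
          (Nat.mul_le_mul_right _ h2)
      omega
  have h := fpt_gen d hu hW hU hi hv ((fp_kc τ).comp hu) ((fp_lv τ c d).comp hu)
    ((fp_rtc d).comp hu) hK hL
  exact h

end Pool.Agent.QH
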