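import Mathlib

set_option autoImplicit false

/-!
QH-Grid. A nonzero polynomial over an extension of `ℚ` does not vanish at the vertices of some
rational box: apply the existence of a rational non-root to the product of all renamings of the
polynomial to two copies of the variables, times the differences of the two copies.
-/

namespace Pool.Agent.QH

open MvPolynomial

private theorem eval_congr_vars {K : Type} [Field K] (R : MvPolynomial ℕ K) (f g : ℕ → K)
    (h : ∀ a ∈ R.vars, f a = g a) : eval f R = eval g R := by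
  have h1 : eval₂Hom (RingHom.id K) f R = eval₂Hom (RingHom.id K) g R :=
    eval₂Hom_congr' rfl (fun i hi _ => h i hi) rfl
  exact h1

private theorem exists_rat {K : Type} [Field K] [Algebra ℚ K] {σ : Type}
    (G : MvPolynomial σ K) (hG : G ≠ 0) :
    ∃ x : σ → ℚ, eval (fun a => algebraMap ℚ K (x a)) G ≠ 0 := by
  by_contra hno
  push Not at hno
  apply hG
  have hinf : (Set.range (algebraMap ℚ K)).Infinite :=
    Set.infinite_range_of_injective (algebraMap ℚ K).injective
  apply MvPolynomial.funext_set (fun _ => Set.range (algebraMap ℚ K)) (fun _ => hinf)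
  intro x hx
  rw [map_zero]
  have h1 : ∀ a, ∃ y : ℚ, algebraMap ℚ K y = x a := fun a => hx a (Set.mem_univ a)
  choose y hy using h1
  have h2 : (fun a => algebraMap ℚ K (y a)) = x := funext hy
  have h3 := hno y
  rwa [h2] at h3

theorem grid {K : Type} [Field K] [Algebra ℚ K] (R : MvPolynomial ℕ K) (hR : R ≠ 0) :
    ∃ r r' : ℕ → ℚ, (∀ a, r a ≠ r' a) ∧ ∀ T : Finset ℕ,
      eval (fun a => algebraMap ℚ K (if a ∈ T then r' a else r a)) R ≠ 0 := by
  classical
  set V := R.vars with hV
  set ρ : Finset ℕ → ℕ → ℕ ⊕ ℕ := fun T a => if a ∈ T then Sum.inr a else Sum.inl a with hρ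
  have hρi : ∀ T, Function.Injective (ρ T) := by
    intro T a b hab
    simp only [hρ] at hab
    split_ifs at hab with h1 h2 h2
    · exact Sum.inr.inj hab
    · exact Sum.inl.inj hab
  have hG : (∏ T ∈ V.powerset, rename (ρ T) R) *
      ∏ a ∈ V, (X (Sum.inl a) - X (Sum.inr a) : MvPolynomial (ℕ ⊕ ℕ) K) ≠ 0 := by
    apply mul_ne_zero
    · rw [Finset.prod_ne_zero_iff]
      intro T _ h0
      exact hR (rename_injective _ (hρi T) (by rw [h0, map_zero]))
    · rw [Finset.prod_ne_zero_iff]
      intro a _ h0
      have h1 := congrArg (eval (fun s : ℕ ⊕ ℕ => Sum.elim (fun _ => (1 : K)) (fun _ => 0) s)) h0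
      rw [map_sub, eval_X, eval_X, map_zero] at h1
      simp at h1
  obtain ⟨x, hx⟩ := exists_rat _ hG
  rw [map_mul, map_prod, map_prod] at hx
  have hx1 := left_ne_zero_of_mul hx
  have hx2 := right_ne_zero_of_mul hx
  rw [Finset.prod_ne_zero_iff] at hx1 hx2
  refine ⟨fun a => if a ∈ V then x (Sum.inl a) else 0, fun a => if a ∈ V then x (Sum.inr a) else 1,
    ?_, ?_⟩
  · intro a
    by_cases ha : a ∈ V
    · simp only [if_pos ha]
      intro h
      apply hx2 a ha
      rw [map_sub, eval_X, eval_X, h, sub_self]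
    · simp only [if_neg ha]
      exact zero_ne_one
  · intro T
    have h1 := hx1 (T ∩ V) (Finset.mem_powerset.2 Finset.inter_subset_right)
    rw [eval_rename] at h1
    rw [eval_congr_vars R _ ((fun a => algebraMap ℚ K (x a)) ∘ ρ (T ∩ V))]
    · exact h1
    · intro a ha
      simp only [Function.comp, hρ]
      by_cases haT : a ∈ T
      · rw [if_pos haT, if_pos (show a ∈ V from ha), if_pos (Finset.mem_inter.2 ⟨haT, ha⟩)]
      · rw [if_neg haT, if_pos (show a ∈ V from ha),
          if_neg (fun h => haT (Finset.mem_inter.1 h).1)]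

end Pool.Agent.QH
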