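import Pool.Agent.QH.Seeds
import Pool.Agent.QH.Cuts

set_option autoImplicit false

/-!
QH-Hit. The points of the hitting set.

Plan: `cuts` (with `n = s`) gives the cuts `t k ≤ s`, `β v` = number of the `k < kc s m` with `t k ≤ v`; `seeds` gives `ρ : Sd → ℕ` with values `≤ s` (`v < s ≤ b ^ d` for `v ∈ o`). Take the number `i < (s + 1) ^ len` whose digits in
base `s + 1` are: digit `k` is `t k` for `k < kc`; digit `kc + k` is `ρ (inr (inl k))` for `k ≤ kc`; digit `2 kc + 1 + S` is `ρ (inl S)` for `S < 2 ^ L`; digit `2 kc + 1 + 2 ^ L + ((k L + a) qb + h)` is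
`ρ (inr (inr (k, a, h)))` for `k ≤ kc`, `a < L`, `h < qb` (recover `h`, `a`, `k` from the index by `% qb`, `/ qb % L`, `/ qb / L`). `i = ∑ j < len, dg j * (s + 1) ^ j`, and
`(∑ j < n, dg j * B ^ j) / B ^ i % B = dg i` for `dg j < B`, `i < n` (`Nat.ofDigits`-like or induction on `n`/`i`). The value of `gen` at `v ∈ F.vars` only uses these seeds: `β v ≤ kc`, bits `a < L`, `hsh b d v a < qb`
(`hsh_lt`, `b > 0` as `v < s ≤ b ^ d`), so `pt s m b d L i v` equals the value of `gen` at `ρ` for those `v` (`ml_congr`). `eval` depends only on the values on `F.vars`.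
-/

namespace Pool.Agent.QH

open MvPolynomial

private theorem hit_lt {B : ℕ} {dg : ℕ → ℕ} (h : ∀ j, dg j < B) (n : ℕ) :
    ∑ j ∈ Finset.range n, dg j * B ^ j < B ^ n := by
  induction n with
  | zero => simp
  | succ n ih =>
    rw [Finset.sum_range_succ, pow_succ]
    have h1 : dg n + 1 ≤ B := h n
    calc ∑ j ∈ Finset.range n, dg j * B ^ j + dg n * B ^ n < B ^ n + dg n * B ^ n := by omega
      _ = (dg n + 1) * B ^ n := by ring
      _ ≤ B * B ^ n := Nat.mul_le_mul_right _ h1
      _ = B ^ n * B := by ring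

private theorem hit_dig {B : ℕ} {dg : ℕ → ℕ} (h : ∀ j, dg j < B) (n i : ℕ) (hi : i < n) :
    (∑ j ∈ Finset.range n, dg j * B ^ j) / B ^ i % B = dg i := by
  have hB : 0 < B := lt_of_le_of_lt (Nat.zero_le _) (h 0)
  induction n with
  | zero => omega
  | succ n ih =>
    rw [Finset.sum_range_succ]
    by_cases hin : i = n
    · subst hin
      rw [Nat.add_mul_div_right _ _ (Nat.pow_pos hB), Nat.div_eq_of_lt (hit_lt h i), zero_add,
        Nat.mod_eq_of_lt (h i)]
    · have h1 := ih (by omega)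
      have h2 : dg n * B ^ n = (dg n * B ^ (n - i - 1)) * B * B ^ i := by
        rw [mul_assoc, mul_assoc, ← pow_succ', ← pow_add]
        congr 2
        omega
      rw [h2, Nat.add_mul_div_right _ _ (Nat.pow_pos hB), Nat.add_mul_mod_self_right]
      exact h1

private theorem hit_hsh {b d v a L s : ℕ} (hv : v < s) (hb : s ≤ b ^ d) (ha : a < L) :
    hsh b d v a < qb b d L := by
  rcases Nat.eq_zero_or_pos b with h | h
  · rcases Nat.eq_zero_or_pos d with h' | h'
    · subst h'
      unfold hsh qb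
      simp
    · subst h
      rw [Nat.zero_pow h'] at hb
      omega
  · exact hsh_lt h ha

theorem hit {s m b d L : ℕ} {D : ℕ → ℕ} (hm : 0 < m) (hD : Monotone D) {o : Multiset ℕ}
    {F : MvPolynomial ℕ ℚ} (hF : Par o D F) (hv : ∀ v ∈ F.vars, v ∈ o) (ho : o.card ≤ s)
    (hos : ∀ i ∈ o, i < s) (hdeg : F.totalDegree ≤ s) (hb : s ≤ b ^ d) (hL1 : 1 ≤ L)
    (hL : D m + m * 2 ^ (d - 1) < 2 ^ (L - 1)) (h0 : F ≠ 0) :
    ∃ i < (s + 1) ^ len s m b d L, eval (fun v => (pt s m b d L i v : ℚ)) F ≠ 0 := by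
  obtain ⟨t, ht, hcut⟩ := cuts hm hos ho
  obtain ⟨ρ, hρ, hne⟩ := seeds hD hF hv hL1 hL (fun v hv => (hos v hv).trans_le hb)
    (fun v => ((Finset.range (kc s m)).filter fun k => t k ≤ v).card) hcut hdeg h0
  set K := kc s m with hK
  set Q := qb b d L with hQ
  let dg : ℕ → ℕ := fun j =>
    if j < K then t j else if j < 2 * K + 1 then ρ (Sum.inr (Sum.inl (j - K))) else
      if j < 2 * K + 1 + 2 ^ L then ρ (Sum.inl (j - (2 * K + 1))) else
        ρ (Sum.inr (Sum.inr ((j - (2 * K + 1 + 2 ^ L)) / Q / L,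
          (j - (2 * K + 1 + 2 ^ L)) / Q % L, (j - (2 * K + 1 + 2 ^ L)) % Q)))
  have hdg : ∀ j, dg j < s + 1 := by
    intro j
    show (if j < K then t j else if j < 2 * K + 1 then ρ (Sum.inr (Sum.inl (j - K))) else
      if j < 2 * K + 1 + 2 ^ L then ρ (Sum.inl (j - (2 * K + 1))) else
        ρ (Sum.inr (Sum.inr ((j - (2 * K + 1 + 2 ^ L)) / Q / L,
          (j - (2 * K + 1 + 2 ^ L)) / Q % L, (j - (2 * K + 1 + 2 ^ L)) % Q)))) < s + 1
    split_ifs
    · exact Nat.lt_succ_of_le (ht j)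
    · exact Nat.lt_succ_of_le (hρ _)
    · exact Nat.lt_succ_of_le (hρ _)
    · exact Nat.lt_succ_of_le (hρ _)
  have hlen : len s m b d L = 2 * K + 1 + 2 ^ L + (K + 1) * L * Q := rfl
  have hQ0 : 0 < Q := Nat.succ_pos _
  have h2L : 1 ≤ 2 ^ L := Nat.one_le_two_pow
  refine ⟨∑ j ∈ Finset.range (len s m b d L), dg j * (s + 1) ^ j, hit_lt hdg _, ?_⟩
  have hD' := hit_dig hdg (len s m b d L)
  generalize (∑ j ∈ Finset.range (len s m b d L), dg j * (s + 1) ^ j) = i at hD' ⊢
  have d1 : ∀ k < K, i / (s + 1) ^ k % (s + 1) = t k := by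
    intro k hk
    rw [hD' k (by rw [hlen]; omega)]
    exact if_pos hk
  have d2 : ∀ k ≤ K, i / (s + 1) ^ (K + k) % (s + 1) = ρ (Sum.inr (Sum.inl k)) := by
    intro k hk
    rw [hD' (K + k) (by rw [hlen]; omega)]
    show (if K + k < K then t (K + k) else if K + k < 2 * K + 1 then
      ρ (Sum.inr (Sum.inl (K + k - K))) else _) = _
    rw [if_neg (by omega), if_pos (by omega), Nat.add_sub_cancel_left]
  have d3 : ∀ S < 2 ^ L, i / (s + 1) ^ (2 * K + 1 + S) % (s + 1) = ρ (Sum.inl S) := by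
    intro S hS
    rw [hD' (2 * K + 1 + S) (by rw [hlen]; omega)]
    show (if 2 * K + 1 + S < K then t (2 * K + 1 + S) else if 2 * K + 1 + S < 2 * K + 1 then
      ρ (Sum.inr (Sum.inl (2 * K + 1 + S - K))) else if 2 * K + 1 + S < 2 * K + 1 + 2 ^ L then
        ρ (Sum.inl (2 * K + 1 + S - (2 * K + 1))) else _) = _
    rw [if_neg (by omega), if_neg (by omega), if_pos (by omega), Nat.add_sub_cancel_left]
  have d4 : ∀ k ≤ K, ∀ a < L, ∀ h < Q,
      i / (s + 1) ^ (2 * K + 1 + 2 ^ L + ((k * L + a) * Q + h)) % (s + 1) =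
        ρ (Sum.inr (Sum.inr (k, a, h))) := by
    intro k hk a ha h hh
    have h1 : (k * L + a) * Q + h < (K + 1) * L * Q := by
      have h2 : k * L + a + 1 ≤ (K + 1) * L := by
        have h3 : k * L ≤ K * L := Nat.mul_le_mul_right _ hk
        have h4 : (K + 1) * L = K * L + L := by ring
        omega
      calc (k * L + a) * Q + h < (k * L + a) * Q + Q := by omega
        _ = (k * L + a + 1) * Q := by ring
        _ ≤ (K + 1) * L * Q := Nat.mul_le_mul_right _ h2
    rw [hD' _ (by rw [hlen]; omega)]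
    have e1 : ((k * L + a) * Q + h) / Q = k * L + a := by
      rw [add_comm, Nat.add_mul_div_right _ _ hQ0, Nat.div_eq_of_lt hh, zero_add]
    have e2 : ((k * L + a) * Q + h) % Q = h := by
      rw [add_comm, Nat.add_mul_mod_self_right, Nat.mod_eq_of_lt hh]
    have e3 : (k * L + a) / L = k := by
      rw [add_comm, Nat.add_mul_div_right _ _ (by omega), Nat.div_eq_of_lt ha, zero_add]
    have e4 : (k * L + a) % L = a := by
      rw [add_comm, Nat.add_mul_mod_self_right, Nat.mod_eq_of_lt ha]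
    generalize hr : (k * L + a) * Q + h = r at e1 e2 ⊢
    show (if 2 * K + 1 + 2 ^ L + r < K then t (2 * K + 1 + 2 ^ L + r) else
      if 2 * K + 1 + 2 ^ L + r < 2 * K + 1 then
        ρ (Sum.inr (Sum.inl (2 * K + 1 + 2 ^ L + r - K))) else
      if 2 * K + 1 + 2 ^ L + r < 2 * K + 1 + 2 ^ L then
        ρ (Sum.inl (2 * K + 1 + 2 ^ L + r - (2 * K + 1))) else
        ρ (Sum.inr (Sum.inr ((2 * K + 1 + 2 ^ L + r - (2 * K + 1 + 2 ^ L)) / Q / L,
          (2 * K + 1 + 2 ^ L + r - (2 * K + 1 + 2 ^ L)) / Q % L,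
          (2 * K + 1 + 2 ^ L + r - (2 * K + 1 + 2 ^ L)) % Q)))) = _
    rw [if_neg (by omega), if_neg (by omega), if_neg (by omega), Nat.add_sub_cancel_left, e1, e2,
      e3, e4]
  have hval : ∀ v ∈ F.vars, pt s m b d L i v =
      gen b d L (fun v => ((Finset.range K).filter fun k => t k ≤ v).card)
        (fun S => ρ (Sum.inl S)) (fun k => ρ (Sum.inr (Sum.inl k)))
        (fun k a h => ρ (Sum.inr (Sum.inr (k, a, h)))) v := by
    intro v hvF
    have hvs : v < s := hos v (hv v hvF)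
    have hβ : ∀ v, ((Finset.range K).filter
        fun k => i / (s + 1) ^ k % (s + 1) ≤ v).card =
          ((Finset.range K).filter fun k => t k ≤ v).card := by
      intro v
      congr 1
      refine Finset.filter_congr fun k hk => ?_
      rw [d1 k (Finset.mem_range.1 hk)]
    have hβK : ((Finset.range K).filter fun k => t k ≤ v).card ≤ K :=
      (Finset.card_filter_le _ _).trans (by rw [Finset.card_range])
    unfold pt gen
    simp only [← hK, ← hQ, hβ]
    rw [d2 _ hβK]
    congr 1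
    refine ml_congr d3 fun a ha => ?_
    exact d4 _ hβK a ha _ (hit_hsh hvs hb ha)
  have heq : eval (fun v => (pt s m b d L i v : ℚ)) F =
      eval (fun v => ((gen b d L (fun v => ((Finset.range K).filter fun k => t k ≤ v).card)
        (fun S => ρ (Sum.inl S)) (fun k => ρ (Sum.inr (Sum.inl k)))
        (fun k a h => ρ (Sum.inr (Sum.inr (k, a, h)))) v : ℕ) : ℚ)) F := by
    refine hom_congr_vars ?_ ?_ rfl
    · ext
      simp
    · intro v hvF _
      rw [eval_X, eval_X, hval v hvF]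
  rw [heq]
  exact hne

end Pool.Agent.QH
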