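import Pool.Agent.QH.Hit
import Pool.Agent.QH.Num
import Pool.Agent.QH.FpPt
import Pool.Agent.QH.TreeP
import Pool.Agent.QH.DetV
import Pool.Agent.QH.DetP

set_option autoImplicit false

/-!
QH-Main. The hitting sets: the algorithm lists the points number `i` for `i < v.length ^ c`; `hit` and `num` show that one of them
works. The two final theorems are the cases `τ = 1` (trees of bilinear gates) and `τ = 2` (symbolic determinants).
-/

namespace Pool.Agent.QH

open N487b59b3 N68a2faeb MvPolynomial Pool.Agent.Helper22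

section

variable {α : Type} [N487b59b3 α]

private theorem fp_unPow {f : α → List Bool} (hf : FP f) (c : ℕ) :
    FP fun a => un ((f a).length ^ c) := by
  induction c with
  | zero =>
    refine (congrArg FP (funext fun a => ?_)).mp (FP.const (α := α) (un 1))
    rw [pow_zero]
  | succ c ih =>
    refine (congrArg FP (funext fun a => ?_)).mp (FP.unMul ih hf)
    rw [un_length, pow_succ]

end

/-- the algorithm -/
private def alg (τ c₀ d c : ℕ) (p : List Bool × List Bool) : List (List ℕ) :=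
  (List.range (p.2.length ^ c)).map fun i =>
    (List.range p.1.length).map fun x => ptS τ c₀ d p.1.length i x

private theorem fp_alg (τ c₀ d c : ℕ) : FP (alg τ c₀ d c) := by
  have hW : FP fun p : List Bool × List Bool => un (p.2.length ^ c) := fp_unPow FP.snd c
  have h1 : FP fun r : ((List Bool × List Bool) × ℕ) × ℕ =>
      ptS τ c₀ d r.1.1.1.length (min r.1.2 (un (r.1.1.2.length ^ c)).length)
        (min r.2 r.1.1.1.length) := by
    have h2 : FP fun r : ((List Bool × List Bool) × ℕ) × ℕ =>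
        (r.1.1.1, (un (r.1.1.2.length ^ c), (r.1.2, r.2))) := by
      refine FP.pair (FP.fst.comp (FP.fst.comp FP.fst)) (FP.pair ?_ (FP.pair ?_ FP.snd))
      · exact hW.comp (FP.fst.comp FP.fst)
      · exact FP.snd.comp FP.fst
    have h6 := (fp_ptS τ c₀ d).comp h2
    exact h6
  have h3 : FP fun q : (List Bool × List Bool) × ℕ => (List.range q.1.1.length).map fun x =>
      ptS τ c₀ d q.1.1.length (min q.2 (un (q.1.2.length ^ c)).length) (min x q.1.1.length) := by
    have h4 : FP fun q : (List Bool × List Bool) × ℕ => List.range q.1.1.length :=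
      Pool.Agent.Helper6.WB.FP.range (FP.fst.comp FP.fst)
    have h6 := Pool.Agent.Helper6.SP.fp_map h4 h1
    exact h6
  have h5 : FP fun p : List Bool × List Bool =>
      (List.range (un (p.2.length ^ c)).length).map fun i => (List.range p.1.length).map fun x =>
        ptS τ c₀ d p.1.length (min i (un (p.2.length ^ c)).length) (min x p.1.length) := by
    have h6 := Pool.Agent.Helper6.SP.fp_map (Pool.Agent.Helper6.WB.FP.range hW) h3
    exact h6
  refine (congrArg FP (funext fun p => ?_)).mp h5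
  unfold alg
  rw [un_length]
  apply List.map_congr_left
  intro i hi
  apply List.map_congr_left
  intro x hx
  rw [min_eq_left (List.mem_range.1 hi).le, min_eq_left (List.mem_range.1 hx).le]

private theorem par_mono {o : Multiset ℕ} {D D' : ℕ → ℕ} {F : MvPolynomial ℕ ℚ} (h : Par o D F)
    (hD : ∀ m, D m ≤ D' m) : Par o D' F := by
  intro K A _ _ _ _ _ _ σ B _ ρ hσ
  obtain ⟨T, hT, h1⟩ := h K A σ B ρ hσ
  exact ⟨T, hT.trans (hD _), h1⟩

theorem core {τ : ℕ} (hτ : 1 ≤ τ) (c₀ : ℕ) {ε : ℝ} (hε : 0 < ε) :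
    ∃ g : List Bool × List Bool → List (List ℕ), N68a2faeb.IsPolyTime g ∧
      ∀ u v : List Bool, (2 : ℝ) ^ ((u.length : ℝ) ^ ((τ : ℝ) / (τ + 1) + ε)) ≤ v.length →
        ∀ (o : Multiset ℕ) (F : MvPolynomial ℕ ℚ), Par o (fun m => c₀ * (m + 1) ^ τ) F →
          (∀ i ∈ F.vars, i ∈ o) → o.card ≤ u.length → (∀ i ∈ o, i < u.length) →
          F.totalDegree ≤ o.card → F ≠ 0 →
            ∃ x ∈ g (u, v), eval (fun i => (x.getD i 0 : ℚ)) F ≠ 0 := by
  obtain ⟨d, c, hd, hnum⟩ := num hτ c₀ hε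
  refine ⟨alg τ c₀ d c, (isPolyTime_iff _).2 (fp_alg τ c₀ d c), ?_⟩
  intro u v huv o F hF hv ho hos hdeg h0
  obtain ⟨s, hs⟩ : ∃ s, s = u.length := ⟨_, rfl⟩
  rw [← hs] at huv ho hos
  have hm := (rt_spec τ s).2.2
  have hb := (rtc_spec hd s).1
  have hL := lv_spec τ c₀ d (rt τ s)
  have hD : Monotone fun m : ℕ => c₀ * (m + 1) ^ τ := by
    intro a b hab
    exact Nat.mul_le_mul_left _ (Nat.pow_le_pow_left (Nat.succ_le_succ hab) _)
  obtain ⟨i, hi, hev⟩ := hit (s := s) (m := rt τ s) (b := rtc d s) (d := d)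
    (L := lv τ c₀ d (rt τ s)) hm hD hF hv ho hos (hdeg.trans ho) hb hL.1 hL.2.1 h0
  have hiv : i < v.length ^ c := by
    have h1 : ((s : ℝ) + 1) ^ len s (rt τ s) (rtc d s) d (lv τ c₀ d (rt τ s)) ≤
        (v.length : ℝ) ^ c := by
      refine (hnum s).trans ?_
      rw [mul_comm, Real.rpow_mul (by norm_num), Real.rpow_natCast]
      exact pow_le_pow_left₀ (Real.rpow_nonneg (by norm_num) _) huv c
    have h2 : (s + 1) ^ len s (rt τ s) (rtc d s) d (lv τ c₀ d (rt τ s)) ≤ v.length ^ c := by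
      exact_mod_cast h1
    exact hi.trans_le h2
  refine ⟨(List.range u.length).map fun x => ptS τ c₀ d u.length i x, ?_, ?_⟩
  · exact List.mem_map.2 ⟨i, List.mem_range.2 hiv, rfl⟩
  · rw [← hs]
    have h3 : eval (fun w => (((List.range s).map fun x => ptS τ c₀ d s i x).getD w 0 : ℚ)) F =
        eval (fun w => (pt s (rt τ s) (rtc d s) d (lv τ c₀ d (rt τ s)) i w : ℚ)) F := by
      refine eval₂Hom_congr' rfl (fun w hw _ => ?_) rfl
      have hws : w < s := hos w (hv w hw)
      have h4 : ((List.range s).map fun x => ptS τ c₀ d s i x).getD w 0 =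
          ptS τ c₀ d s i w := by
        rw [List.getD_eq_getElem?_getD, List.getElem?_map, List.getElem?_range hws]
        rfl
      rw [h4]
      rfl
    rw [h3]
    exact hev

/-- **Main theorem for formulas.** -/
theorem mainT (w : ℕ) {ε : ℝ} (hε : 0 < ε) :
    ∃ g : List Bool × List Bool → List (List ℕ), N68a2faeb.IsPolyTime g ∧
      ∀ u v : List Bool, (2 : ℝ) ^ ((u.length : ℝ) ^ (1 / 2 + ε)) ≤ v.length →
        ∀ (o : Multiset ℕ) (f : Fin w → MvPolynomial ℕ ℚ), Tree w o f → o.card ≤ u.length →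
          (∀ i ∈ o, i < u.length) → ∀ j, f j ≠ 0 →
            ∃ x ∈ g (u, v), eval (fun i => (x.getD i 0 : ℚ)) (f j) ≠ 0 := by
  obtain ⟨g, hg, h⟩ := core (τ := 1) le_rfl (2 * (w ^ 2 + w) + w) hε
  refine ⟨g, hg, fun u v huv o f hf ho hos j hj => ?_⟩
  refine h u v ?_ o (f j) (par_mono (hf.par j) fun m => ?_) (hf.vars j) ho hos (hf.deg j) hj
  · have h1 : (((1 : ℕ) : ℝ) / (((1 : ℕ) : ℝ) + 1) + ε) = 1 / 2 + ε := by norm_num
    rw [h1]
    exact huv
  · show 2 * (w ^ 2 + w) * m + w ≤ (2 * (w ^ 2 + w) + w) * (m + 1) ^ 1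
    rw [pow_one]
    nlinarith [Nat.zero_le (w * m)]

/-- **Main theorem for symbolic determinants.** -/
theorem mainD {ε : ℝ} (hε : 0 < ε) :
    ∃ g : List Bool × List Bool → List (List ℕ), N68a2faeb.IsPolyTime g ∧
      ∀ u v : List Bool, (2 : ℝ) ^ ((u.length : ℝ) ^ (2 / 3 + ε)) ≤ v.length →
        ∀ (o : Multiset ℕ) (F : MvPolynomial ℕ ℚ), Sdet o F → o.card ≤ u.length →
          (∀ i ∈ o, i < u.length) → F ≠ 0 →
            ∃ x ∈ g (u, v), eval (fun i => (x.getD i 0 : ℚ)) F ≠ 0 := by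
  obtain ⟨g, hg, h⟩ := core (τ := 2) one_le_two 1 hε
  refine ⟨g, hg, fun u v huv o F hF ho hos hj => ?_⟩
  refine h u v ?_ o F (par_mono hF.par fun m => ?_) hF.vars ho hos hF.deg hj
  · have h1 : (((2 : ℕ) : ℝ) / (((2 : ℕ) : ℝ) + 1) + ε) = 2 / 3 + ε := by norm_num
    rw [h1]
    exact huv
  · show m ^ 2 + 1 ≤ 1 * (m + 1) ^ 2
    have h2 : 1 * (m + 1) ^ 2 = m ^ 2 + 1 + 2 * m := by ring
    rw [h2]
    exact Nat.le_add_right _ _

end Pool.Agent.QH
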