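import Pool.Agent.QH.Ml
import Pool.Agent.QH.Grid

set_option autoImplicit false

/-!
QH-Root. A polynomial `P(t, z) ≠ 0` with coefficients in `k = ℚ(T)` which vanishes at
`z = ml L θ t`: the coefficients `θ` lie in an extension of `k` generated by `2 ^ (L - 1)` elements.

Plan. `L = 0`: `ml 0 θ t = θ 0`; take `T' = T ∪ {θ 0}`. Let `L = l + 1`, `f = ml L (C ∘ θ) X`.
1. Some iterated derivative `Q` of `P` has `Q.eval f = 0`, `Q.derivative.eval f ≠ 0` (`exists_der`).
2. Chain rule for `pderiv l` (`chain`), and `pderiv l f = ml l (C ∘ θ (2 ^ l + ·)) X`.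
3. `grid` for `R = Q.derivative.eval f` gives `r`, `r'`; evaluating 2. at the vertices `x` of the box, the values of
   `ml l (θ (2 ^ l + ·))` and of `ml l θ` lie in any extension of `k` containing the value of `f` (`key`).
4. `T' = T ∪ {values of f at the 2 ^ l vertices}` and `ml_interp` twice.
-/

namespace Pool.Agent.QH

open MvPolynomial

variable {K : Type} [Field K] [Algebra ℚ K]

private theorem cofs_mono {k k' : IntermediateField ℚ K} (h : k ≤ k')
    {P : Polynomial (MvPolynomial ℕ K)} (hP : P ∈ cofs k) : P ∈ cofs k' :=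
  fun i e => h (hP i e)

private theorem coeff_nat (p : MvPolynomial ℕ K) (n : ℕ) (e : ℕ →₀ ℕ) :
    (p * (n : MvPolynomial ℕ K)).coeff e = p.coeff e * n := by
  have h : (n : MvPolynomial ℕ K) = C (n : K) := by simp
  rw [h, mul_comm, MvPolynomial.coeff_C_mul, mul_comm]

private theorem cofs_der {k : IntermediateField ℚ K} {P : Polynomial (MvPolynomial ℕ K)}
    (hP : P ∈ cofs k) : Polynomial.derivative P ∈ cofs k := by
  intro i e
  rw [Polynomial.coeff_derivative]
  have h : ((i : MvPolynomial ℕ K) + 1) = ((i + 1 : ℕ) : MvPolynomial ℕ K) := by push_cast; rfl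
  rw [h, coeff_nat]
  exact mul_mem (hP _ _) (natCast_mem k (i + 1))

private theorem exists_der [CharZero K] (k : IntermediateField ℚ K) (f : MvPolynomial ℕ K) :
    ∀ (n : ℕ) (P : Polynomial (MvPolynomial ℕ K)), P.natDegree ≤ n → P ≠ 0 → P ∈ cofs k →
      P.eval f = 0 → ∃ Q ∈ cofs k, Q.eval f = 0 ∧ (Polynomial.derivative Q).eval f ≠ 0 := by
  intro n
  induction n with
  | zero =>
    intro P hn hP _ h0
    exfalso
    rw [Polynomial.eq_C_of_natDegree_le_zero hn, Polynomial.eval_C] at h0
    apply hP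
    rw [Polynomial.eq_C_of_natDegree_le_zero hn, h0, map_zero]
  | succ n ih =>
    intro P hn hP hk h0
    by_cases h1 : (Polynomial.derivative P).eval f = 0
    · have hd : P.natDegree ≠ 0 := by
        intro hd
        rw [Polynomial.eq_C_of_natDegree_eq_zero hd, Polynomial.eval_C] at h0
        apply hP
        rw [Polynomial.eq_C_of_natDegree_eq_zero hd, h0, map_zero]
      have hne : Polynomial.derivative P ≠ 0 := by
        rw [Ne, Polynomial.derivative_eq_zero]
        exact hd
      have hlt := Polynomial.natDegree_derivative_lt hd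
      exact ih _ (by omega) hne (cofs_der hk) h1
    · exact ⟨P, hk, h0, h1⟩

private theorem chain (l : ℕ) (Q : Polynomial (MvPolynomial ℕ K)) (f : MvPolynomial ℕ K) :
    pderiv l (Q.eval f) = ∑ i ∈ Finset.range (Q.natDegree + 1), pderiv l (Q.coeff i) * f ^ i +
      (Polynomial.derivative Q).eval f * pderiv l f := by
  rw [Polynomial.derivative_eval, Polynomial.sum_over_range _ (by intro n; simp),
    Polynomial.eval_eq_sum_range, map_sum, Finset.sum_mul, ← Finset.sum_add_distrib]
  refine Finset.sum_congr rfl fun i _ => ?_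
  rw [Derivation.leibniz, Derivation.leibniz_pow]
  simp only [smul_eq_mul, nsmul_eq_mul]
  ring

private theorem pd_coeff (k : IntermediateField ℚ K) (l : ℕ) {p : MvPolynomial ℕ K}
    (hp : ∀ e, p.coeff e ∈ k) (e : ℕ →₀ ℕ) : (pderiv l p).coeff e ∈ k := by
  rw [← support_sum_monomial_coeff p, map_sum, coeff_sum]
  refine sum_mem fun d _ => ?_
  rw [pderiv_monomial, coeff_monomial]
  split_ifs
  · exact mul_mem (hp d) (natCast_mem k (d l))
  · exact zero_mem k

private theorem ev_mem (k : IntermediateField ℚ K) {x : ℕ → K} (hx : ∀ a, x a ∈ k)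
    {p : MvPolynomial ℕ K} (hp : ∀ e, p.coeff e ∈ k) : eval x p ∈ k := by
  rw [eval_eq]
  exact sum_mem fun d _ => mul_mem (hp d) (prod_mem fun i _ => pow_mem (hx i) _)

private theorem pev_mem (k : IntermediateField ℚ K) {x : ℕ → K} (hx : ∀ a, x a ∈ k)
    {Q : Polynomial (MvPolynomial ℕ K)} (hQ : Q ∈ cofs k) {f : MvPolynomial ℕ K}
    (hf : eval x f ∈ k) : eval x (Q.eval f) ∈ k := by
  rw [Polynomial.eval_eq_sum_range, map_sum]
  refine sum_mem fun i _ => ?_
  rw [map_mul, map_pow]
  exact mul_mem (ev_mem k hx (hQ i)) (pow_mem hf _)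

private theorem pd_prod (l : ℕ) (s : Finset ℕ) (hs : l ∉ s) :
    pderiv l (∏ a ∈ s, (X a : MvPolynomial ℕ K)) = 0 := by
  induction s using Finset.induction_on with
  | empty => simp
  | insert a s ha ih =>
    rw [Finset.prod_insert ha, Derivation.leibniz, ih fun h => hs (Finset.mem_insert_of_mem h),
      pderiv_X_of_ne (i := l) (j := a) fun h => hs (Finset.mem_insert.2 (Or.inl h.symm))]
    simp

private theorem pd_ml (l : ℕ) (θ : ℕ → K) :
    pderiv l (ml l (fun S => C (θ S)) (X : ℕ → MvPolynomial ℕ K)) = 0 := by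
  unfold ml
  rw [map_sum]
  refine Finset.sum_eq_zero fun S _ => ?_
  rw [Derivation.leibniz, pderiv_C, pd_prod l _ ?_]
  · simp
  · intro h
    have := Finset.mem_range.1 (Finset.mem_filter.1 h).1
    omega

private theorem pd_f (l : ℕ) (θ : ℕ → K) :
    pderiv l (ml (l + 1) (fun S => C (θ S)) (X : ℕ → MvPolynomial ℕ K)) =
      ml l (fun S => C (θ (2 ^ l + S))) X := by
  rw [ml_succ, map_add, Derivation.leibniz, pd_ml, pd_ml l fun S => θ (2 ^ l + S),
    pderiv_X_self]
  simp

private theorem ev_ml (l : ℕ) (θ x : ℕ → K) :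
    eval x (ml l (fun S => C (θ S)) (X : ℕ → MvPolynomial ℕ K)) = ml l θ x := by
  rw [ml_map]
  simp

private theorem key (k : IntermediateField ℚ K) {l : ℕ} {θ x : ℕ → K} (hx : ∀ a, x a ∈ k)
    {Q : Polynomial (MvPolynomial ℕ K)} (hQ : Q ∈ cofs k)
    (h0 : Q.eval (ml (l + 1) (fun S => C (θ S)) X) = 0)
    (h1 : eval x ((Polynomial.derivative Q).eval (ml (l + 1) (fun S => C (θ S)) X)) ≠ 0)
    (hf : ml (l + 1) θ x ∈ k) : ml l (fun S => θ (2 ^ l + S)) x ∈ k ∧ ml l θ x ∈ k := by
  have hf' : eval x (ml (l + 1) (fun S => C (θ S)) (X : ℕ → MvPolynomial ℕ K)) ∈ k := by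
    rw [ev_ml]
    exact hf
  have h2 := congrArg (eval x) (chain l Q (ml (l + 1) (fun S => C (θ S)) X))
  rw [h0, map_zero, map_zero, map_add, map_mul, pd_f, ev_ml l (fun S => θ (2 ^ l + S)) x,
    map_sum] at h2
  have h3 : ∑ i ∈ Finset.range (Q.natDegree + 1), eval x (pderiv l (Q.coeff i) *
      (ml (l + 1) (fun S => C (θ S)) (X : ℕ → MvPolynomial ℕ K)) ^ i) ∈ k := by
    refine sum_mem fun i _ => ?_
    rw [map_mul, map_pow]
    exact mul_mem (ev_mem k hx (pd_coeff k l (hQ i))) (pow_mem hf' _)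
  have h4 := pev_mem k hx (cofs_der hQ) hf'
  have h5 : ml l (fun S => θ (2 ^ l + S)) x ∈ k := by
    have h6 : ml l (fun S => θ (2 ^ l + S)) x =
        -(∑ i ∈ Finset.range (Q.natDegree + 1), eval x (pderiv l (Q.coeff i) *
          (ml (l + 1) (fun S => C (θ S)) (X : ℕ → MvPolynomial ℕ K)) ^ i)) /
        eval x ((Polynomial.derivative Q).eval (ml (l + 1) (fun S => C (θ S)) X)) := by
      rw [eq_div_iff h1]
      linear_combination -h2
    rw [h6]
    exact div_mem (neg_mem h3) h4
  refine ⟨h5, ?_⟩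
  have h7 : ml l θ x = ml (l + 1) θ x - x l * ml l (fun S => θ (2 ^ l + S)) x := by
    rw [ml_succ]
    ring
  rw [h7]
  exact sub_mem hf (mul_mem (hx l) h5)

theorem root {K : Type} [Field K] [Algebra ℚ K] {L : ℕ} {θ : ℕ → K} (T : Finset K)
    (P : Polynomial (MvPolynomial ℕ K)) (hP : P ≠ 0)
    (hT : P ∈ cofs (IntermediateField.adjoin ℚ (T : Set K)))
    (h0 : P.eval (ml L (fun S => C (θ S)) X) = 0) :
    ∃ T' : Finset K, T'.card ≤ T.card + 2 ^ (L - 1) ∧
      ∀ S < 2 ^ L, θ S ∈ IntermediateField.adjoin ℚ (T' : Set K) := by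
  classical
  have : CharZero K := algebraRat.charZero K
  rcases L with _ | l
  · refine ⟨insert (θ 0) T, ?_, fun S hS => ?_⟩
    · exact Finset.card_insert_le _ _
    · have hS0 : S = 0 := by simpa using hS
      rw [hS0]
      exact IntermediateField.subset_adjoin _ _ (Finset.mem_coe.2 (Finset.mem_insert_self _ _))
  · obtain ⟨Q, hQ, hQ0, hQ1⟩ := exists_der _ _ P.natDegree P le_rfl hP hT h0
    obtain ⟨r, r', hr, hR⟩ := grid _ hQ1
    set x : Finset ℕ → ℕ → K := fun A a => algebraMap ℚ K (if a ∈ A then r' a else r a) with hxd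
    set T' : Finset K := T ∪ (Finset.range l).powerset.image (fun A => ml (l + 1) θ (x A)) with hT'
    set k' : IntermediateField ℚ K := IntermediateField.adjoin ℚ (T' : Set K) with hk'
    have hle : IntermediateField.adjoin ℚ (T : Set K) ≤ k' :=
      IntermediateField.adjoin.mono _ _ _ (Finset.coe_subset.2 Finset.subset_union_left)
    have hx : ∀ A a, x A a ∈ k' := fun A a => k'.algebraMap_mem _
    have hkey : ∀ A ⊆ Finset.range l,
        ml l (fun S => θ (2 ^ l + S)) (x A) ∈ k' ∧ ml l θ (x A) ∈ k' := by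
      intro A hA
      refine key k' (hx A) (cofs_mono hle hQ) hQ0 (hR A) ?_
      exact IntermediateField.subset_adjoin _ _ (Finset.mem_coe.2 (Finset.mem_union_right _
        (Finset.mem_image.2 ⟨A, Finset.mem_powerset.2 hA, rfl⟩)))
    have hres : ∀ (A : Finset ℕ) (η : ℕ → K), ml l η (x A) = ml l η (x (A ∩ Finset.range l)) := by
      intro A η
      refine ml_congr (fun _ _ => rfl) fun a ha => ?_
      have : (a ∈ A ∩ Finset.range l) ↔ a ∈ A := by
        rw [Finset.mem_inter, Finset.mem_range]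
        exact ⟨fun h => h.1, fun h => ⟨h, ha⟩⟩
      simp only [hxd, this]
    refine ⟨T', ?_, ?_⟩
    · refine (Finset.card_union_le _ _).trans (Nat.add_le_add_left ?_ _)
      refine Finset.card_image_le.trans (le_of_eq ?_)
      rw [Finset.card_powerset, Finset.card_range]
      rfl
    · have h1 : ∀ S < 2 ^ l, θ S ∈ k' := by
        refine ml_interp k' r r' hr l θ fun A => ?_
        change ml l θ (x A) ∈ k'
        rw [hres]
        exact (hkey _ Finset.inter_subset_right).2
      have h2 : ∀ S < 2 ^ l, θ (2 ^ l + S) ∈ k' := by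
        refine ml_interp k' r r' hr l (fun S => θ (2 ^ l + S)) fun A => ?_
        change ml l (fun S => θ (2 ^ l + S)) (x A) ∈ k'
        rw [hres]
        exact (hkey _ Finset.inter_subset_right).1
      intro S hS
      by_cases hSl : S < 2 ^ l
      · exact h1 S hSl
      · have h3 : S = 2 ^ l + (S - 2 ^ l) := by omega
        rw [h3]
        refine h2 _ ?_
        rw [pow_succ] at hS
        omega

end Pool.Agent.QH
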