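import Pool.Agent.QH.Comp

set_option autoImplicit false

/-!
QH-Seeds. Values of the seeds at which `F` does not vanish.

Plan: `G = aeval (gen ..) F ∈ MvPolynomial Sd ℚ` is nonzero (`compQ`) and has degree at most `s` in every variable: every coordinate of `gen` has `degreeOf ≤ 1` in every seed (it is
`X (inr (inl _)) + ∑ S, X (inl S) * ∏ a ∈ .., X (inr (inr (_, a, _)))`, products of distinct variables; `degreeOf_mul_le`, `degreeOf_sum_le`, `degreeOf_prod_le`, `degreeOf_X`..), so
`degreeOf i (aeval g F) ≤ totalDegree F ≤ s` (write `F` as a sum of monomials, `MvPolynomial.aeval_def`, `eval₂_eq'`, `degreeOf_sum_le`, `degreeOf_prod_le`, `degreeOf_pow_le`, `degreeOf_C_mul_le`). A nonzero polynomial of degree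
`≤ s` in every variable does not vanish at some point with all coordinates in `{0, …, s}` (Mathlib: `MvPolynomial.eq_zero_of_eval_zero_at_prod_finset` for finitely many variables, the
combinatorial Nullstellensatz file; or `Pool/Agent/Helper5/Gen.lean` `hit_grid`; or induction on the number of variables. `Sd` is infinite, only the finitely many variables of `G` matter:
`MvPolynomial.exists_finset_rename` or `exists_rename_eq_of_vars_subset_range`). `eval (ρ : Sd → ℚ) G = eval (gen .. ρ ..) F` (`gen_map` with `Nat.castRingHom ℚ` and `eval ρ`).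
-/

namespace Pool.Agent.QH

open MvPolynomial

private theorem deg_inl (S : ℕ) (i : Sd) (hi : i ≠ Sum.inl S) :
    (X (Sum.inl S) : MvPolynomial Sd ℚ).degreeOf i = 0 := by
  classical
  rw [degreeOf_X, if_neg hi]

private theorem deg_X1 (j i : Sd) : (X j : MvPolynomial Sd ℚ).degreeOf i ≤ 1 := by
  classical
  rw [degreeOf_X]
  split_ifs <;> omega

private theorem deg_prod1 {v : ℕ} (b d : ℕ) (β : ℕ → ℕ) (I : Finset ℕ) (i : Sd) :
    (∏ a ∈ I, (X (Sum.inr (Sum.inr (β v, a, hsh b d v a))) : MvPolynomial Sd ℚ)).degreeOf i ≤ 1 := by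
  classical
  refine (degreeOf_prod_le _ _ _).trans ?_
  by_cases hi : ∃ t, i = Sum.inr (Sum.inr t)
  · obtain ⟨⟨k, a', h⟩, rfl⟩ := hi
    have h1 : ∀ a ∈ I, (X (Sum.inr (Sum.inr (β v, a, hsh b d v a))) : MvPolynomial Sd ℚ).degreeOf
        (Sum.inr (Sum.inr (k, a', h))) ≤ if a' = a then 1 else 0 := by
      intro a _
      rw [degreeOf_X]
      by_cases ha : a' = a
      · rw [if_pos ha]
        split_ifs <;> omega
      · rw [if_neg ha, if_neg]
        intro hh
        apply ha
        have h2 := Sum.inr.inj (Sum.inr.inj hh)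
        exact congrArg (fun t : ℕ × ℕ × ℕ => t.2.1) h2
    refine (Finset.sum_le_sum h1).trans ?_
    rw [Finset.sum_ite_eq]
    split_ifs <;> omega
  · refine le_trans (le_of_eq ?_) (Nat.zero_le 1)
    apply Finset.sum_eq_zero
    intro a _
    rw [degreeOf_X, if_neg]
    intro hh
    exact hi ⟨_, hh⟩

private theorem deg_prod2 {v : ℕ} (b d : ℕ) (β : ℕ → ℕ) (I : Finset ℕ) (S : ℕ) :
    (∏ a ∈ I, (X (Sum.inr (Sum.inr (β v, a, hsh b d v a))) : MvPolynomial Sd ℚ)).degreeOf
      (Sum.inl S) ≤ 0 := by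
  classical
  refine (degreeOf_prod_le _ _ _).trans (le_of_eq ?_)
  apply Finset.sum_eq_zero
  intro a _
  rw [degreeOf_X, if_neg]
  exact Sum.inl_ne_inr

private theorem deg_gen (b d L : ℕ) (β : ℕ → ℕ) (v : ℕ) (i : Sd) :
    (gen b d L β (fun S => (X (Sum.inl S) : MvPolynomial Sd ℚ))
      (fun k => X (Sum.inr (Sum.inl k))) (fun k a h => X (Sum.inr (Sum.inr (k, a, h)))) v).degreeOf i ≤
      1 := by
  classical
  unfold gen ml
  refine (degreeOf_add_le _ _ _).trans (max_le ?_ ?_)
  · exact deg_X1 _ _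
  · refine (degreeOf_sum_le _ _ _).trans ?_
    apply Finset.sup_le
    intro S _
    refine (degreeOf_mul_le _ _ _).trans ?_
    beta_reduce
    by_cases hi : i = Sum.inl S
    · have h2 := deg_prod2 (v := v) b d β ((Finset.range L).filter (fun a => S.testBit a)) S
      have h1 := deg_X1 (Sum.inl S) i
      subst hi
      omega
    · have h2 := deg_prod1 (v := v) b d β ((Finset.range L).filter (fun a => S.testBit a)) i
      have h1 := deg_inl S i hi
      omega

private theorem degreeOf_aeval_le (g : ℕ → MvPolynomial Sd ℚ) (j : Sd)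
    (hg : ∀ i, (g i).degreeOf j ≤ 1) (f : MvPolynomial ℕ ℚ) :
    (aeval g f).degreeOf j ≤ f.totalDegree := by
  classical
  rw [aeval_def, eval₂_eq]
  refine (degreeOf_sum_le _ _ _).trans ?_
  apply Finset.sup_le
  intro m hm
  refine (degreeOf_C_mul_le _ _ _).trans ?_
  refine (degreeOf_prod_le _ _ _).trans ?_
  calc ∑ i ∈ m.support, (g i ^ m i).degreeOf j ≤ ∑ i ∈ m.support, m i := by
        apply Finset.sum_le_sum
        intro i _
        refine (degreeOf_pow_le _ _ _).trans ?_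
        exact (Nat.mul_le_mul_left _ (hg i)).trans (by rw [mul_one])
    _ = (m.sum fun _ a => a) := rfl
    _ ≤ f.totalDegree := le_totalDegree hm

private theorem eval_aeval' (g : ℕ → MvPolynomial Sd ℚ) (r : Sd → ℚ) (F : MvPolynomial ℕ ℚ) :
    eval r (aeval g F) = eval (fun v => eval r (g v)) F := by
  rw [aeval_def, ← coe_eval₂Hom, ← RingHom.comp_apply]
  congr 1
  apply ringHom_ext
  · intro r; simp
  · intro i; simp

private theorem grid_pt (G : MvPolynomial Sd ℚ) (s : ℕ) (hG : ∀ i, G.degreeOf i ≤ s) (h0 : G ≠ 0) :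
    ∃ ρ : Sd → ℕ, (∀ i, ρ i ≤ s) ∧ eval (fun i => (ρ i : ℚ)) G ≠ 0 := by
  classical
  obtain ⟨t, q, hq⟩ := exists_finset_rename G
  have hq0 : q ≠ 0 := by
    intro h
    apply h0
    rw [hq, h, map_zero]
  have h1 : ∃ x : {x // x ∈ t} → ℚ,
      (∀ i, x i ∈ (Finset.range (s + 1)).image (fun m : ℕ => (m : ℚ))) ∧ eval x q ≠ 0 := by
    by_contra hcon
    push Not at hcon
    apply hq0
    apply eq_zero_of_eval_zero_at_prod_finset q
      (fun _ => (Finset.range (s + 1)).image (fun m : ℕ => (m : ℚ)))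
    · intro i
      rw [Finset.card_image_of_injective _ Nat.cast_injective, Finset.card_range]
      have h2 := degreeOf_rename_of_injective (p := q) (Subtype.val_injective) i
      have h3 := hG i
      rw [hq, h2] at h3
      omega
    · exact hcon
  obtain ⟨x, hx, hx0⟩ := h1
  have h2 : ∀ i, ∃ m : ℕ, m ≤ s ∧ (m : ℚ) = x i := by
    intro i
    have := hx i
    rw [Finset.mem_image] at this
    obtain ⟨m, hm, hm'⟩ := this
    exact ⟨m, by rw [Finset.mem_range] at hm; omega, hm'⟩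
  choose y hy1 hy2 using h2
  refine ⟨fun i => if h : i ∈ t then y ⟨i, h⟩ else 0, ?_, ?_⟩
  · intro i
    dsimp only
    split_ifs with h
    · exact hy1 _
    · exact Nat.zero_le _
  · rw [hq, eval_rename]
    have h3 : ((fun i : Sd => (((if h : i ∈ t then y ⟨i, h⟩ else 0 : ℕ)) : ℚ)) ∘ Subtype.val :
        {x // x ∈ t} → ℚ) = x := by
      funext i
      simp only [Function.comp_apply]
      rw [dif_pos i.2]
      exact hy2 i
    rw [h3]
    exact hx0

theorem seeds {s m b d L : ℕ} {D : ℕ → ℕ} (hD : Monotone D) {o : Multiset ℕ}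
    {F : MvPolynomial ℕ ℚ} (hF : Par o D F) (hv : ∀ v ∈ F.vars, v ∈ o) (hL1 : 1 ≤ L)
    (hL : D m + m * 2 ^ (d - 1) < 2 ^ (L - 1)) (hb : ∀ v ∈ o, v < b ^ d) (β : ℕ → ℕ)
    (hβ : ∀ k, (o.filter fun v => β v = k).card ≤ m ∨ ∃ v, ∀ u ∈ o, β u = k → u = v)
    (hdeg : F.totalDegree ≤ s) (h0 : F ≠ 0) :
    ∃ ρ : Sd → ℕ, (∀ i, ρ i ≤ s) ∧
      eval (fun v => ((gen b d L β (fun S => ρ (Sum.inl S)) (fun k => ρ (Sum.inr (Sum.inl k)))
        (fun k a h => ρ (Sum.inr (Sum.inr (k, a, h)))) v : ℕ) : ℚ)) F ≠ 0 := by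
  classical
  obtain ⟨ρ, h1, h2⟩ := grid_pt _ s (fun i => (degreeOf_aeval_le _ i
    (fun v => deg_gen b d L β v i) F).trans hdeg) (compQ hD hF hv hL1 hL hb β hβ h0)
  refine ⟨ρ, h1, ?_⟩
  rw [eval_aeval'] at h2
  have h3 : (fun v => eval (fun i => (ρ i : ℚ)) (gen b d L β (fun S => (X (Sum.inl S) : MvPolynomial Sd ℚ))
      (fun k => X (Sum.inr (Sum.inl k))) (fun k a h => X (Sum.inr (Sum.inr (k, a, h)))) v)) =
      (fun v => ((gen b d L β (fun S => ρ (Sum.inl S)) (fun k => ρ (Sum.inr (Sum.inl k)))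
        (fun k a h => ρ (Sum.inr (Sum.inr (k, a, h)))) v : ℕ) : ℚ)) := by
    funext v
    have e1 := gen_map (eval (fun i => (ρ i : ℚ))) b d L β (fun S => (X (Sum.inl S) : MvPolynomial Sd ℚ))
      (fun k => X (Sum.inr (Sum.inl k))) (fun k a h => X (Sum.inr (Sum.inr (k, a, h)))) v
    have e2 := gen_map (Nat.castRingHom ℚ) b d L β (fun S => ρ (Sum.inl S))
      (fun k => ρ (Sum.inr (Sum.inl k))) (fun k a h => ρ (Sum.inr (Sum.inr (k, a, h)))) v
    simp only [eval_X] at e1
    rw [e1]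
    exact e2.symm
  rw [h3] at h2
  exact h2

end Pool.Agent.QH
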